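import Pool.Agent.CYD.Stmts
import Pool.Agent.DGP.Base

set_option autoImplicit false

/-!
# CYD, module BAS: the base system
-/

open Finset

namespace Pool.Agent.CYD

open Pool.Agent.DGP (GSys IsZ hd val Conv tens)

namespace BAS_

open Pool.Agent.DGP.Base

noncomputable section

/-- The matrices of the rescaled system. -/
def Bm (n d k : ℕ) (p p' : Fin n × Fin n) : Polynomial ℚ :=
  if p.2 = p'.2 then Polynomial.C ((d : ℚ) ^ k) *
    (Bt n k p.1 p'.1).comp (Polynomial.C (d : ℚ) * Polynomial.X) else 0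

theorem Bm_coeff (n d k : ℕ) (p p' : Fin n × Fin n) (l : ℕ) :
    (Bm n d k p p').coeff l = if p.2 = p'.2 then
      (d : ℚ) ^ k * ((Bt n k p.1 p'.1).coeff l * (d : ℚ) ^ l) else 0 := by
  rw [Bm]
  split_ifs with h
  · rw [Polynomial.coeff_C_mul, Polynomial.comp_C_mul_X_coeff]
  · rw [Polynomial.coeff_zero]

theorem Td_eq (n d : ℕ) : Td n d = (Tq n).comp (Polynomial.C (d : ℚ) * Polynomial.X) := by
  rw [Td, Tq, Polynomial.sub_comp, Polynomial.one_comp, Polynomial.X_pow_comp, mul_pow,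
    ← Polynomial.C_pow]

theorem Td_coeff (n d i : ℕ) : (Td n d).coeff i =
    (if i = 0 then 1 else 0) - (if i = n + 1 then (d : ℚ) ^ (n + 1) else 0) := by
  rw [Td, Polynomial.coeff_sub, Polynomial.coeff_one, Polynomial.coeff_C_mul,
    Polynomial.coeff_X_pow]
  simp only [mul_ite, mul_one, mul_zero]

theorem sys_eq (hH : Stmt_HdY) (n : ℕ) (hn : 0 < n) (d k : ℕ) (p : Fin n × Fin n) :
    ((Td n d : Polynomial ℚ) : PowerSeries ℚ) ^ k *
        hd k (PowerSeries.rescale (d : ℚ) (Ys n p))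
      = ∑ p' : Fin n × Fin n, ((Bm n d k p p' : Polynomial ℚ) : PowerSeries ℚ) *
          PowerSeries.rescale (d : ℚ) (Ys n p') := by
  obtain ⟨i, j⟩ := p
  have h := congrArg (PowerSeries.rescale (d : ℚ)) (hH n hn k i j)
  rw [map_mul, map_pow, map_sum, rescale_coe, ← Td_eq] at h
  rw [hd_rescale]
  have e2 : ((Td n d : Polynomial ℚ) : PowerSeries ℚ) ^ k *
        (PowerSeries.C ((d : ℚ) ^ k) * PowerSeries.rescale (d : ℚ) (hd k (Ys n (i, j))))
      = PowerSeries.C ((d : ℚ) ^ k) *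
        (((Td n d : Polynomial ℚ) : PowerSeries ℚ) ^ k *
          PowerSeries.rescale (d : ℚ) (hd k (Ys n (i, j)))) := by
    ring
  rw [e2, h, Fintype.sum_prod_type, Finset.mul_sum]
  apply Finset.sum_congr rfl
  intro l _
  rw [Finset.sum_eq_single j]
  · rw [map_mul, rescale_coe, Bm, if_pos rfl, Polynomial.coe_mul, Polynomial.coe_C]
    ring
  · intro j' _ hj'
    rw [Bm, if_neg (fun h0 => hj' h0.symm), Polynomial.coe_zero, zero_mul]
  · intro hj
    exact absurd (Finset.mem_univ j) hj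

end

end BAS_

open BAS_ Pool.Agent.DGP.Base in
theorem bas_proof (h1 : Stmt_HdY) (h2 : Stmt_BSz) (h3 : Stmt_YSz) (h4 : Stmt_Den)
    (h5 : Stmt_Dlc) (h6 : Stmt_BDn) : Stmt_Bas := by
  intro n hn hev
  obtain ⟨CS, hCS⟩ := h2 n
  obtain ⟨hDd, hD1, CL, hCL⟩ := h5 n
  have hCL1 : 1 ≤ CL := by
    have h := (hD1 1).trans (hCL 1)
    rwa [pow_one] at h
  obtain ⟨K, hK⟩ : ∃ K : ℕ, K = CL ^ (2 * (n + 2)) := ⟨_, rfl⟩
  have hK1 : 1 ≤ K := by rw [hK]; exact Nat.one_le_pow _ _ hCL1
  have hCLK : CL ≤ K := by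
    rw [hK]
    exact Nat.le_self_pow (by omega) CL
  have hCLK' : CL ^ n ≤ K := by
    rw [hK]
    exact Nat.pow_le_pow_right hCL1 (by omega)
  obtain ⟨P, hP⟩ : ∃ P : ℕ, P = 2 ^ n := ⟨_, rfl⟩
  obtain ⟨Q, hQ⟩ : ∃ Q : ℕ, Q = (n + 1) ^ n := ⟨_, rfl⟩
  refine ⟨2 + CS + P + K, fun d hd1 => ⟨0, ((Q + K : ℕ) : ℝ), ?_⟩⟩
  have hdq : (1 : ℚ) ≤ d := by exact_mod_cast hd1
  obtain ⟨Hq, hHq⟩ : ∃ H : ℚ, H = ((2 + CS + P + K : ℕ) : ℚ) * (d : ℚ) ^ (n + 2) :=
    ⟨_, rfl⟩
  obtain ⟨cq, hcq⟩ : ∃ c : ℚ, c = ((Q + K : ℕ) : ℚ) := ⟨_, rfl⟩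
  have hH0 : (((2 + CS + P + K : ℕ) : ℝ) * (d : ℝ) ^ (n + 2)) = ((Hq : ℚ) : ℝ) := by
    rw [hHq]
    push_cast
    ring
  have hc0 : ((Q + K : ℕ) : ℝ) = ((cq : ℚ) : ℝ) := by
    rw [hcq]
    push_cast
    ring
  rw [hH0, hc0]
  have hle : ∀ (A : ℕ) (a : ℕ), A ≤ 2 + CS + P + K → a ≤ n + 2 →
      (A : ℚ) * (d : ℚ) ^ a ≤ Hq := by
    intro A a hA ha
    rw [hHq]
    apply mul_le_mul _ _ (by positivity) (by positivity)
    · exact_mod_cast hA
    · exact pow_le_pow_right₀ hdq ha
  have hHq2 : 2 ≤ Hq := by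
    have := hle 2 0 (by omega) (by omega)
    simpa using this
  have hHq0 : 0 ≤ Hq := by linarith
  have hcle : ∀ A : ℕ, A ≤ Q + K → (A : ℚ) ≤ cq := by
    intro A hA
    rw [hcq]
    exact_mod_cast hA
  have hcq1 : 1 ≤ cq := by
    have := hcle 1 (by omega)
    simpa using this
  refine ⟨?_, ?_, ?_, ?_, ?_, ?_, ?_, ?_, ?_⟩
  · exact_mod_cast hcq1
  · exact_mod_cast hHq2
  · intro i
    rw [Td_coeff]
    have z1 : IsZ (if i = 0 then (1 : ℚ) else 0) := by
      split_ifs
      · exact ⟨1, by simp⟩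
      · exact ⟨0, by simp⟩
    have z2 : IsZ (if i = n + 1 then (d : ℚ) ^ (n + 1) else 0) := by
      split_ifs
      · exact isZ_pow (isZ_nat _) _
      · exact ⟨0, by simp⟩
    obtain ⟨a, ha⟩ := z1
    obtain ⟨b, hb⟩ := z2
    exact ⟨a - b, by rw [ha, hb]; push_cast; ring⟩
  · rw [Td_coeff, if_pos rfl, if_neg (by omega)]
    norm_num
  · rw [Td]
    compute_degree
  · have e1 : ∑ i ∈ range (n + 1 + 1), |(Td n d).coeff i| ≤ Hq := by
      have e2 : ∀ i ∈ range (n + 1 + 1), |(Td n d).coeff i| ≤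
          (if i = 0 then 1 else 0) + (if i = n + 1 then (d : ℚ) ^ (n + 1) else 0) := by
        intro i _
        rw [Td_coeff]
        refine (abs_sub _ _).trans ?_
        apply add_le_add
        · split_ifs <;> simp
        · split_ifs
          · rw [abs_of_nonneg (by positivity)]
          · simp
      refine (Finset.sum_le_sum e2).trans ?_
      rw [Finset.sum_add_distrib, Finset.sum_ite_eq', Finset.sum_ite_eq',
        if_pos (by simp), if_pos (by simp)]
      have e3 : (1 : ℚ) ≤ (d : ℚ) ^ (n + 1) := one_le_pow₀ hdq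
      have e4 := hle 2 (n + 1) (by omega) (by omega)
      push_cast at e4
      linarith
    exact_mod_cast e1
  · refine ⟨Bm n d, fun k => (Dj n ((n + 2) * (k + 1))) ^ 2, fun k p => sys_eq h1 n hn d k p,
      ?_, ?_, ?_, ?_⟩
    · intro k p p'
      rw [Polynomial.natDegree_le_iff_coeff_eq_zero]
      intro l hl
      rw [Bm_coeff, Polynomial.coeff_eq_zero_of_natDegree_lt
        (lt_of_le_of_lt (hCS k p.1 p'.1).1 (by omega))]
      simp
    · intro k p p' l
      have e1 : |(Bm n d k p p').coeff l| ≤ cq * Hq ^ k := by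
        have e0 : 0 ≤ cq * Hq ^ k := by positivity
        rw [Bm_coeff]
        split_ifs with h
        · by_cases hl : (n + 1) * k < l
          · rw [Polynomial.coeff_eq_zero_of_natDegree_lt
              (lt_of_le_of_lt (hCS k p.1 p'.1).1 hl)]
            simpa using e0
          · have hl' : l ≤ (n + 1) * k := by omega
            rw [abs_mul, abs_mul, abs_of_nonneg (by positivity : (0 : ℚ) ≤ (d : ℚ) ^ k),
              abs_of_nonneg (by positivity : (0 : ℚ) ≤ (d : ℚ) ^ l)]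
            calc (d : ℚ) ^ k * (|(Bt n k p.1 p'.1).coeff l| * (d : ℚ) ^ l)
                ≤ (d : ℚ) ^ k * ((CS : ℚ) ^ k * (d : ℚ) ^ ((n + 1) * k)) := by
                  apply mul_le_mul_of_nonneg_left _ (by positivity)
                  exact mul_le_mul ((hCS k p.1 p'.1).2 l) (pow_le_pow_right₀ hdq hl')
                    (by positivity) (by positivity)
              _ = ((CS : ℚ) * (d : ℚ) ^ (n + 2)) ^ k := by
                  rw [mul_pow, ← pow_mul]
                  have : (n + 2) * k = (n + 1) * k + k := by ring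
                  rw [this, pow_add]
                  ring
              _ ≤ Hq ^ k := by
                  apply pow_le_pow_left₀ (by positivity)
                  exact hle CS (n + 2) (by omega) le_rfl
              _ ≤ cq * Hq ^ k := le_mul_of_one_le_left (by positivity) hcq1
        · simpa using e0
      exact_mod_cast e1
    · intro k
      refine ⟨Nat.one_le_pow _ _ (hD1 _), ?_, ?_⟩
      · apply pow_dvd_pow_of_dvd
        apply hDd
        apply Nat.mul_le_mul_left
        omega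
      · have e1 : (((Dj n ((n + 2) * (k + 1))) ^ 2 : ℕ) : ℚ) ≤ cq * Hq ^ k := by
          have e2 : (Dj n ((n + 2) * (k + 1))) ^ 2 ≤ K * K ^ k := by
            calc (Dj n ((n + 2) * (k + 1))) ^ 2 ≤ (CL ^ ((n + 2) * (k + 1))) ^ 2 :=
                  Nat.pow_le_pow_left (hCL _) 2
              _ = K * K ^ k := by
                  rw [hK, ← pow_mul, ← pow_mul, ← pow_add]
                  congr 1
                  ring
          calc (((Dj n ((n + 2) * (k + 1))) ^ 2 : ℕ) : ℚ) ≤ ((K * K ^ k : ℕ) : ℚ) := by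
                exact_mod_cast e2
            _ = (K : ℚ) * (K : ℚ) ^ k := by push_cast; ring
            _ ≤ cq * Hq ^ k := by
                apply mul_le_mul (hcle K (by omega)) _ (by positivity) (by positivity)
                apply pow_le_pow_left₀ (by positivity)
                have := hle K 0 (by omega) (by omega)
                simpa using this
        exact_mod_cast e1
    · intro k p p' l
      rw [Bm_coeff]
      split_ifs with h
      · have e1 : ((((Dj n ((n + 2) * (k + 1))) ^ 2 : ℕ)) : ℚ) *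
            ((d : ℚ) ^ k * ((Bt n k p.1 p'.1).coeff l * (d : ℚ) ^ l))
            = (d : ℚ) ^ k * (d : ℚ) ^ l * (((Dj n ((n + 2) * (k + 1)) : ℕ) : ℚ) ^ 2 *
              (Bt n k p.1 p'.1).coeff l) := by
          push_cast
          ring
        rw [e1]
        exact isZ_mul (isZ_mul (isZ_pow (isZ_nat _) _) (isZ_pow (isZ_nat _) _))
          (h6 n hn hev k p.1 p'.1 l)
      · rw [mul_zero]
        exact ⟨0, by simp⟩
  · intro p j
    have e1 : |PowerSeries.coeff j (PowerSeries.rescale (d : ℚ) (Ys n p))| ≤ cq * Hq ^ j := by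
      rw [PowerSeries.coeff_rescale, abs_mul, abs_of_nonneg (by positivity : (0 : ℚ) ≤ (d : ℚ) ^ j)]
      have e2 : ((j + n : ℕ) : ℚ) ^ n ≤ ((n + 1 : ℕ) : ℚ) ^ n * ((2 : ℚ) ^ n) ^ j := by
        rw [← pow_mul, mul_comm n j, pow_mul, ← mul_pow]
        apply pow_le_pow_left₀ (by positivity)
        have e3 := succ_le_two_pow j
        calc ((j + n : ℕ) : ℚ) ≤ ((n + 1 : ℕ) : ℚ) * ((j : ℚ) + 1) := by
              push_cast
              nlinarith [(Nat.cast_nonneg n : (0 : ℚ) ≤ n), (Nat.cast_nonneg j : (0 : ℚ) ≤ j)]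
          _ ≤ ((n + 1 : ℕ) : ℚ) * 2 ^ j := mul_le_mul_of_nonneg_left e3 (by positivity)
      calc (d : ℚ) ^ j * |PowerSeries.coeff j (Ys n p)|
          ≤ (d : ℚ) ^ j * (((n + 1 : ℕ) : ℚ) ^ n * ((2 : ℚ) ^ n) ^ j) :=
            mul_le_mul_of_nonneg_left ((h3 n p j).trans e2) (by positivity)
        _ = (Q : ℚ) * ((P : ℚ) * (d : ℚ) ^ 1) ^ j := by
            rw [mul_pow, hP, hQ]
            push_cast
            ring
        _ ≤ cq * Hq ^ j := by
            apply mul_le_mul (hcle _ (by omega)) _ (by positivity) (by positivity)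
            apply pow_le_pow_left₀ (by positivity)
            exact hle P 1 (by omega) (by omega)
    exact_mod_cast e1
  · refine ⟨fun j => Dj n (j + n), fun j => ⟨hD1 _, hDd _ _ (by omega), ?_⟩, ?_⟩
    · have e1 : ((Dj n (j + n) : ℕ) : ℚ) ≤ cq * Hq ^ j := by
        calc ((Dj n (j + n) : ℕ) : ℚ) ≤ ((CL ^ (j + n) : ℕ) : ℚ) := by exact_mod_cast hCL _
          _ = ((CL ^ n : ℕ) : ℚ) * (CL : ℚ) ^ j := by
              push_cast
              rw [pow_add]
              ring
          _ ≤ cq * Hq ^ j := by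
              apply mul_le_mul (hcle _ (by omega)) _ (by positivity) (by positivity)
              apply pow_le_pow_left₀ (by positivity)
              have := hle CL 0 (by omega) (by omega)
              simpa using this
      exact_mod_cast e1
    · intro p j
      rw [PowerSeries.coeff_rescale, Ys, PowerSeries.coeff_mk]
      obtain ⟨m, hm⟩ := hDd (j + (p.1 : ℕ)) (j + n) (by have := p.1.2; omega)
      have e1 : ((Dj n (j + n) : ℕ) : ℚ) * ((d : ℚ) ^ j *
          (((j + (p.1 : ℕ)).descFactorial (p.1 : ℕ) : ℚ) * yc n (p.2 : ℕ) (j + (p.1 : ℕ))))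
          = (m : ℚ) * (d : ℚ) ^ j * ((j + (p.1 : ℕ)).descFactorial (p.1 : ℕ) : ℚ) *
            ((Dj n (j + (p.1 : ℕ)) : ℚ) * yc n (p.2 : ℕ) (j + (p.1 : ℕ))) := by
        rw [hm]
        push_cast
        ring
      rw [e1]
      exact isZ_mul (isZ_mul (isZ_mul (isZ_nat _) (isZ_pow (isZ_nat _) _)) (isZ_nat _))
        (h4 n (p.2 : ℕ) (j + (p.1 : ℕ)) p.2.2)

end Pool.Agent.CYD
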