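import Pool.Agent.CYD.Stmts

set_option autoImplicit false

/-! # CYD: module BDN, denominators of the matrices `Bt` -/

open scoped BigOperators

namespace Pool.Agent.CYD

open Pool.Agent.CYP
open Pool.Agent.DGP (IsZ hd)

noncomputable section

namespace BDN_

theorem isZ_zero : IsZ 0 := ⟨0, by simp⟩

theorem isZ_one : IsZ 1 := ⟨1, by simp⟩

theorem isZ_nat (n : ℕ) : IsZ (n : ℚ) := ⟨n, by simp⟩

theorem isZ_neg {x : ℚ} (hx : IsZ x) : IsZ (-x) := by
  obtain ⟨a, rfl⟩ := hx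
  exact ⟨-a, by push_cast; ring⟩

theorem isZ_add {x y : ℚ} (hx : IsZ x) (hy : IsZ y) : IsZ (x + y) := by
  obtain ⟨a, rfl⟩ := hx
  obtain ⟨b, rfl⟩ := hy
  exact ⟨a + b, by push_cast; ring⟩

theorem isZ_mul {x y : ℚ} (hx : IsZ x) (hy : IsZ y) : IsZ (x * y) := by
  obtain ⟨a, rfl⟩ := hx
  obtain ⟨b, rfl⟩ := hy
  exact ⟨a * b, by push_cast; ring⟩

theorem isZ_pow {x : ℚ} (hx : IsZ x) (n : ℕ) : IsZ (x ^ n) := by
  obtain ⟨a, rfl⟩ := hx
  exact ⟨a ^ n, by push_cast; ring⟩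

theorem isZ_sum {ι : Type} (s : Finset ι) (f : ι → ℚ) (h : ∀ i ∈ s, IsZ (f i)) :
    IsZ (∑ i ∈ s, f i) := by
  classical
  induction s using Finset.induction_on with
  | empty => simpa using isZ_zero
  | insert a s ha ih =>
    rw [Finset.sum_insert ha]
    exact isZ_add (h a (Finset.mem_insert_self a s))
      (ih fun i hi => h i (Finset.mem_insert_of_mem hi))

/-- the coefficients up to `L` have denominator `D` -/
def DN (D : ℚ) (L : ℕ) (f : PowerSeries ℚ) : Prop := ∀ l ≤ L, IsZ (D * PowerSeries.coeff l f)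

theorem DN.mul {D D' : ℚ} {L : ℕ} {f f' : PowerSeries ℚ} (h : DN D L f) (h' : DN D' L f') :
    DN (D * D') L (f * f') := by
  intro l hl
  rw [PowerSeries.coeff_mul, Finset.mul_sum]
  refine isZ_sum _ _ fun p hp => ?_
  have hp' : p.1 + p.2 = l := Finset.HasAntidiagonal.mem_antidiagonal.1 hp
  have e : D * D' * (PowerSeries.coeff p.1 f * PowerSeries.coeff p.2 f') =
      (D * PowerSeries.coeff p.1 f) * (D' * PowerSeries.coeff p.2 f') := by ring
  rw [e]
  exact isZ_mul (h _ (by omega)) (h' _ (by omega))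

theorem DN.mul1 {D : ℚ} {L : ℕ} {f f' : PowerSeries ℚ} (h : DN 1 L f) (h' : DN D L f') :
    DN D L (f * f') := by
  have := h.mul h'
  rwa [one_mul] at this

theorem DN.mul2 {D : ℚ} {L : ℕ} {f f' : PowerSeries ℚ} (h : DN D L f) (h' : DN 1 L f') :
    DN D L (f * f') := by
  have := h.mul h'
  rwa [mul_one] at this

theorem DN.sum {D : ℚ} {L : ℕ} {ι : Type} (s : Finset ι) (f : ι → PowerSeries ℚ)
    (h : ∀ i ∈ s, DN D L (f i)) : DN D L (∑ i ∈ s, f i) := by
  intro l hl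
  rw [map_sum, Finset.mul_sum]
  exact isZ_sum _ _ fun i hi => h i hi l hl

theorem DN.one (L : ℕ) : DN 1 L 1 := by
  intro l _
  rw [one_mul, PowerSeries.coeff_one]
  split_ifs
  · exact isZ_one
  · exact isZ_zero

theorem DN.pow {L : ℕ} {f : PowerSeries ℚ} (h : DN 1 L f) (k : ℕ) : DN 1 L (f ^ k) := by
  induction k with
  | zero => rw [pow_zero]; exact DN.one L
  | succ k ih => rw [pow_succ]; exact ih.mul1 h

theorem DN.poly {L : ℕ} {p : Polynomial ℚ} (h : ∀ l, IsZ (p.coeff l)) :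
    DN 1 L (p : PowerSeries ℚ) := by
  intro l _
  rw [one_mul, Polynomial.coeff_coe]
  exact h l

theorem dn_C {L : ℕ} {x : ℚ} (h : IsZ x) : DN 1 L (PowerSeries.C x) := by
  intro l _
  rw [one_mul, PowerSeries.coeff_C]
  split_ifs
  · exact h
  · exact isZ_zero

theorem tq_int (n l : ℕ) : IsZ ((Tq n).coeff l) := by
  unfold Tq
  rw [Polynomial.coeff_sub, Polynomial.coeff_one, Polynomial.coeff_X_pow, sub_eq_add_neg]
  refine isZ_add ?_ (isZ_neg ?_) <;> split_ifs
  · exact isZ_one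
  · exact isZ_zero
  · exact isZ_one
  · exact isZ_zero

theorem rq_int (n a b l : ℕ) : IsZ ((Rq n a b).coeff l) := by
  unfold Rq
  rw [Polynomial.coeff_sub, sub_eq_add_neg]
  refine isZ_add ?_ (isZ_neg ?_)
  · split_ifs
    · rw [Polynomial.coeff_C]
      split_ifs
      · exact isZ_pow (isZ_neg isZ_one) _
      · exact isZ_zero
    · rw [Polynomial.coeff_zero]
      exact isZ_zero
  · rw [Polynomial.coeff_mul_C, Polynomial.coeff_X_pow]
    refine isZ_mul ?_ (isZ_sum _ _ fun i _ => isZ_mul (isZ_pow (isZ_neg isZ_one) _)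
      (isZ_mul (isZ_nat _) (isZ_nat _)))
    split_ifs
    · exact isZ_one
    · exact isZ_zero

theorem rq_zero (n : ℕ) (i j : Fin n) :
    (Rq n (i : ℕ) (j : ℕ)).coeff 0 = if (i : ℕ) + j + 1 = n then (-1) ^ (j : ℕ) else 0 := by
  unfold Rq
  have h0 : ¬ (0 = (i : ℕ) + (j : ℕ) + 2) := by omega
  rw [Polynomial.coeff_sub, Polynomial.coeff_mul_C, Polynomial.coeff_X_pow, if_neg h0,
    zero_mul, sub_zero]
  split_ifs
  · rw [Polynomial.coeff_C_zero]
  · rw [Polynomial.coeff_zero]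

end BDN_

open BDN_ in
theorem bdn_proof (hHdY : Stmt_HdY) (hBil : Stmt_Bil) (hDen : Stmt_Den) (hDlc : Stmt_Dlc)
    (hBSz : Stmt_BSz) : Stmt_BDn := by
  intro n hn he k i j l
  classical
  obtain ⟨C, hC⟩ := hBSz n
  obtain ⟨hdvd, -, -⟩ := hDlc n
  obtain ⟨D, hD⟩ : ∃ D : ℚ, D = ((Dj n ((n + 2) * (k + 1)) : ℕ) : ℚ) := ⟨_, rfl⟩
  obtain ⟨L, hL⟩ : ∃ L : ℕ, L = (n + 1) * k := ⟨_, rfl⟩
  rw [← hD]
  by_cases hl : L < l
  · have h0 : (Bt n k i j).coeff l = 0 :=
      Polynomial.coeff_eq_zero_of_natDegree_lt (lt_of_le_of_lt ((hC k i j).1) (by omega))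
    rw [h0, mul_zero]
    exact isZ_zero
  have hl' : l ≤ L := not_lt.1 hl
  -- coefficients of Y
  have hidx : ∀ m a : ℕ, m ≤ (n + 2) * k → a < n → m + a ≤ (n + 2) * (k + 1) := by
    intro m a h1 h2
    have : (n + 2) * (k + 1) = (n + 2) * k + (n + 2) := by ring
    omega
  have hyc : ∀ m : ℕ, m ≤ (n + 2) * k → ∀ p : Fin n × Fin n,
      IsZ (D * PowerSeries.coeff m (Ys n p)) := by
    intro m hm p
    unfold Ys
    rw [PowerSeries.coeff_mk]
    have h1 := hDen n (p.2 : ℕ) (m + (p.1 : ℕ)) p.2.2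
    obtain ⟨q, hq⟩ := hdvd (m + (p.1 : ℕ)) ((n + 2) * (k + 1)) (hidx m p.1 hm p.1.2)
    have e : D * (((m + (p.1 : ℕ)).descFactorial (p.1 : ℕ) : ℚ) * yc n (p.2 : ℕ) (m + (p.1 : ℕ))) =
        (((m + (p.1 : ℕ)).descFactorial (p.1 : ℕ) : ℕ) : ℚ) * ((q : ℚ) *
          ((Dj n (m + (p.1 : ℕ)) : ℚ) * yc n (p.2 : ℕ) (m + (p.1 : ℕ)))) := by
      rw [hD, hq]
      push_cast
      ring
    rw [e]
    exact isZ_mul (isZ_nat _) (isZ_mul (isZ_nat _) h1)
  have hLk : L + k = (n + 2) * k := by rw [hL]; ring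
  have hY : ∀ p : Fin n × Fin n, DN D L (Ys n p) := fun p m hm => hyc m (by omega) p
  have hH : ∀ p : Fin n × Fin n, DN D L (hd k (Ys n p)) := by
    intro p m hm
    unfold hd
    rw [PowerSeries.coeff_mk]
    have e : D * (((m + k).choose k : ℚ) * PowerSeries.coeff (m + k) (Ys n p)) =
        (((m + k).choose k : ℕ) : ℚ) * (D * PowerSeries.coeff (m + k) (Ys n p)) := by ring
    rw [e]
    exact isZ_mul (isZ_nat _) (hyc _ (by omega) p)
  -- matrices
  let Y : Matrix (Fin n) (Fin n) (PowerSeries ℚ) := Matrix.of fun a b => Ys n (a, b)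
  let R : Matrix (Fin n) (Fin n) (PowerSeries ℚ) :=
    Matrix.of fun a b => (Rq n (a : ℕ) (b : ℕ) : PowerSeries ℚ)
  let R0 : Matrix (Fin n) (Fin n) (PowerSeries ℚ) :=
    Matrix.of fun a b => PowerSeries.C ((Rq n (a : ℕ) (b : ℕ)).coeff 0)
  let B : Matrix (Fin n) (Fin n) (PowerSeries ℚ) :=
    Matrix.of fun a b => (Bt n k a b : PowerSeries ℚ)
  let H : Matrix (Fin n) (Fin n) (PowerSeries ℚ) :=
    Matrix.of fun a b => (Tq n : PowerSeries ℚ) ^ k * hd k (Ys n (a, b))
  have hbil : Y.transpose * R * Y = R0 := by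
    ext1 a b
    have h1 := hBil n hn he a b
    show (Y.transpose * R * Y) a b = PowerSeries.C ((Rq n (a : ℕ) (b : ℕ)).coeff 0)
    rw [← h1, Matrix.mul_apply, Finset.sum_comm]
    refine Finset.sum_congr rfl fun c _ => ?_
    rw [Matrix.mul_apply, Finset.sum_mul]
    rfl
  have hR0 : R0.transpose * R0 = 1 := by
    ext1 a b
    rw [Matrix.mul_apply]
    have e1 : ∀ c : Fin n, R0.transpose a c * R0 c b =
        if (c : ℕ) + a + 1 = n then (if a = b then 1 else 0) else 0 := by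
      intro c
      show PowerSeries.C ((Rq n (c : ℕ) (a : ℕ)).coeff 0) *
        PowerSeries.C ((Rq n (c : ℕ) (b : ℕ)).coeff 0) = _
      rw [rq_zero, rq_zero, ← map_mul]
      by_cases h1 : (c : ℕ) + a + 1 = n
      · rw [if_pos h1, if_pos h1]
        by_cases h2 : a = b
        · subst h2
          rw [if_pos h1, if_pos rfl, ← pow_add, ← two_mul, pow_mul, neg_one_sq, one_pow, map_one]
        · rw [if_neg h2, if_neg (fun h3 => h2 (Fin.ext (by omega))), mul_zero, map_zero]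
      · rw [if_neg h1, if_neg h1, zero_mul, map_zero]
    rw [Finset.sum_congr rfl fun c _ => e1 c]
    have ha := a.2
    let c0 : Fin n := ⟨n - 1 - a, by omega⟩
    rw [Finset.sum_eq_single c0]
    · rw [if_pos (show ((c0 : Fin n) : ℕ) + a + 1 = n by
        show n - 1 - (a : ℕ) + a + 1 = n
        omega), Matrix.one_apply]
    · intro c _ hc
      rw [if_neg]
      intro h1
      apply hc
      apply Fin.ext
      show (c : ℕ) = n - 1 - a
      omega
    · intro h
      exact absurd (Finset.mem_univ _) h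
  have hinv : (R0.transpose * (Y.transpose * R)) * Y = 1 := by
    rw [Matrix.mul_assoc, hbil, hR0]
  have hinv' := mul_eq_one_comm.1 hinv
  have hBY : B * Y = H := by
    ext1 a b
    have h1 := hHdY n hn k a b
    show (B * Y) a b = (Tq n : PowerSeries ℚ) ^ k * hd k (Ys n (a, b))
    rw [h1, Matrix.mul_apply]
    rfl
  have hB : B = H * (R0.transpose * (Y.transpose * R)) := by
    rw [← hBY, Matrix.mul_assoc, hinv', Matrix.mul_one]
  have hW : ∀ a b, DN D L ((R0.transpose * (Y.transpose * R)) a b) := by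
    intro a b
    rw [Matrix.mul_apply]
    refine DN.sum _ _ fun c _ => ?_
    refine DN.mul1 ?_ ?_
    · show DN 1 L (PowerSeries.C ((Rq n (c : ℕ) (a : ℕ)).coeff 0))
      exact dn_C (rq_int _ _ _ _)
    · rw [Matrix.mul_apply]
      refine DN.sum _ _ fun e _ => ?_
      refine DN.mul2 ?_ ?_
      · exact hY (e, c)
      · exact DN.poly (rq_int _ _ _)
  have hfin : DN (D * D) L (B i j) := by
    rw [hB, Matrix.mul_apply]
    refine DN.sum _ _ fun c _ => ?_
    refine DN.mul ?_ (hW c j)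
    exact ((DN.poly (tq_int n)).pow k).mul1 (hH (i, c))
  have h1 := hfin l hl'
  have e : PowerSeries.coeff l (B i j) = (Bt n k i j).coeff l := Polynomial.coeff_coe _ _
  rw [e] at h1
  rw [sq]
  exact h1

end

end Pool.Agent.CYD
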