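import Pool.Agent.CYD.Stmts

set_option autoImplicit false

/-!
# CYD, module BIL: the bilinear relation for the power series

The proof is formal: the Lagrange identity for power series over `ℚ`.
-/

open scoped BigOperators

namespace Pool.Agent.CYD

namespace BIL_

noncomputable section

/-- The derivative. -/
abbrev D : PowerSeries ℚ → PowerSeries ℚ := fun f => PowerSeries.derivative ℚ f

theorem D_mul (f g : PowerSeries ℚ) : D (f * g) = D f * g + f * D g := by
  show PowerSeries.derivative ℚ (f * g) = _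
  rw [Derivation.leibniz]
  simp only [smul_eq_mul]
  ring

theorem D_add (f g : PowerSeries ℚ) : D (f + g) = D f + D g := map_add _ _ _

theorem D_sub (f g : PowerSeries ℚ) : D (f - g) = D f - D g := map_sub _ _ _

theorem D_sum {ι : Type} (s : Finset ι) (f : ι → PowerSeries ℚ) :
    D (∑ i ∈ s, f i) = ∑ i ∈ s, D (f i) := map_sum _ _ _

theorem D_X : D PowerSeries.X = 1 := PowerSeries.derivative_X

theorem D_C (c : ℚ) : D (PowerSeries.C c) = 0 := PowerSeries.derivative_C

theorem D_nsign (i : ℕ) : D ((-1 : PowerSeries ℚ) ^ i) = 0 := by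
  have h : ((-1 : PowerSeries ℚ) ^ i) = PowerSeries.C ((-1 : ℚ) ^ i) := by simp
  rw [h, D_C]

theorem D_succ (k : ℕ) (f : PowerSeries ℚ) : D (D^[k] f) = D^[k + 1] f :=
  (Function.iterate_succ_apply' D k f).symm

/-- `(D X) ^ i`. -/
def th : ℕ → PowerSeries ℚ → PowerSeries ℚ
  | 0 => fun f => f
  | (i + 1) => fun f => D (PowerSeries.X * th i f)

theorem coeff_th (i m : ℕ) (f : PowerSeries ℚ) :
    PowerSeries.coeff m (th i f) = ((m : ℚ) + 1) ^ i * PowerSeries.coeff m f := by
  induction i with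
  | zero => simp [th]
  | succ i ih =>
    show PowerSeries.coeff m (PowerSeries.derivative ℚ (PowerSeries.X * th i f)) = _
    rw [PowerSeries.coeff_derivative, PowerSeries.coeff_succ_X_mul, ih]
    ring

theorem th_eq (i : ℕ) (f : PowerSeries ℚ) : th i f = ∑ k ∈ Finset.range (i + 1),
    PowerSeries.C (Nat.stirlingSecond (i + 1) (k + 1) : ℚ) * PowerSeries.X ^ k * D^[k] f := by
  induction i with
  | zero => simp [th, Nat.stirlingSecond_self]
  | succ i ih =>
    show D (PowerSeries.X * th i f) = _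
    rw [ih, Finset.mul_sum, D_sum]
    have e1 : ∀ k ∈ Finset.range (i + 1), D (PowerSeries.X *
        (PowerSeries.C (Nat.stirlingSecond (i + 1) (k + 1) : ℚ) * PowerSeries.X ^ k *
          D^[k] f)) =
        PowerSeries.C (Nat.stirlingSecond (i + 1) (k + 1) : ℚ) * (PowerSeries.C ((k : ℚ) + 1) *
          PowerSeries.X ^ k * D^[k] f + PowerSeries.X ^ (k + 1) * D^[k + 1] f) := by
      intro k _
      have h1 : PowerSeries.X *
        (PowerSeries.C (Nat.stirlingSecond (i + 1) (k + 1) : ℚ) * PowerSeries.X ^ k *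
          D^[k] f) = PowerSeries.C (Nat.stirlingSecond (i + 1) (k + 1) : ℚ) *
            (PowerSeries.X ^ (k + 1) * D^[k] f) := by ring
      have h2 : D (PowerSeries.X ^ (k + 1)) = PowerSeries.C ((k : ℚ) + 1) *
          PowerSeries.X ^ k := by
        show PowerSeries.derivative ℚ (PowerSeries.X ^ (k + 1)) = _
        rw [Derivation.leibniz_pow, PowerSeries.derivative_X]
        simp
      rw [h1, D_mul, D_C, zero_mul, zero_add, D_mul, h2, D_succ]
    rw [Finset.sum_congr rfl e1]
    have e2 : ∑ k ∈ Finset.range (i + 1 + 1),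
        PowerSeries.C (Nat.stirlingSecond (i + 1 + 1) (k + 1) : ℚ) * PowerSeries.X ^ k *
          D^[k] f = ∑ k ∈ Finset.range (i + 1 + 1),
        (PowerSeries.C (((k : ℚ) + 1) * (Nat.stirlingSecond (i + 1) (k + 1) : ℚ)) *
          PowerSeries.X ^ k * D^[k] f) + ∑ k ∈ Finset.range (i + 1 + 1),
        (PowerSeries.C (Nat.stirlingSecond (i + 1) k : ℚ) * PowerSeries.X ^ k * D^[k] f) := by
      rw [← Finset.sum_add_distrib]
      refine Finset.sum_congr rfl fun k _ => ?_
      rw [Nat.stirlingSecond_succ_succ]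
      push_cast
      simp only [map_add, map_mul, map_one]
      ring
    rw [e2, Finset.sum_range_succ (fun k => PowerSeries.C (((k : ℚ) + 1) *
        (Nat.stirlingSecond (i + 1) (k + 1) : ℚ)) * PowerSeries.X ^ k * D^[k] f) (i + 1),
      Nat.stirlingSecond_eq_zero_of_lt (show i + 1 < i + 1 + 1 by omega),
      Finset.sum_range_succ' (fun k => PowerSeries.C (Nat.stirlingSecond (i + 1) k : ℚ) *
        PowerSeries.X ^ k * D^[k] f), Nat.stirlingSecond_succ_zero]
    simp only [Nat.cast_zero, mul_zero, map_zero, zero_mul, add_zero]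
    rw [← Finset.sum_add_distrib]
    refine Finset.sum_congr rfl fun k _ => ?_
    simp only [map_mul]
    ring

/-- The series `Y_l`. -/
def ys (n l : ℕ) : PowerSeries ℚ := PowerSeries.mk (yc n l)

theorem Ys_eq (n : ℕ) (p : Fin n × Fin n) : Ys n p = D^[(p.1 : ℕ)] (ys n p.2) := by
  ext m
  show _ = PowerSeries.coeff m ((PowerSeries.derivative ℚ)^[(p.1 : ℕ)] (ys n p.2))
  rw [PowerSeries.coeff_iterate_derivative, ← Nat.add_descFactorial_eq_ascFactorial]
  simp [Ys, ys]

/-- The recurrence. -/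
theorem yc_rec (n l m : ℕ) (hl : l < n) :
    ((m + 1 + n).descFactorial n : ℚ) * yc n l (m + 1 + n) = ((m : ℚ) + 1) ^ n * yc n l m := by
  by_cases h : l ≤ m ∧ (n + 1) ∣ (m - l)
  · obtain ⟨h1, k, hk⟩ := h
    have hm : m = l + (n + 1) * k := by omega
    have hk' : (m - l) / (n + 1) = k := by
      rw [hk]
      exact Nat.mul_div_cancel_left k (Nat.succ_pos n)
    have e1 : m + 1 + n - l = (n + 1) * (k + 1) := by
      rw [hm]
      ring_nf
      omega
    have hk2 : (m + 1 + n - l) / (n + 1) = k + 1 := by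
      rw [e1]
      exact Nat.mul_div_cancel_left (k + 1) (Nat.succ_pos n)
    have c1 : yc n l m = ((∏ i ∈ Finset.range k, ((n + 1) * i + l + 1) : ℕ) : ℚ) ^ (n + 1) /
        (m.factorial : ℚ) := by
      rw [yc, if_pos ⟨h1, k, hk⟩, hk']
    have c2 : yc n l (m + 1 + n) = ((∏ i ∈ Finset.range (k + 1), ((n + 1) * i + l + 1) : ℕ) :
        ℚ) ^ (n + 1) / ((m + 1 + n).factorial : ℚ) := by
      rw [yc, if_pos ⟨by omega, k + 1, e1⟩, hk2]
    rw [c1, c2, Finset.prod_range_succ]
    have e2 : (n + 1) * k + l + 1 = m + 1 := by omega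
    rw [e2]
    have e3 : ((m + 1).factorial : ℚ) * ((m + 1 + n).descFactorial n : ℚ) =
        ((m + 1 + n).factorial : ℚ) := by
      have := Nat.factorial_mul_descFactorial (show n ≤ m + 1 + n by omega)
      rw [show m + 1 + n - n = m + 1 by omega] at this
      exact_mod_cast this
    have e4 : ((m + 1).factorial : ℚ) = ((m : ℚ) + 1) * (m.factorial : ℚ) := by
      rw [Nat.factorial_succ]
      push_cast
      ring
    have f1 : (m.factorial : ℚ) ≠ 0 := by positivity
    have f2 : ((m + 1 + n).factorial : ℚ) ≠ 0 := by positivity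
    have f3 : ((m : ℚ) + 1) ≠ 0 := by positivity
    have f4 : ((m + 1 + n).descFactorial n : ℚ) =
        ((m + 1 + n).factorial : ℚ) / (((m : ℚ) + 1) * (m.factorial : ℚ)) := by
      rw [eq_div_iff (mul_ne_zero f3 f1), ← e4, ← e3]
      ring
    rw [f4]
    push_cast
    rw [mul_pow]
    field_simp
    ring
  · have h2 : ¬ (l ≤ m + 1 + n ∧ (n + 1) ∣ (m + 1 + n - l)) := by
      rintro ⟨h3, k, hk⟩
      apply h
      by_cases hlm : l ≤ m
      · refine ⟨hlm, k - 1, ?_⟩
        have hk1 : 1 ≤ k := by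
          rcases Nat.eq_zero_or_pos k with h0 | h0
          · subst h0
            omega
          · exact h0
        obtain ⟨k', rfl⟩ : ∃ k', k = k' + 1 := ⟨k - 1, by omega⟩
        rw [Nat.add_sub_cancel]
        have : (n + 1) * (k' + 1) = (n + 1) * k' + (n + 1) := by ring
        omega
      · exfalso
        rcases Nat.eq_zero_or_pos k with h0 | h0
        · subst h0
          omega
        · have : n + 1 ≤ (n + 1) * k := Nat.le_mul_of_pos_right _ h0
          omega
    rw [yc, yc, if_neg h, if_neg h2, mul_zero, mul_zero]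

theorem yc_n (n l : ℕ) (hl : l < n) : yc n l n = 0 := by
  rw [yc, if_neg]
  rintro ⟨h1, h2⟩
  have := Nat.le_of_dvd (by omega) h2
  omega

/-- The differential equation. -/
theorem ode (n l : ℕ) (hl : l < n) : PowerSeries.X * th n (ys n l) = D^[n] (ys n l) := by
  ext m
  have h1 : PowerSeries.coeff m (D^[n] (ys n l)) =
      ((m + n).descFactorial n : ℚ) * yc n l (m + n) := by
    show PowerSeries.coeff m ((PowerSeries.derivative ℚ)^[n] (ys n l)) = _
    rw [PowerSeries.coeff_iterate_derivative, ← Nat.add_descFactorial_eq_ascFactorial]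
    simp [ys]
  rw [h1]
  cases m with
  | zero =>
    rw [zero_add, yc_n n l hl, mul_zero]
    simp
  | succ m =>
    rw [PowerSeries.coeff_succ_X_mul, coeff_th, yc_rec n l m hl]
    simp [ys]

/-- The bilinear form. -/
def B (n : ℕ) (f g : PowerSeries ℚ) : PowerSeries ℚ := ∑ i ∈ Finset.range n,
  ((-1) ^ i * (D^[n - 1 - i] f * D^[i] g) -
    (-1) ^ i * ((PowerSeries.X * th (n - 1 - i) f) * (PowerSeries.X * th i g)))

theorem tele (u v : ℕ → PowerSeries ℚ) (n : ℕ) : ∑ i ∈ Finset.range n,
    ((-1) ^ i * (u (n - i) * v i + u (n - 1 - i) * v (i + 1))) =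
    u n * v 0 - (-1) ^ n * (u 0 * v n) := by
  have h : ∀ i ∈ Finset.range n,
      ((-1 : PowerSeries ℚ) ^ i * (u (n - i) * v i + u (n - 1 - i) * v (i + 1))) =
      (-1) ^ i * (u (n - i) * v i) - (-1) ^ (i + 1) * (u (n - (i + 1)) * v (i + 1)) := by
    intro i _
    rw [show n - 1 - i = n - (i + 1) by omega]
    ring
  rw [Finset.sum_congr rfl h, Finset.sum_range_sub']
  simp

theorem D_B (n : ℕ) (he : Even n) (f g : PowerSeries ℚ)
    (of : PowerSeries.X * th n f = D^[n] f) (og : PowerSeries.X * th n g = D^[n] g) :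
    D (B n f g) = 0 := by
  rw [B, D_sum]
  have h1 : ∀ i ∈ Finset.range n, D ((-1) ^ i * (D^[n - 1 - i] f * D^[i] g) -
      (-1) ^ i * ((PowerSeries.X * th (n - 1 - i) f) * (PowerSeries.X * th i g))) =
      (-1) ^ i * (D^[n - i] f * D^[i] g + D^[n - 1 - i] f * D^[i + 1] g) -
      PowerSeries.X * ((-1) ^ i * (th (n - i) f * th i g + th (n - 1 - i) f *
        th (i + 1) g)) := by
    intro i hi
    rw [Finset.mem_range] at hi
    have e1 : D (D^[n - 1 - i] f) = D^[n - i] f := by
      rw [D_succ, show n - 1 - i + 1 = n - i by omega]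
    have e2 : D (PowerSeries.X * th (n - 1 - i) f) = th (n - i) f := by
      rw [show n - i = n - 1 - i + 1 by omega]
      rfl
    have e3 : D (PowerSeries.X * th i g) = th (i + 1) g := rfl
    rw [D_sub, D_mul ((-1) ^ i), D_mul ((-1) ^ i), D_nsign, zero_mul, zero_add, zero_mul,
      zero_add, D_mul, D_mul (PowerSeries.X * th (n - 1 - i) f), e1, e2, e3, D_succ]
    ring
  rw [Finset.sum_congr rfl h1, Finset.sum_sub_distrib, ← Finset.mul_sum]
  have t1 := tele (fun k => D^[k] f) (fun k => D^[k] g) n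
  have t2 := tele (fun k => th k f) (fun k => th k g) n
  simp only [he.neg_one_pow, one_mul] at t1 t2
  rw [t1, t2]
  have z1 : D^[0] f = f := rfl
  have z2 : D^[0] g = g := rfl
  have z3 : th 0 f = f := rfl
  have z4 : th 0 g = g := rfl
  rw [z1, z2, z3, z4, ← of, ← og]
  ring

theorem X_th {n i : ℕ} (hi : i < n) (f : PowerSeries ℚ) :
    PowerSeries.X * th i f = ∑ a ∈ Finset.range n,
      PowerSeries.C (Nat.stirlingSecond (i + 1) (a + 1) : ℚ) * PowerSeries.X ^ (a + 1) *
        D^[a] f := by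
  rw [th_eq, Finset.mul_sum]
  have h : Finset.range (i + 1) ⊆ Finset.range n := Finset.range_subset_range.2 (by omega)
  rw [← Finset.sum_subset h]
  · exact Finset.sum_congr rfl fun k _ => by ring
  · intro k _ hk
    rw [Finset.mem_range, not_lt] at hk
    rw [Nat.stirlingSecond_eq_zero_of_lt (by omega)]
    simp

theorem Rq_coe (n a b : ℕ) : ((Rq n a b : Polynomial ℚ) : PowerSeries ℚ) =
    (if a + b + 1 = n then (-1) ^ b else 0) -
    PowerSeries.X ^ (a + b + 2) * ∑ i ∈ Finset.range n, (-1) ^ (n - 1 - i) *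
      (PowerSeries.C (Nat.stirlingSecond (i + 1) (a + 1) : ℚ) *
        PowerSeries.C (Nat.stirlingSecond (n - i) (b + 1) : ℚ)) := by
  rw [Rq]
  have e1 : (((if a + b + 1 = n then Polynomial.C ((-1) ^ b) else 0 : Polynomial ℚ) :
      Polynomial ℚ) : PowerSeries ℚ) = (if a + b + 1 = n then (-1) ^ b else 0) := by
    split_ifs with h
    · simp
    · simp
  rw [Polynomial.coe_sub, e1, Polynomial.coe_mul, Polynomial.coe_pow, Polynomial.coe_X,
    Polynomial.coe_C, map_sum]
  simp only [map_mul, map_pow, map_neg, map_one]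

theorem B_eq (n : ℕ) (f g : PowerSeries ℚ) : B n f g =
    ∑ a ∈ Finset.range n, ∑ b ∈ Finset.range n,
      D^[a] f * ((Rq n a b : Polynomial ℚ) : PowerSeries ℚ) * D^[b] g := by
  symm
  have e0 : ∑ a ∈ Finset.range n, ∑ b ∈ Finset.range n,
      D^[a] f * ((Rq n a b : Polynomial ℚ) : PowerSeries ℚ) * D^[b] g =
      ∑ a ∈ Finset.range n, ∑ b ∈ Finset.range n,
      (D^[a] f * (if a + b + 1 = n then (-1) ^ b else 0) * D^[b] g) -
      ∑ a ∈ Finset.range n, ∑ b ∈ Finset.range n,
      (D^[a] f * (PowerSeries.X ^ (a + b + 2) * ∑ i ∈ Finset.range n, (-1) ^ (n - 1 - i) *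
      (PowerSeries.C (Nat.stirlingSecond (i + 1) (a + 1) : ℚ) *
        PowerSeries.C (Nat.stirlingSecond (n - i) (b + 1) : ℚ))) * D^[b] g) := by
    rw [← Finset.sum_sub_distrib]
    refine Finset.sum_congr rfl fun a _ => ?_
    rw [← Finset.sum_sub_distrib]
    refine Finset.sum_congr rfl fun b _ => ?_
    rw [Rq_coe]
    ring
  rw [e0, B, Finset.sum_sub_distrib]
  congr 1
  · rw [Finset.sum_comm]
    refine Finset.sum_congr rfl fun b hb => ?_
    rw [Finset.mem_range] at hb
    rw [Finset.sum_eq_single (n - 1 - b)]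
    · rw [if_pos (by omega)]
      ring
    · intro a _ hab
      rw [if_neg (by omega)]
      ring
    · intro h
      exact absurd (Finset.mem_range.2 (by omega)) h
  · rw [← Finset.sum_range_reflect (fun i => (-1 : PowerSeries ℚ) ^ i *
      ((PowerSeries.X * th (n - 1 - i) f) * (PowerSeries.X * th i g)))]
    have e1 : ∀ i ∈ Finset.range n, (-1 : PowerSeries ℚ) ^ (n - 1 - i) *
        ((PowerSeries.X * th (n - 1 - (n - 1 - i)) f) * (PowerSeries.X * th (n - 1 - i) g)) =
        ∑ a ∈ Finset.range n, ∑ b ∈ Finset.range n, ((-1) ^ (n - 1 - i) *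
        ((PowerSeries.C (Nat.stirlingSecond (i + 1) (a + 1) : ℚ) * PowerSeries.X ^ (a + 1) *
          D^[a] f) *
        (PowerSeries.C (Nat.stirlingSecond (n - i) (b + 1) : ℚ) * PowerSeries.X ^ (b + 1) *
          D^[b] g))) := by
      intro i hi
      rw [Finset.mem_range] at hi
      rw [show n - 1 - (n - 1 - i) = i by omega, X_th hi f,
        X_th (show n - 1 - i < n by omega) g, show n - 1 - i + 1 = n - i by omega,
        Finset.sum_mul_sum, Finset.mul_sum]
      exact Finset.sum_congr rfl fun a _ => by rw [Finset.mul_sum]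
    rw [Finset.sum_congr rfl e1]
    symm
    rw [Finset.sum_comm]
    refine Finset.sum_congr rfl fun a _ => ?_
    rw [Finset.sum_comm]
    refine Finset.sum_congr rfl fun b _ => ?_
    rw [Finset.mul_sum, Finset.mul_sum, Finset.sum_mul]
    exact Finset.sum_congr rfl fun i _ => by ring

theorem const_of_D (f : PowerSeries ℚ) (h : D f = 0) :
    f = PowerSeries.C (PowerSeries.coeff 0 f) := by
  ext m
  cases m with
  | zero => simp
  | succ m =>
    have h1 : PowerSeries.coeff m (PowerSeries.derivative ℚ f) = 0 := by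
      rw [show PowerSeries.derivative ℚ f = 0 from h, map_zero]
    rw [PowerSeries.coeff_derivative] at h1
    have h2 : ((m : ℚ) + 1) ≠ 0 := by positivity
    have h3 : PowerSeries.coeff (m + 1) f = 0 := by
      rcases mul_eq_zero.mp h1 with h4 | h4
      · exact h4
      · exact absurd h4 h2
    rw [h3, PowerSeries.coeff_C, if_neg (Nat.succ_ne_zero m)]

theorem yc_init (n k l : ℕ) (hk : k < n) (hl : l < n) :
    ((k.factorial : ℕ) : ℚ) * yc n l k = if k = l then 1 else 0 := by
  by_cases h : k = l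
  · subst h
    rw [if_pos rfl, yc, if_pos ⟨le_refl _, by simp⟩]
    have : (k.factorial : ℚ) ≠ 0 := by positivity
    simp
    field_simp
  · rw [if_neg h, yc, if_neg, mul_zero]
    rintro ⟨h1, h2⟩
    have := Nat.le_of_dvd (by omega) h2
    omega

theorem coeff_zero_Ys (n : ℕ) (p : Fin n × Fin n) :
    PowerSeries.coeff 0 (Ys n p) = if p.1 = p.2 then 1 else 0 := by
  have h1 : PowerSeries.coeff 0 (Ys n p) = ((p.1 : ℕ).descFactorial (p.1 : ℕ) : ℚ) *
      yc n (p.2 : ℕ) (p.1 : ℕ) := by
    simp [Ys]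
  rw [h1, Nat.descFactorial_self, yc_init n _ _ p.1.2 p.2.2]
  simp [Fin.ext_iff]

end

end BIL_

open BIL_ in
theorem bil_proof (_ : CYP.Stmt_Lagr) (_ : CYP.Stmt_Pser) : Stmt_Bil := by
  intro n hn he i j
  have h1 : ∑ a : Fin n, ∑ b : Fin n,
      Ys n (a, i) * (Rq n (a : ℕ) (b : ℕ) : PowerSeries ℚ) * Ys n (b, j) =
      B n (ys n i) (ys n j) := by
    rw [B_eq, ← Fin.sum_univ_eq_sum_range (fun a => ∑ b ∈ Finset.range n,
      D^[a] (ys n i) * ((Rq n a b : Polynomial ℚ) : PowerSeries ℚ) * D^[b] (ys n j)) n]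
    refine Finset.sum_congr rfl fun a _ => ?_
    rw [← Fin.sum_univ_eq_sum_range (fun b =>
      D^[a] (ys n i) * ((Rq n a b : Polynomial ℚ) : PowerSeries ℚ) * D^[b] (ys n j)) n]
    refine Finset.sum_congr rfl fun b _ => ?_
    rw [Ys_eq, Ys_eq]
  have h2 := D_B n he (ys n i) (ys n j) (ode n i i.2) (ode n j j.2)
  have h3 := const_of_D _ h2
  rw [h1, h3, ← h1]
  congr 1
  rw [map_sum, Finset.sum_eq_single i, map_sum, Finset.sum_eq_single j]
  · simp only [PowerSeries.coeff_zero_eq_constantCoeff, map_mul]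
    simp only [← PowerSeries.coeff_zero_eq_constantCoeff_apply]
    rw [coeff_zero_Ys, coeff_zero_Ys, if_pos rfl, if_pos rfl, one_mul, mul_one,
      Polynomial.coeff_coe]
  · intro b _ hb
    simp only [PowerSeries.coeff_zero_eq_constantCoeff, map_mul]
    simp only [← PowerSeries.coeff_zero_eq_constantCoeff_apply]
    rw [coeff_zero_Ys n (b, j), if_neg hb, mul_zero]
  · intro h
    exact absurd (Finset.mem_univ _) h
  · intro a _ ha
    rw [map_sum]
    refine Finset.sum_eq_zero fun b _ => ?_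
    simp only [PowerSeries.coeff_zero_eq_constantCoeff, map_mul]
    simp only [← PowerSeries.coeff_zero_eq_constantCoeff_apply]
    rw [coeff_zero_Ys n (a, i), if_neg ha, zero_mul, zero_mul]
  · intro h
    exact absurd (Finset.mem_univ _) h

end Pool.Agent.CYD
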