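import Pool.Agent.CYD.Stmts

set_option autoImplicit false

/-!
# CYD: degrees and sizes of the matrices `Bt`
-/

open Finset

namespace Pool.Agent.CYD

namespace BSZ_

open Polynomial

theorem exists_bd {ι : Type} [Fintype ι] (f : ι → ℚ) : ∃ B : ℚ, 0 ≤ B ∧ ∀ i, |f i| ≤ B :=
  ⟨∑ i, |f i|, Finset.sum_nonneg (fun i _ => abs_nonneg _),
    fun i => Finset.single_le_sum (f := fun i => |f i|) (fun i _ => abs_nonneg _)
      (Finset.mem_univ i)⟩

theorem abs_coeff_mul_le {m : ℕ} (p q : ℚ[X]) (hp : p.natDegree ≤ m) (D E : ℚ) (hD : 0 ≤ D)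
    (hE : 0 ≤ E) (h1 : ∀ l, |p.coeff l| ≤ D) (h2 : ∀ l, |q.coeff l| ≤ E) (l : ℕ) :
    |(p * q).coeff l| ≤ ((m : ℚ) + 1) * D * E := by
  rw [coeff_mul, Finset.Nat.sum_antidiagonal_eq_sum_range_succ (fun i j => p.coeff i * q.coeff j)]
  have h3 : |∑ u ∈ range l.succ, p.coeff u * q.coeff (l - u)| ≤
      ∑ u ∈ range l.succ, |p.coeff u| * E := by
    refine (Finset.abs_sum_le_sum_abs _ _).trans (Finset.sum_le_sum (fun u _ => ?_))
    rw [abs_mul]
    exact mul_le_mul_of_nonneg_left (h2 _) (abs_nonneg _)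
  have h4 : ∑ u ∈ range l.succ, |p.coeff u| * E ≤ ∑ u ∈ range (m + 1), |p.coeff u| * E := by
    have h5 : ∑ u ∈ range l.succ, |p.coeff u| * E ≤
        ∑ u ∈ range (l.succ + (m + 1)), |p.coeff u| * E := by
      refine Finset.sum_le_sum_of_subset_of_nonneg ?_ ?_
      · intro x hx
        rw [mem_range] at *
        omega
      · intro i _ _
        exact mul_nonneg (abs_nonneg _) hE
    have h6 : ∑ u ∈ range (m + 1), |p.coeff u| * E =
        ∑ u ∈ range (l.succ + (m + 1)), |p.coeff u| * E := by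
      refine Finset.sum_subset ?_ ?_
      · intro x hx
        rw [mem_range] at *
        omega
      · intro x _ hx
        rw [mem_range] at hx
        rw [coeff_eq_zero_of_natDegree_lt (by omega)]
        simp
    rw [h6]
    exact h5
  refine h3.trans (h4.trans ?_)
  have h7 : ∑ u ∈ range (m + 1), |p.coeff u| * E ≤ ∑ _u ∈ range (m + 1), D * E :=
    Finset.sum_le_sum (fun u _ => mul_le_mul_of_nonneg_right (h1 u) hE)
  refine h7.trans (le_of_eq ?_)
  rw [Finset.sum_const, card_range, nsmul_eq_mul]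
  push_cast
  ring

theorem Tq_natDegree (n : ℕ) : (Tq n).natDegree ≤ n + 1 := by
  unfold Tq
  refine (natDegree_sub_le _ _).trans ?_
  simp

theorem Tq_coeff (n l : ℕ) : |(Tq n).coeff l| ≤ 1 := by
  unfold Tq
  rw [coeff_sub, coeff_one, coeff_X_pow]
  by_cases h1 : l = 0
  · subst h1
    simp
  · by_cases h2 : l = n + 1
    · subst h2
      simp
    · simp [h1, h2]

theorem Aq_natDegree (n : ℕ) (i j : Fin n) : (Aq n i j).natDegree ≤ n + 1 := by
  unfold Aq
  simp only [Matrix.of_apply]
  split_ifs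
  · exact Tq_natDegree n
  · refine (natDegree_C_mul_le _ _).trans ?_
    rw [natDegree_X_pow]
    have := j.isLt
    omega
  · simp

theorem Bt_natDegree (n k : ℕ) : ∀ i j : Fin n, (Bt n k i j).natDegree ≤ (n + 1) * k := by
  induction k with
  | zero =>
    intro i j
    simp only [Bt, Matrix.one_apply]
    split_ifs <;> simp
  | succ k ih =>
    intro i j
    have e : Bt n (k + 1) i j = C (1 / ((k : ℚ) + 1)) * ((Tq n * derivative (Bt n k i j) +
        ∑ a, Bt n k i a * Aq n a j) - (C (k : ℚ) * derivative (Tq n)) * Bt n k i j) := by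
      simp only [Bt, Matrix.smul_apply, Matrix.sub_apply, Matrix.add_apply, Matrix.map_apply,
        Matrix.mul_apply, smul_eq_mul]
    rw [e]
    refine (natDegree_C_mul_le _ _).trans ?_
    refine (natDegree_sub_le _ _).trans (max_le ?_ ?_)
    · refine (natDegree_add_le _ _).trans (max_le ?_ ?_)
      · refine natDegree_mul_le.trans ?_
        have h1 := Tq_natDegree n
        have h2 := (natDegree_derivative_le (Bt n k i j)).trans (Nat.sub_le _ _)
        have h3 := ih i j
        calc _ ≤ (n + 1) + (n + 1) * k := add_le_add h1 (h2.trans h3)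
          _ = (n + 1) * (k + 1) := by ring
      · refine natDegree_sum_le_of_forall_le _ _ (fun a _ => ?_)
        refine natDegree_mul_le.trans ?_
        calc _ ≤ (n + 1) * k + (n + 1) := add_le_add (ih i a) (Aq_natDegree n a j)
          _ = (n + 1) * (k + 1) := by ring
    · refine natDegree_mul_le.trans ?_
      have h1 : (C (k : ℚ) * derivative (Tq n)).natDegree ≤ n + 1 := by
        refine (natDegree_C_mul_le _ _).trans ?_
        exact ((natDegree_derivative_le _).trans (Nat.sub_le _ _)).trans (Tq_natDegree n)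
      calc _ ≤ (n + 1) + (n + 1) * k := add_le_add h1 (ih i j)
        _ = (n + 1) * (k + 1) := by ring

theorem deriv_coeff {m : ℕ} (p : ℚ[X]) (hp : p.natDegree ≤ m) (E : ℚ) (hE : 0 ≤ E)
    (h : ∀ l, |p.coeff l| ≤ E) (l : ℕ) : |(derivative p).coeff l| ≤ (m : ℚ) * E := by
  rw [coeff_derivative]
  by_cases hl : l + 1 ≤ m
  · rw [abs_mul, mul_comm]
    have h1 : |((l : ℚ) + 1)| ≤ m := by
      rw [abs_of_nonneg (by positivity)]
      exact_mod_cast hl
    exact mul_le_mul h1 (h _) (abs_nonneg _) (by positivity)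
  · rw [coeff_eq_zero_of_natDegree_lt (by omega)]
    simp only [zero_mul, abs_zero]
    positivity

end BSZ_

open BSZ_ Polynomial in
theorem bsz_proof : Stmt_BSz := by
  intro n
  obtain ⟨B0, hB0, hB0'⟩ := exists_bd (fun x : Fin n × Fin n × Fin (n + 2) =>
    (Aq n x.1 x.2.1).coeff (x.2.2 : ℕ))
  have hA : ∀ (i a : Fin n) (l : ℕ), |(Aq n i a).coeff l| ≤ B0 := by
    intro i a l
    by_cases hl : l < n + 2
    · exact hB0' (i, a, ⟨l, hl⟩)
    · rw [coeff_eq_zero_of_natDegree_lt
        (lt_of_le_of_lt (Aq_natDegree n i a) (by omega)), abs_zero]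
      exact hB0
  obtain ⟨C0, hC0⟩ := exists_nat_ge (((n : ℚ) + 2) * (2 * (n + 1) + n * B0))
  refine ⟨C0, ?_⟩
  intro k
  refine fun i j => ⟨Bt_natDegree n k i j, ?_⟩
  revert i j
  induction k with
  | zero =>
    intro i j l
    rw [pow_zero]
    change |((1 : Matrix (Fin n) (Fin n) ℚ[X]) i j).coeff l| ≤ _
    by_cases hij : i = j
    · subst hij
      rw [Matrix.one_apply_eq, coeff_one]
      split_ifs <;> simp
    · rw [Matrix.one_apply_ne hij]; simp
  | succ k ih =>
    intro i j l
    have e : Bt n (k + 1) i j = C (1 / ((k : ℚ) + 1)) * ((Tq n * derivative (Bt n k i j) +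
        ∑ a, Aq n a j * Bt n k i a) - (C (k : ℚ) * derivative (Tq n)) * Bt n k i j) := by
      simp only [Bt, Matrix.smul_apply, Matrix.sub_apply, Matrix.add_apply, Matrix.map_apply,
        Matrix.mul_apply, smul_eq_mul]
      simp only [mul_comm]
    have hCk : (0 : ℚ) ≤ (C0 : ℚ) ^ k := by positivity
    have hk : (0 : ℚ) < (k : ℚ) + 1 := by positivity
    rw [e, coeff_C_mul, abs_mul, abs_of_pos (by positivity : (0 : ℚ) < 1 / ((k : ℚ) + 1)), one_div,
      inv_mul_le_iff₀ hk, coeff_sub, coeff_add, finsetSum_coeff]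
    have h1 : |(Tq n * derivative (Bt n k i j)).coeff l| ≤
        (((n + 1 : ℕ) : ℚ) + 1) * 1 * ((((n + 1) * k : ℕ) : ℚ) * (C0 : ℚ) ^ k) :=
      abs_coeff_mul_le _ _ (Tq_natDegree n) 1 _ zero_le_one (by positivity) (Tq_coeff n)
        (deriv_coeff _ (Bt_natDegree n k i j) _ hCk (ih i j)) l
    have h2 : |∑ a, (Aq n a j * Bt n k i a).coeff l| ≤
        n * ((((n + 1 : ℕ) : ℚ) + 1) * B0 * (C0 : ℚ) ^ k) := by
      refine (Finset.abs_sum_le_sum_abs _ _).trans ?_
      refine (Finset.sum_le_sum (fun a _ => abs_coeff_mul_le _ _ (Aq_natDegree n a j) B0 _ hB0 hCk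
        (hA a j) (ih i a) l)).trans (le_of_eq ?_)
      rw [Finset.sum_const, Finset.card_univ, Fintype.card_fin, nsmul_eq_mul]
    have h3 : |((C (k : ℚ) * derivative (Tq n)) * Bt n k i j).coeff l| ≤
        (((n + 1 : ℕ) : ℚ) + 1) * (k * ((n + 1 : ℕ) : ℚ)) * (C0 : ℚ) ^ k := by
      refine abs_coeff_mul_le _ _ ?_ _ _ (by positivity) hCk ?_ (ih i j) l
      · refine (natDegree_C_mul_le _ _).trans ?_
        exact ((natDegree_derivative_le _).trans (Nat.sub_le _ _)).trans (Tq_natDegree n)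
      · intro l
        rw [coeff_C_mul, abs_mul, abs_of_nonneg (by positivity : (0 : ℚ) ≤ (k : ℚ))]
        refine mul_le_mul_of_nonneg_left ?_ (by positivity)
        have := deriv_coeff _ (Tq_natDegree n) 1 zero_le_one (Tq_coeff n) l
        linarith
    refine (abs_sub _ _).trans ?_
    refine (add_le_add (abs_add_le _ _) le_rfl).trans ?_
    refine (add_le_add (add_le_add h1 h2) h3).trans ?_
    have h5 : (0 : ℚ) ≤ n := by positivity
    have h6 : (0 : ℚ) ≤ k := by positivity
    have h7 : ((n : ℚ) + 2) * (2 * (n + 1) * k + n * B0) ≤ (k + 1) * C0 := by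
      calc ((n : ℚ) + 2) * (2 * (n + 1) * k + n * B0)
          ≤ ((n : ℚ) + 2) * ((k + 1) * (2 * (n + 1) + n * B0)) := by
            apply mul_le_mul_of_nonneg_left _ (by positivity)
            have : 0 ≤ (n : ℚ) * B0 * k := by positivity
            nlinarith
        _ = (k + 1) * (((n : ℚ) + 2) * (2 * (n + 1) + n * B0)) := by ring
        _ ≤ (k + 1) * C0 := mul_le_mul_of_nonneg_left hC0 (by positivity)
    have h8 := mul_le_mul_of_nonneg_right h7 hCk
    refine le_trans (le_of_eq ?_) (h8.trans (le_of_eq ?_))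
    · push_cast
      ring
    · rw [pow_succ]
      ring

end Pool.Agent.CYD
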