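import Pool.Agent.CYD.Stmts
import Pool.Agent.DG2.CStmts

set_option autoImplicit false

/-!
# CYD: exact statements of the modules, part C (transfer to the periods)
-/

open scoped BigOperators Topology
open Metric Set

namespace Pool.Agent.CYD

open Pool.Agent.CYP
open Pool.Agent.DGP (GSys IsZ hd val Conv tens)
open Pool.Agent.HGP (Simil fvec mvec Aof opt)

noncomputable section

/-- The matrix `Z` with `Ps (x) = Z (x) Ps (0)` for the periods. -/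
def Zm {g : ℕ} (F F' : Matrix (Fin (2 * g)) (Ix g) (Polynomial ℤ)) (x : ℝ) :
    Matrix (Ix g) (Ix g) ℂ := (ev F (x : ℂ)).transpose * Yv (2 * g) x * ev F' 0

/-- `P` is a polynomial relation of degree at most `D` with rational coefficients at the point
`(2 π i, M_1, ..., M_r)`, which does not hold on the whole torsor with weights `w`. -/
def IsRelW {r : ℕ} {g : Fin r → ℕ} (w : Fin r → ℕ) (D : ℕ)
    (M : ∀ i, Matrix (Ix (g i)) (Ix (g i)) ℂ)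
    (P : MvPolynomial (Option (Σ i : Fin r, Ix (g i) × Ix (g i))) ℚ) : Prop :=
  P.totalDegree ≤ D ∧
  MvPolynomial.aeval (HGP.tpt (2 * Real.pi * Complex.I) M) P = (0 : ℂ) ∧
  ∃ (lam : ℂ) (M' : ∀ i, Matrix (Ix (g i)) (Ix (g i)) ℂ), lam ≠ 0 ∧
    (∀ i, Simil (lam ^ w i) (M' i)) ∧ MvPolynomial.aeval (HGP.tpt lam M') P ≠ (0 : ℂ)

/-- A normalisation at the Fermat point. -/
structure RefY (g : ℕ) (F F' : Matrix (Fin (2 * g)) (Ix g) (Polynomial ℤ))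
    (E E' : Matrix (Fin (2 * g)) (Ix g) ℚ) : Prop where
  isF : IsF g F F'
  isE : IsE g (Qm (2 * g) ℚ) E E'
  simil : Simil ((2 * Real.pi * Complex.I) ^ (2 * g - 1)) (Ps F E' 0 (Mx (2 * g) 0))
  det : (Ps F E' 0 (Mx (2 * g) 0)).toBlocks₁₁.det ≠ 0

/-- FUNC: functional relations hold for all matrices `Y`. -/
def Stmt_Func : Prop := ∀ (K : ℕ) (g : Fin K → ℕ) (d : Fin K → ℕ), (∀ k, 0 < g k) →
  (∀ k, 1 ≤ d k) → Function.Injective d →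
  ∀ (E : ℕ) (ρ : (Fin E → Option (Σ k, Fin (2 * g k) × Fin (2 * g k))) → Polynomial ℚ),
  ∑ w, (ρ w : PowerSeries ℚ) * tens (fullY (n := fun k => 2 * g k) d) E w = 0 →
  ∀ z : ℂ, (∀ k, ‖(d k : ℂ) * z‖ < 1) →
  ∀ Y : ∀ k, Matrix (Fin (2 * g k)) (Fin (2 * g k)) ℂ,
    (∀ k, (Y k).transpose * Rm (2 * g k) (d k * z) * Y k = Rm (2 * g k) 0) →
    ∑ w, Polynomial.aeval z (ρ w) * ∏ e, (w e).elim 1
      (fun v : Σ k, Fin (2 * g k) × Fin (2 * g k) => Y v.1 v.2.1 v.2.2) = 0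

/-- TRFQ: relations between the coordinates of `A Y B` are relations between the entries of the
matrices `Y`, with degrees which do not depend on the rational matrices `A`, `B`. -/
def Stmt_TrfQ : Prop := ∀ (K : ℕ) (g : Fin K → ℕ) (E : ℕ), ∃ E1 : ℕ,
  ∀ (A : ∀ k, Matrix (Ix (g k)) (Fin (2 * g k)) ℚ) (B : ∀ k, Matrix (Fin (2 * g k)) (Ix (g k)) ℚ)
    (Q : MvPolynomial (Σ k, Idx (g k)) ℚ), Q.totalDegree ≤ E →
  ∃ Q1 : MvPolynomial (Σ k, Fin (2 * g k) × Fin (2 * g k)) ℚ, Q1.totalDegree ≤ E1 ∧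
    ∀ Y : ∀ k, Matrix (Fin (2 * g k)) (Fin (2 * g k)) ℂ,
    (∀ k, ((A k).map (fun x : ℚ => (x : ℂ)) * Y k *
      (B k).map (fun x : ℚ => (x : ℂ))).toBlocks₁₁.det ≠ 0) →
    MvPolynomial.aeval (fun v : Σ k, Fin (2 * g k) × Fin (2 * g k) => Y v.1 v.2.1 v.2.2) Q1 =
      (∏ k, ((A k).map (fun x : ℚ => (x : ℂ)) * Y k *
        (B k).map (fun x : ℚ => (x : ℂ))).toBlocks₁₁.det) ^ E *
      MvPolynomial.aeval (fun p : Σ k, Idx (g k) => fvec ((A p.1).map (fun x : ℚ => (x : ℂ)) *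
        Y p.1 * (B p.1).map (fun x : ℚ => (x : ℂ))) p.2) Q

/-- ZSY: the matrices `Z` near `0`. -/
def Stmt_ZsY : Prop := ∀ (g : ℕ) (F F' : Matrix (Fin (2 * g)) (Ix g) (Polynomial ℤ)), 0 < g →
  IsF g F F' →
  (∀ x : ℝ, |x| < 1 → Simil 1 (Zm F F' x) ∧ ∀ E' : Matrix (Fin (2 * g)) (Ix g) ℚ,
    Ps F E' (x : ℂ) (Mx (2 * g) (x : ℂ)) = Zm F F' x * Ps F E' 0 (Mx (2 * g) 0)) ∧
  ∃ ρ : ℝ, 0 < ρ ∧ ρ ≤ 1 ∧ ∀ x : ℝ, |x| < ρ → (Zm F F' x).toBlocks₁₁.det ≠ 0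

/-- REFY: existence of normalisations. -/
def Stmt_RefY : Prop := ∀ g : ℕ, 0 < g →
  ∃ (F F' : Matrix (Fin (2 * g)) (Ix g) (Polynomial ℤ)) (E E' : Matrix (Fin (2 * g)) (Ix g) ℚ),
    RefY g F F' E E'

/-- INDY: the coordinates of the matrices `Z` satisfy no relation of bounded degree. -/
def Stmt_IndY : Prop := ∀ (K : ℕ) (g : Fin K → ℕ)
  (F F' : ∀ k, Matrix (Fin (2 * g k)) (Ix (g k)) (Polynomial ℤ)), (∀ k, 0 < g k) →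
  (∀ k, IsF (g k) (F k) (F' k)) →
  ∀ E : ℕ, ∃ δ : ℝ, 0 < δ ∧ ∃ n₀ : ℕ, ∀ n : ℕ, n₀ ≤ n → ∀ ρ : Fin K → ℚ, Function.Injective ρ →
  (∀ k, 0 < ρ k ∧ DG2.Ht n δ (ρ k)) →
  ∀ Q : MvPolynomial (Σ k, Idx (g k)) ℚ, Q ≠ 0 → Q.totalDegree ≤ E →
    MvPolynomial.aeval (fun p : Σ k, Idx (g k) =>
      fvec (Zm (F p.1) (F' p.1) ((ρ p.1 : ℝ) / n)) p.2) Q ≠ (0 : ℂ)

/-- EXCW: a relation between the periods gives a relation between the constants and the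
coordinates of the matrices `Z`, with weights. -/
def Stmt_ExcW : Prop := ∀ (nF : ℕ) (G W : Fin nF → ℕ) (r : ℕ) (φ : Fin r → Fin nF) (D : ℕ),
  ∃ D' : ℕ, ∀ M0 : ∀ a, Matrix (Ix (G a)) (Ix (G a)) ℂ,
  (∀ a, Simil ((2 * Real.pi * Complex.I) ^ W a) (M0 a)) → (∀ a, (M0 a).toBlocks₁₁.det ≠ 0) →
  ∀ Z : ∀ i, Matrix (Ix (G (φ i))) (Ix (G (φ i))) ℂ,
  (∀ i, Simil 1 (Z i)) → (∀ i, (Z i).toBlocks₁₁.det ≠ 0) →
  ∀ P : MvPolynomial (Option (Σ i : Fin r, Ix (G (φ i)) × Ix (G (φ i)))) ℚ,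
  IsRelW (g := fun i => G (φ i)) (fun i => W (φ i)) D (fun i => Z i * M0 (φ i)) P →
  ∃ S : MvPolynomial (Option (Σ a, Idx (G a)) ⊕ (Σ i, Idx (G (φ i)))) ℚ,
    S.totalDegree ≤ D' ∧
    MvPolynomial.aeval (Sum.elim (opt (2 * Real.pi * Complex.I)
      (fun p : Σ a, Idx (G a) => fvec (M0 p.1) p.2))
      (fun p : Σ i, Idx (G (φ i)) => fvec (Z p.1) p.2)) S = (0 : ℂ) ∧
    ∃ y : (Σ i, Idx (G (φ i))) → ℂ, MvPolynomial.aeval (Sum.elim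
      (opt (2 * Real.pi * Complex.I) (fun p : Σ a, Idx (G a) => fvec (M0 p.1) p.2)) y) S ≠ 0

/-- MAINY: the main theorem for rational coefficients. -/
def Stmt_MainY : Prop := ∀ (nF : ℕ) (G : Fin nF → ℕ), (∀ a, 0 < G a) →
  ∀ (F F' : ∀ a, Matrix (Fin (2 * G a)) (Ix (G a)) (Polynomial ℤ))
    (E E' : ∀ a, Matrix (Fin (2 * G a)) (Ix (G a)) ℚ), (∀ a, RefY (G a) (F a) (F' a) (E a) (E' a)) →
  ∀ (r : ℕ) (φ : Fin r → Fin nF) (D : ℕ),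
  ∃ δ : ℝ, 0 < δ ∧ ∃ n₀ : ℕ, ∀ n : ℕ, n₀ ≤ n → ∃ S : Finset ℚ,
    S.card ≤ r * (1 + ∑ a, G a * (2 * G a + 1)) ∧
    ∀ ρ : Fin r → ℚ, Function.Injective ρ → (∀ i, 0 < ρ i ∧ ρ i ∉ S ∧ DG2.Ht n δ (ρ i)) →
    (∀ i, ‖((ρ i / n : ℚ) : ℂ)‖ < 1) ∧
    ∀ P, ¬ IsRelW (g := fun i => G (φ i)) (fun i => 2 * G (φ i) - 1) D (fun i =>
      Ps (F (φ i)) (E' (φ i)) ((ρ i / n : ℚ) : ℂ) (Mx (2 * G (φ i)) ((ρ i / n : ℚ) : ℂ))) P

/-- NFW: from relations with coefficients in a number field to relations with rational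
coefficients. -/
def Stmt_NFW : Prop := ∀ (r : ℕ) (g w : Fin r → ℕ) (M : ∀ i, Matrix (Ix (g i)) (Ix (g i)) ℂ)
  (L : IntermediateField ℚ ℂ), FiniteDimensional ℚ L →
  ∀ P : MvPolynomial (Option (Σ i : Fin r, Ix (g i) × Ix (g i))) L,
  MvPolynomial.aeval (HGP.tpt (2 * Real.pi * Complex.I) M) P = (0 : ℂ) →
  (∃ (lam : ℂ) (M' : ∀ i, Matrix (Ix (g i)) (Ix (g i)) ℂ), lam ≠ 0 ∧
    (∀ i, Simil (lam ^ w i) (M' i)) ∧ MvPolynomial.aeval (HGP.tpt lam M') P ≠ (0 : ℂ)) →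
  ∃ P' : MvPolynomial (Option (Σ i : Fin r, Ix (g i) × Ix (g i))) ℚ,
    IsRelW w (Module.finrank ℚ L * P.totalDegree) M P'

/-- FINY: the final statement. -/
def Stmt_FinY : Prop := ∀ (nF : ℕ) (G : Fin nF → ℕ), (∀ a, 0 < G a) →
  ∀ (r : ℕ) (φ : Fin r → Fin nF) (D : ℕ), ∃ δ : ℝ, 0 < δ ∧ ∃ n₀ : ℕ, ∀ n : ℕ, n₀ ≤ n →
  ∃ S : Finset ℚ, S.card ≤ r * (1 + ∑ a, G a * (2 * G a + 1)) ∧
    ∀ ρ : Fin r → ℚ, Function.Injective ρ →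
    (∀ i, 0 < ρ i ∧ ρ i ∉ S ∧ ((ρ i).num : ℝ) ≤ (n : ℝ) ^ δ ∧
      ((ρ i).den : ℝ) ≤ (n : ℝ) ^ δ) →
    (∀ i, ‖((ρ i / n : ℚ) : ℂ)‖ < 1) ∧
    ∀ (L : IntermediateField ℚ ℂ), FiniteDimensional ℚ L → Module.finrank ℚ L ≤ D →
    ∀ P : MvPolynomial (Option (Σ i : Fin r, Fin (2 * G (φ i)) × Fin (2 * G (φ i)))) L,
      P.totalDegree ≤ D →
      MvPolynomial.aeval (tpt (n := fun i => 2 * G (φ i)) (2 * Real.pi * Complex.I)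
        (fun i => Per (2 * G (φ i)) ((ρ i / n : ℚ) : ℂ))) P = (0 : ℂ) →
      ∀ (lam : ℂ) (X : ∀ i, Matrix (Fin (2 * G (φ i))) (Fin (2 * G (φ i))) ℂ), lam ≠ 0 →
        (∀ i, Tors (2 * G (φ i)) ((ρ i / n : ℚ) : ℂ) lam (X i)) →
        MvPolynomial.aeval (tpt (n := fun i => 2 * G (φ i)) lam X) P = (0 : ℂ)

end

end Pool.Agent.CYD
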