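import Pool.Agent.CYD.Stmts

/-!
# CYD, module DEN: denominators of the Taylor coefficients
-/

set_option autoImplicit false

open Finset

namespace Pool.Agent.CYD

open Pool.Agent.CYP
open Pool.Agent.DGP (GSys IsZ hd val Conv tens)

namespace DEN_

theorem pow_dvd_prod {p N : ℕ} (hp : p.Prime) (hN : ¬ p ∣ N) (a k s : ℕ)
    (h : p ^ s ∣ k.factorial) : p ^ s ∣ ∏ i ∈ range k, (N * i + a) := by
  have hc : Nat.Coprime N (p ^ s) :=
    Nat.Coprime.pow_right s ((Nat.Prime.coprime_iff_not_dvd hp).2 hN).symm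
  obtain ⟨b, hb⟩ : ∃ b : ℕ, ((N * b : ℕ) : ZMod (p ^ s)) = a := by
    have : NeZero (p ^ s) := ⟨pow_ne_zero _ hp.ne_zero⟩
    refine ⟨((((ZMod.unitOfCoprime N hc)⁻¹ : (ZMod (p ^ s))ˣ) : ZMod (p ^ s)) * a).val, ?_⟩
    rw [Nat.cast_mul, ZMod.natCast_zmod_val, ← mul_assoc]
    have h1 : (N : ZMod (p ^ s)) = (ZMod.unitOfCoprime N hc : (ZMod (p ^ s))ˣ) :=
      (ZMod.coe_unitOfCoprime N hc).symm
    rw [h1, Units.mul_inv, one_mul]
  have h1 : p ^ s ∣ ∏ i ∈ range k, (b + i) := by
    rw [← Nat.ascFactorial_eq_prod_range]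
    exact h.trans (Nat.factorial_dvd_ascFactorial b k)
  rw [← ZMod.natCast_eq_zero_iff] at h1 ⊢
  have h3 : ((∏ i ∈ range k, (N * i + a) : ℕ) : ZMod (p ^ s)) =
      (N : ZMod (p ^ s)) ^ k * ((∏ i ∈ range k, (b + i) : ℕ) : ZMod (p ^ s)) := by
    rw [Nat.cast_prod, Nat.cast_prod]
    have h4 : (N : ZMod (p ^ s)) ^ k = ∏ i ∈ range k, (N : ZMod (p ^ s)) := by simp
    rw [h4, ← Finset.prod_mul_distrib]
    apply Finset.prod_congr rfl
    intro i _
    rw [Nat.cast_add, ← hb]
    push_cast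
    ring
  rw [h3, h1, mul_zero]

theorem div_le {N l k q : ℕ} (hl : l < N) (hq : 0 < q) : (l + N * k) / q ≤ N * (k / q) + N := by
  have h1 : (l + N * k) / q < N * (k / q) + N := by
    rw [Nat.div_lt_iff_lt_mul hq]
    have h2 := Nat.div_add_mod k q
    have h3 := Nat.mod_lt k hq
    generalize k / q = u at h2
    generalize k % q = r at h2 h3
    rw [← h2]
    have h4 : N * (r + 1) ≤ N * q := Nat.mul_le_mul_left N h3
    calc l + N * (q * u + r) = N * u * q + (l + N * r) := by ring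
      _ < N * u * q + N * q := by
        have : N * (r + 1) = N * r + N := by ring
        omega
      _ = (N * u + N) * q := by ring
  exact h1.le

theorem fact_le {p N l k : ℕ} (hp : p.Prime) (hl : l < N) :
    (l + N * k).factorial.factorization p ≤
      N * k.factorial.factorization p + N * Nat.log p (l + N * k) := by
  have hk : k ≤ l + N * k := by
    have : 1 * k ≤ N * k := Nat.mul_le_mul_right k (by omega)
    omega
  rw [Nat.factorization_factorial hp (Nat.lt_succ_self (Nat.log p (l + N * k))),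
    Nat.factorization_factorial hp (Nat.lt_succ_of_le (Nat.log_mono_right hk))]
  calc ∑ i ∈ Ico 1 (Nat.log p (l + N * k)).succ, (l + N * k) / p ^ i
      ≤ ∑ i ∈ Ico 1 (Nat.log p (l + N * k)).succ, (N * (k / p ^ i) + N) :=
        Finset.sum_le_sum fun i _ => div_le hl (pow_pos hp.pos i)
    _ = _ := by
      rw [Finset.sum_add_distrib, ← Finset.mul_sum, Finset.sum_const, Nat.card_Ico, smul_eq_mul]
      have : (Nat.log p (l + N * k)).succ - 1 = Nat.log p (l + N * k) := rfl
      rw [this, mul_comm (Nat.log p (l + N * k)) N]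

theorem lcm_ne (j : ℕ) : (Icc 1 j).lcm id ≠ 0 := by
  have h : (Finset.Icc 1 j).lcm id = Nat.lcmUpto j := rfl
  rw [h]
  exact (Nat.lcmUpto_pos j).ne'

theorem prod_ne (N l k : ℕ) : ∏ i ∈ range k, (N * i + l + 1) ≠ 0 :=
  Finset.prod_ne_zero_iff.2 fun _ _ => Nat.succ_ne_zero _

theorem main (N l k : ℕ) (hl : l < N) : (l + N * k).factorial ∣
    N ^ (l + N * k) * ((Icc 1 (l + N * k)).lcm id) ^ N *
      (∏ i ∈ range k, (N * i + l + 1)) ^ N := by
  have hN : N ≠ 0 := by omega
  rcases Nat.eq_zero_or_pos (l + N * k) with h0 | hj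
  · rw [h0]
    simp
  have e1 : N ^ (l + N * k) ≠ 0 := pow_ne_zero _ hN
  have e2 : ((Icc 1 (l + N * k)).lcm id) ^ N ≠ 0 := pow_ne_zero _ (lcm_ne _)
  have e3 : (∏ i ∈ range k, (N * i + l + 1)) ^ N ≠ 0 := pow_ne_zero _ (prod_ne N l k)
  rw [← Nat.factorization_prime_le_iff_dvd (Nat.factorial_ne_zero _)
    (mul_ne_zero (mul_ne_zero e1 e2) e3)]
  intro p hp
  rw [Nat.factorization_mul (mul_ne_zero e1 e2) e3, Nat.factorization_mul e1 e2,
    Nat.factorization_pow, Nat.factorization_pow, Nat.factorization_pow]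
  simp only [Finsupp.add_apply, Finsupp.smul_apply, smul_eq_mul]
  by_cases hpN : p ∣ N
  · have h1 : 1 ≤ N.factorization p := (hp.dvd_iff_one_le_factorization hN).1 hpN
    have h2 : (l + N * k).factorial.factorization p ≤ l + N * k :=
      (Nat.factorization_factorial_le_div_pred hp _).trans (Nat.div_le_self _ _)
    have h3 : (l + N * k) * 1 ≤ (l + N * k) * N.factorization p := Nat.mul_le_mul_left _ h1
    omega
  · have h1 := fact_le (k := k) hp hl
    have h2 : Nat.log p (l + N * k) ≤ ((Icc 1 (l + N * k)).lcm id).factorization p := by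
      rw [← hp.pow_dvd_iff_le_factorization (lcm_ne _)]
      exact Finset.dvd_lcm (f := id) (Finset.mem_Icc.2
        ⟨Nat.one_le_pow _ _ hp.pos, Nat.pow_log_le_self p hj.ne'⟩)
    have h3 : k.factorial.factorization p ≤
        (∏ i ∈ range k, (N * i + l + 1)).factorization p := by
      rw [← hp.pow_dvd_iff_le_factorization (prod_ne N l k)]
      have := pow_dvd_prod hp hpN (l + 1) k _ (Nat.ordProj_dvd k.factorial p)
      simpa only [add_assoc] using this
    have h4 := Nat.mul_le_mul_left N h2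
    have h5 := Nat.mul_le_mul_left N h3
    omega

end DEN_

theorem den_proof : Stmt_Den := by
  intro n l j hl
  unfold yc
  split_ifs with h
  · obtain ⟨h1, k, hk⟩ := h
    have hj : j = l + (n + 1) * k := by omega
    have hk' : (j - l) / (n + 1) = k := by rw [hk, Nat.mul_div_cancel_left _ (Nat.succ_pos n)]
    rw [hk', hj]
    obtain ⟨w, hw⟩ := DEN_.main (n + 1) l k (by omega)
    refine ⟨(w : ℤ), ?_⟩
    have h3 : (((l + (n + 1) * k).factorial : ℕ) : ℚ) ≠ 0 := by
      exact_mod_cast Nat.factorial_ne_zero _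
    rw [mul_div_assoc', div_eq_iff h3]
    unfold Dj
    have h4 : (((n + 1) ^ (l + (n + 1) * k) * ((Icc 1 (l + (n + 1) * k)).lcm id) ^ (n + 1) *
      (∏ i ∈ range k, ((n + 1) * i + l + 1)) ^ (n + 1) : ℕ) : ℚ) =
      (((l + (n + 1) * k).factorial * w : ℕ) : ℚ) := by rw [hw]
    rw [Nat.cast_mul, Nat.cast_pow (∏ i ∈ range k, ((n + 1) * i + l + 1))] at h4
    rw [h4, Nat.cast_mul, Int.cast_natCast, mul_comm]
  · rw [mul_zero]
    exact ⟨0, by simp⟩

end Pool.Agent.CYD
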