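import Pool.Agent.CYD.Stmts

set_option autoImplicit false

/-!
# CYD, module DLC: properties of the common denominators
-/

open scoped BigOperators Topology

namespace Pool.Agent.CYD

noncomputable section

theorem dlc_proof (hLcm : DGP.Stmt_Lcm) : Stmt_Dlc := by
  intro n
  obtain ⟨C, hC⟩ := hLcm
  refine ⟨?_, ?_, (n + 1) * C ^ (n + 1), ?_⟩
  · intro i j hij
    unfold Dj
    refine mul_dvd_mul (pow_dvd_pow _ hij) (pow_dvd_pow_of_dvd ?_ _)
    exact Finset.lcm_mono (Finset.Icc_subset_Icc_right hij)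
  · intro j
    unfold Dj
    have h1 : 0 < (n + 1) ^ j := by positivity
    have h2 : (Finset.Icc 1 j).lcm id ≠ 0 := by
      rw [Ne, Finset.lcm_eq_zero_iff]
      rintro ⟨x, hx, hx0⟩
      have := (Finset.mem_Icc.1 (Finset.mem_coe.1 hx)).1
      simp only [id] at hx0
      omega
    have h3 : 0 < ((Finset.Icc 1 j).lcm id) ^ (n + 1) := by positivity
    exact Nat.mul_pos h1 h3
  · intro j
    unfold Dj
    rw [mul_pow, ← pow_mul, mul_comm (n + 1) j, pow_mul]
    exact Nat.mul_le_mul_left _ (Nat.pow_le_pow_left (hC j) _)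

end

end Pool.Agent.CYD
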