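import Pool.Agent.CYP.Stmts
import Pool.Agent.DG2.AStmts

set_option autoImplicit false

/-!
# CYD: the degree `≤ D` part of the Grothendieck period conjecture for the Dwork families near the
Fermat point `ψ = 0`: definitions

`n` is even, `N = n + 1`. Text: /team-store/MP_77d3f5_CYD.md
-/

open scoped BigOperators Topology
open Metric Set

namespace Pool.Agent.CYD

open Pool.Agent.CYP
open Pool.Agent.DGP (GSys IsZ hd val Conv tens)

noncomputable section

/-! ## Part A: arithmetic -/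

/-- The Taylor coefficients of the solution `Y_l` of the Picard-Fuchs equation with
`Y_l ^ (m) (0) = δ_lm`. -/
def yc (n l j : ℕ) : ℚ := if l ≤ j ∧ (n + 1) ∣ (j - l) then
  ((∏ i ∈ Finset.range ((j - l) / (n + 1)), ((n + 1) * i + l + 1) : ℕ) : ℚ) ^ (n + 1) /
    (j.factorial : ℚ) else 0

/-- The entries `Y_l ^ (k)` of the fundamental matrix with `Y (0) = 1`, `p = (k, l)`. -/
def Ys (n : ℕ) (p : Fin n × Fin n) : PowerSeries ℚ :=
  PowerSeries.mk fun j => ((j + (p.1 : ℕ)).descFactorial (p.1 : ℕ) : ℚ) *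
    yc n (p.2 : ℕ) (j + (p.1 : ℕ))

/-- `T = 1 - X ^ N`. -/
def Tq (n : ℕ) : Polynomial ℚ := 1 - Polynomial.X ^ (n + 1)

/-- `T Y' = Aq Y`. -/
def Aq (n : ℕ) : Matrix (Fin n) (Fin n) (Polynomial ℚ) := Matrix.of fun k m =>
  if (k : ℕ) + 1 = m then Tq n else if (k : ℕ) + 1 = n then
    Polynomial.C (Nat.stirlingSecond (n + 1) ((m : ℕ) + 1) : ℚ) *
      Polynomial.X ^ ((m : ℕ) + 1) else 0

/-- `T ^ k Y ^ (k) / k! = Bt k Y`. -/
def Bt (n : ℕ) : ℕ → Matrix (Fin n) (Fin n) (Polynomial ℚ)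
  | 0 => 1
  | (k + 1) => Polynomial.C (1 / ((k : ℚ) + 1)) • (Tq n • (Bt n k).map Polynomial.derivative +
      Bt n k * Aq n - (Polynomial.C (k : ℚ) * Polynomial.derivative (Tq n)) • Bt n k)

/-- The denominator of the rescaled system. -/
def Td (n d : ℕ) : Polynomial ℚ := 1 - Polynomial.C ((d : ℚ) ^ (n + 1)) * Polynomial.X ^ (n + 1)

/-- The entries of the matrix `R`, as polynomials. -/
def Rq (n a b : ℕ) : Polynomial ℚ := (if a + b + 1 = n then Polynomial.C ((-1) ^ b) else 0) -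
  Polynomial.X ^ (a + b + 2) * Polynomial.C (∑ i ∈ Finset.range n, (-1) ^ (n - 1 - i) *
    ((Nat.stirlingSecond (i + 1) (a + 1) : ℚ) * (Nat.stirlingSecond (n - i) (b + 1) : ℚ)))

/-- Common denominators of the Taylor coefficients up to `j`. -/
def Dj (n j : ℕ) : ℕ := (n + 1) ^ j * ((Finset.Icc 1 j).lcm id) ^ (n + 1)

/-- The full system: `1` and the rescaled matrices. -/
def fullY {K : ℕ} {n : Fin K → ℕ} (d : Fin K → ℕ)
    (o : Option (Σ k, Fin (n k) × Fin (n k))) : PowerSeries ℚ :=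
  o.elim 1 (fun p => PowerSeries.rescale (d p.1 : ℚ) (Ys (n p.1) p.2))

/-- The value of `Y` at a real number, as a complex matrix. -/
def Yv (n : ℕ) (x : ℝ) : Matrix (Fin n) (Fin n) ℂ :=
  Matrix.of fun i j => ((val (Ys n (i, j)) x : ℝ) : ℂ)

/-! ## Part B: independence, with parameters -/

/-- A family of holomorphic functions on a disc. -/
def HolF {σ : Type} (ρ : ℝ) (f : σ → ℂ → ℂ) : Prop := ∀ i, DifferentiableOn ℂ (f i) (ball 0 ρ)

/-- `P (f ψ, Mx ψ * h) = 0` on the part of the cut plane inside the disc. -/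
def RelP {σ : Type} (n : ℕ) (ρ : ℝ) (f : σ → ℂ → ℂ) (P : MvPolynomial (σ ⊕ (Fin n × Fin n)) ℂ)
    (h : Matrix (Fin n) (Fin n) ℂ) : Prop := ∀ ψ ∈ Om n ∩ ball 0 ρ,
  MvPolynomial.eval (Sum.elim (fun i => f i ψ) (fun p => (Mx n ψ * h) p.1 p.2)) P = 0

end

end Pool.Agent.CYD
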