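import Pool.Agent.CYD.CStmts
import Pool.Agent.DG2.EXCC

set_option autoImplicit false

/-!
# CYD, module EXCW: a relation between the periods gives a relation between the constants and the
coordinates of the matrices `Z`, with weights
-/

open scoped BigOperators Topology
open MvPolynomial

namespace Pool.Agent.CYD

open Pool.Agent.HGP (Ix Simil Idx fvec mvec Aof opt)

noncomputable section

namespace EXCW_

open Pool.Agent.DG2.NFC_ (toQ aeval_toQ VV WW emb aeval_emb eval_path)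
open Pool.Agent.DG2.EXCC_ (inv_simil simil_mul tr hpi0 spec translate subX ev_subX)

/-- Replace the variable `lam` by its power. -/
def wt (n : ℕ) {S : Type} : Option S → MvPolynomial (Option S) ℤ :=
  fun o => o.elim (X none ^ n) (fun x => X (some x))

lemma ev_wt (n : ℕ) {S : Type} (lam : ℂ) (y : S → ℂ) (f : MvPolynomial (Option S) ℤ) :
    (aeval (opt lam y) (bind₁ (wt n) f) : ℂ) = aeval (opt (lam ^ n) y) f := by
  rw [aeval_bind₁]
  congr 2
  funext o
  cases o with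
  | none => simp [wt, opt]
  | some x => simp [wt, opt]

/-- A polynomial which does not vanish on the torsor does not vanish on the big cell. -/
lemma big_cellW {R : Type} [CommRing R] [Algebra R ℂ] {r : ℕ} {g : Fin r → ℕ} (W : Fin r → ℕ)
    (P : MvPolynomial (VV g) R)
    (lam : ℂ) (M : ∀ i, Matrix (Ix (g i)) (Ix (g i)) ℂ) (hlam : lam ≠ 0)
    (hM : ∀ i, Simil (lam ^ W i) (M i)) (hne : aeval (HGP.tpt lam M) P ≠ (0 : ℂ)) :
    ∃ M' : ∀ i, Matrix (Ix (g i)) (Ix (g i)) ℂ, (∀ i, Simil (lam ^ W i) (M' i)) ∧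
      (∀ i, (M' i).toBlocks₁₁.det ≠ 0) ∧ aeval (HGP.tpt lam M') P ≠ (0 : ℂ) := by
  have hPath : HGP.Stmt_Path := HGP.path_proof HGP.genb_proof
  choose p hp0 hps hp1 using fun i => hPath (g i) (M i) (lam ^ W i) (pow_ne_zero _ hlam) (hM i)
  let M' : ℂ → ∀ i, Matrix (Ix (g i)) (Ix (g i)) ℂ :=
    fun s i => Matrix.of fun x y => (p i x y).eval s
  let f : VV g → Polynomial ℂ := fun v => v.elim (Polynomial.C lam) (fun u => p u.1 u.2.1 u.2.2)
  have hf : ∀ s : ℂ, (fun v => (f v).eval s) = HGP.tpt lam (M' s) := by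
    intro s
    funext v
    match v with
    | none => exact Polynomial.eval_C
    | some ⟨i, x, y⟩ => rfl
  have hF : ∀ s : ℂ, (aeval f P).eval s = (aeval (HGP.tpt lam (M' s)) P : ℂ) := by
    intro s
    rw [eval_path, hf]
  have hM0 : M' 0 = M := by
    funext i
    ext x y
    exact hp0 i x y
  have hF0 : (aeval f P : Polynomial ℂ) ≠ 0 := by
    intro h0
    apply hne
    rw [← hM0, ← hF 0, h0, Polynomial.eval_zero]
  let G : Fin r → Polynomial ℂ := fun i =>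
    (Matrix.of fun x y => p i (Sum.inl x) (Sum.inl y) :
      Matrix (Fin (g i)) (Fin (g i)) (Polynomial ℂ)).det
  have hG : ∀ i s, (G i).eval s = (M' s i).toBlocks₁₁.det := by
    intro i s
    have h := RingHom.map_det (Polynomial.evalRingHom s)
      (Matrix.of fun x y => p i (Sum.inl x) (Sum.inl y) :
        Matrix (Fin (g i)) (Fin (g i)) (Polynomial ℂ))
    rw [Polynomial.coe_evalRingHom] at h
    show Polynomial.eval s _ = _
    rw [h]
    congr 1
  have hG0 : ∀ i, G i ≠ 0 := by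
    intro i h0
    apply hp1 i
    have h := hG i 1
    rw [h0, Polynomial.eval_zero] at h
    exact h.symm
  have hprod : aeval f P * ∏ i, G i ≠ 0 :=
    mul_ne_zero hF0 (Finset.prod_ne_zero_iff.2 fun i _ => hG0 i)
  obtain ⟨s, hs⟩ : ∃ s : ℂ, (aeval f P * ∏ i, G i).eval s ≠ 0 := by
    by_contra hcon
    push Not at hcon
    exact hprod (Polynomial.funext fun s => by rw [hcon s, Polynomial.eval_zero])
  rw [Polynomial.eval_mul, Polynomial.eval_prod] at hs
  refine ⟨M' s, fun i => hps i s, fun i => ?_, ?_⟩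
  · rw [← hG i s]
    exact Finset.prod_ne_zero_iff.1 (right_ne_zero_of_mul hs) i (Finset.mem_univ i)
  · rw [← hF s]
    exact left_ne_zero_of_mul hs

/-- The common denominator. -/
def Dt {r : ℕ} {g : Fin r → ℕ} (Δ : ∀ i, MvPolynomial (Option (Idx (g i))) ℤ) :
    MvPolynomial (WW g) ℚ := ∏ i, rename (emb g i) (toQ (Δ i))

/-- The numerators. -/
def qt {r : ℕ} {g : Fin r → ℕ} (W : Fin r → ℕ) (Δ : ∀ i, MvPolynomial (Option (Idx (g i))) ℤ)
    (q : ∀ i, Ix (g i) × Ix (g i) → MvPolynomial (Option (Idx (g i))) ℤ) :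
    VV g → MvPolynomial (WW g) ℚ := fun v => v.elim (X none * Dt Δ) (fun p =>
      (∏ k ∈ Finset.univ.erase p.1, rename (emb g k) (toQ (Δ k))) *
        rename (emb g p.1) (toQ (bind₁ (wt (W p.1)) (q p.1 p.2))))

lemma keyT {r : ℕ} {g : Fin r → ℕ} (W : Fin r → ℕ)
    (Δ : ∀ i, MvPolynomial (Option (Idx (g i))) ℤ)
    (q : ∀ i, Ix (g i) × Ix (g i) → MvPolynomial (Option (Idx (g i))) ℤ)
    (h : ∀ i, ∀ (w : Idx (g i) → ℂ) (lam : ℂ),
      MvPolynomial.aeval (opt lam w) (Δ i) = (Aof w).det ∧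
      ((Aof w).det ≠ 0 → ∀ p, MvPolynomial.aeval (opt lam w) (q i p) =
        (Aof w).det * mvec w lam p.1 p.2))
    (w : WW g → ℂ) (hw : ∀ i, (Aof (fun x => w (some ⟨i, x⟩))).det ≠ 0) :
    aeval w (Dt Δ) = ∏ i, (Aof (fun x => w (some ⟨i, x⟩))).det ∧
    aeval w (Dt Δ) ≠ (0 : ℂ) ∧
    (fun v => (aeval w (qt W Δ q v) : ℂ) / aeval w (Dt Δ)) =
      HGP.tpt (w none) (fun i => mvec (fun x => w (some ⟨i, x⟩)) (w none ^ W i)) := by
  have h1 : aeval w (Dt Δ) = ∏ i, (Aof (fun x => w (some ⟨i, x⟩))).det := by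
    unfold Dt
    rw [map_prod]
    refine Finset.prod_congr rfl fun i _ => ?_
    rw [aeval_emb, (h i _ _).1]
  have h2 : aeval w (Dt Δ) ≠ (0 : ℂ) := by
    rw [h1]
    exact Finset.prod_ne_zero_iff.2 fun i _ => hw i
  refine ⟨h1, h2, ?_⟩
  funext v
  rw [div_eq_iff h2]
  match v with
  | none =>
    show aeval w (X none * Dt Δ) = w none * aeval w (Dt Δ)
    rw [map_mul, aeval_X]
  | some ⟨i, p⟩ =>
    show aeval w ((∏ k ∈ Finset.univ.erase i, rename (emb g k) (toQ (Δ k))) *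
      rename (emb g i) (toQ (bind₁ (wt (W i)) (q i p)))) =
        mvec (fun x => w (some ⟨i, x⟩)) (w none ^ W i) p.1 p.2 * aeval w (Dt Δ)
    rw [map_mul, map_prod, aeval_emb, ev_wt, (h i _ _).2 (hw i) p, h1,
      ← Finset.mul_prod_erase Finset.univ (fun i => (Aof (fun x => w (some ⟨i, x⟩))).det)
        (Finset.mem_univ i)]
    have h3 : ∏ k ∈ Finset.univ.erase i, (aeval w (rename (emb g k) (toQ (Δ k))) : ℂ) =
        ∏ k ∈ Finset.univ.erase i, (Aof (fun x => w (some ⟨k, x⟩))).det := by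
      refine Finset.prod_congr rfl fun k _ => ?_
      rw [aeval_emb, (h k _ _).1]
    rw [h3]
    ring

section setup

variable {nF : ℕ} {G : Fin nF → ℕ} (W : Fin nF → ℕ) {r : ℕ} (φ : Fin r → Fin nF)

/-- The variables. -/
abbrev UU (G : Fin nF → ℕ) (φ : Fin r → Fin nF) :=
  Option (Σ a, Idx (G a)) ⊕ (Σ i, Idx (G (φ i)))

/-- The coordinates of the constants. -/
def subU (a : Fin nF) : Option (Idx (G a)) → MvPolynomial (UU G φ) ℚ :=
  fun o => o.elim (X (Sum.inl none) ^ W a) (fun x => X (Sum.inl (some ⟨a, x⟩)))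

lemma ev_subU (a : Fin nF) (c : Option (Σ a, Idx (G a)) → ℂ) (y : (Σ i, Idx (G (φ i))) → ℂ)
    (f : MvPolynomial (Option (Idx (G a))) ℤ) :
    (aeval (Sum.elim c y) (bind₁ (subU W φ a) (toQ f)) : ℂ) =
      aeval (opt (c none ^ W a) (fun x => c (some ⟨a, x⟩))) f := by
  rw [aeval_bind₁, ← aeval_toQ]
  congr 2
  funext o
  cases o with
  | none => simp [subU, opt]
  | some x => simp [subU, opt]

variable (Δ : ∀ g, MvPolynomial (Option (Idx g)) ℤ)
    (q : ∀ g, Ix g × Ix g → MvPolynomial (Option (Idx g)) ℤ)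

/-- The common denominator. -/
def Dl : MvPolynomial (UU G φ) ℚ := (∏ i, bind₁ (subX φ i) (toQ (Δ (G (φ i))))) *
  ∏ a, bind₁ (subU W φ a) (toQ (Δ (G a)))

/-- The numerators. -/
def nm : VV (fun i => G (φ i)) → MvPolynomial (UU G φ) ℚ := fun v =>
  v.elim (X (Sum.inl none) * Dl W φ Δ) (fun p =>
    (∏ j ∈ Finset.univ.erase p.1, bind₁ (subX φ j) (toQ (Δ (G (φ j))))) *
    (∏ a ∈ Finset.univ.erase (φ p.1), bind₁ (subU W φ a) (toQ (Δ (G a)))) *
    ∑ m, bind₁ (subX φ p.1) (toQ (q (G (φ p.1)) (p.2.1, m))) *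
      bind₁ (subU W φ (φ p.1)) (toQ (q (G (φ p.1)) (m, p.2.2))))

lemma key (h : ∀ g, ∀ (w : Idx g → ℂ) (lam : ℂ),
      MvPolynomial.aeval (opt lam w) (Δ g) = (Aof w).det ∧
      ((Aof w).det ≠ 0 → ∀ p, MvPolynomial.aeval (opt lam w) (q g p) =
        (Aof w).det * mvec w lam p.1 p.2))
    (c : Option (Σ a, Idx (G a)) → ℂ) (y : (Σ i, Idx (G (φ i))) → ℂ)
    (hc : ∀ a, (Aof (fun x => c (some ⟨a, x⟩))).det ≠ 0)
    (hy : ∀ i, (Aof (fun x => y ⟨i, x⟩)).det ≠ 0) :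
    (aeval (Sum.elim c y) (Dl W φ Δ) : ℂ) ≠ 0 ∧
    (fun v => (aeval (Sum.elim c y) (nm W φ Δ q v) : ℂ) / aeval (Sum.elim c y) (Dl W φ Δ)) =
      HGP.tpt (c none) (fun i => mvec (fun x => y ⟨i, x⟩) 1 *
        mvec (fun x => c (some ⟨φ i, x⟩)) (c none ^ W (φ i))) := by
  have h1 : (aeval (Sum.elim c y) (Dl W φ Δ) : ℂ) = (∏ i, (Aof (fun x => y ⟨i, x⟩)).det) *
      ∏ a, (Aof (fun x => c (some ⟨a, x⟩))).det := by
    unfold Dl
    rw [map_mul, map_prod, map_prod]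
    congr 1
    · refine Finset.prod_congr rfl fun i _ => ?_
      rw [ev_subX, (h _ _ _).1]
    · refine Finset.prod_congr rfl fun a _ => ?_
      rw [ev_subU, (h _ _ _).1]
  have h2 : (aeval (Sum.elim c y) (Dl W φ Δ) : ℂ) ≠ 0 := by
    rw [h1]
    exact mul_ne_zero (Finset.prod_ne_zero_iff.2 fun i _ => hy i)
      (Finset.prod_ne_zero_iff.2 fun a _ => hc a)
  refine ⟨h2, ?_⟩
  funext v
  rw [div_eq_iff h2]
  match v with
  | none =>
    show aeval (Sum.elim c y) (X (Sum.inl none) * Dl W φ Δ) = c none * _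
    rw [map_mul, aeval_X]
    rfl
  | some ⟨i, p⟩ =>
    show aeval (Sum.elim c y) ((∏ j ∈ Finset.univ.erase i, bind₁ (subX φ j) (toQ (Δ (G (φ j))))) *
      (∏ a ∈ Finset.univ.erase (φ i), bind₁ (subU W φ a) (toQ (Δ (G a)))) *
      ∑ m, bind₁ (subX φ i) (toQ (q (G (φ i)) (p.1, m))) *
        bind₁ (subU W φ (φ i)) (toQ (q (G (φ i)) (m, p.2)))) =
      (mvec (fun x => y ⟨i, x⟩) 1 * mvec (fun x => c (some ⟨φ i, x⟩)) (c none ^ W (φ i))) p.1 p.2 *
        aeval (Sum.elim c y) (Dl W φ Δ)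
    rw [map_mul, map_mul, map_prod, map_prod, map_sum, h1,
      ← Finset.mul_prod_erase Finset.univ (fun i => (Aof (fun x => y ⟨i, x⟩)).det)
        (Finset.mem_univ i),
      ← Finset.mul_prod_erase Finset.univ (fun a => (Aof (fun x => c (some ⟨a, x⟩))).det)
        (Finset.mem_univ (φ i))]
    have e1 : ∏ j ∈ Finset.univ.erase i, (aeval (Sum.elim c y)
        (bind₁ (subX φ j) (toQ (Δ (G (φ j))))) : ℂ) =
        ∏ j ∈ Finset.univ.erase i, (Aof (fun x => y ⟨j, x⟩)).det := by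
      refine Finset.prod_congr rfl fun k _ => ?_
      rw [ev_subX, (h _ _ _).1]
    have e2 : ∏ a ∈ Finset.univ.erase (φ i), (aeval (Sum.elim c y)
        (bind₁ (subU W φ a) (toQ (Δ (G a)))) : ℂ) =
        ∏ a ∈ Finset.univ.erase (φ i), (Aof (fun x => c (some ⟨a, x⟩))).det := by
      refine Finset.prod_congr rfl fun k _ => ?_
      rw [ev_subU, (h _ _ _).1]
    have e3 : ∑ m, (aeval (Sum.elim c y) (bind₁ (subX φ i) (toQ (q (G (φ i)) (p.1, m))) *
        bind₁ (subU W φ (φ i)) (toQ (q (G (φ i)) (m, p.2)))) : ℂ) =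
        (Aof (fun x => y ⟨i, x⟩)).det * (Aof (fun x => c (some ⟨φ i, x⟩))).det *
        (mvec (fun x => y ⟨i, x⟩) 1 * mvec (fun x => c (some ⟨φ i, x⟩)) (c none ^ W (φ i))) p.1 p.2 := by
      rw [Matrix.mul_apply, Finset.mul_sum]
      refine Finset.sum_congr rfl fun m _ => ?_
      rw [map_mul, ev_subX, ev_subU, (h _ _ _).2 (hy i), (h _ _ _).2 (hc (φ i))]
      ring
    rw [e1, e2, e3]
    ring

end setup

end EXCW_

open EXCW_ in
open Pool.Agent.DG2.NFC_ (toQ aeval_toQ VV WW) in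
open Pool.Agent.DG2.EXCC_ (inv_simil simil_mul tr hpi0 spec translate) in
theorem excw_proof (hH : DG2.Stmt_HomQ) : Stmt_ExcW := by
  intro nF G W r φ D
  choose Δ q h using fun g => HGP.cellp_proof g
  obtain ⟨D', hD'⟩ := hH (VV (fun i => G (φ i))) (UU G φ) (nm W φ Δ q) (Dl W φ Δ) D
  refine ⟨D', ?_⟩
  intro M0 hM0 hM0d Z hZ hZd P hP
  obtain ⟨hPD, hP0, lam', M', hlam', hM', hne'⟩ := hP
  obtain ⟨S, hSD, hS⟩ := hD' P hPD
  refine ⟨S, hSD, ?_, ?_⟩
  · -- vanishing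
    have e1 : ∀ a, Aof (fvec (M0 a)) = (M0 a).toBlocks₁₁ ∧
        mvec (fvec (M0 a)) ((2 * Real.pi * Complex.I) ^ W a) = M0 a := fun a =>
      HGP.cella_proof _ _ _ (pow_ne_zero _ hpi0) (hM0 a) (hM0d a)
    have e2 : ∀ i, Aof (fvec (Z i)) = (Z i).toBlocks₁₁ ∧ mvec (fvec (Z i)) 1 = Z i := fun i =>
      HGP.cella_proof _ _ _ one_ne_zero (hZ i) (hZd i)
    obtain ⟨k1, k2⟩ := key W φ Δ q h (opt (2 * Real.pi * Complex.I)
      (fun p : Σ a, Idx (G a) => fvec (M0 p.1) p.2))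
      (fun p : Σ i, Idx (G (φ i)) => fvec (Z p.1) p.2)
      (fun a => by
        show (Aof (fvec (M0 a))).det ≠ 0
        rw [(e1 a).1]
        exact hM0d a)
      (fun i => by
        show (Aof (fvec (Z i))).det ≠ 0
        rw [(e2 i).1]
        exact hZd i)
    rw [hS _ k1, k2]
    have e3 : (fun i => mvec (fun x => fvec (Z i) x) 1 *
        mvec (fun x => opt (2 * Real.pi * Complex.I)
          (fun p : Σ a, Idx (G a) => fvec (M0 p.1) p.2) (some ⟨φ i, x⟩))
        (opt (2 * Real.pi * Complex.I)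
          (fun p : Σ a, Idx (G a) => fvec (M0 p.1) p.2) none ^ W (φ i))) =
        fun i => Z i * M0 (φ i) := by
      funext i
      show mvec (fvec (Z i)) 1 * mvec (fvec (M0 (φ i))) ((2 * Real.pi * Complex.I) ^ W (φ i)) = _
      rw [(e2 i).2, (e1 (φ i)).2]
    show _ * (aeval (HGP.tpt (2 * Real.pi * Complex.I) _) P : ℂ) = 0
    rw [e3, hP0, mul_zero]
  · -- a point of the fibre over `2 π i` where `P` does not vanish
    obtain ⟨M1, hM1, hdet1, hne1⟩ := big_cellW (fun i => W (φ i)) P lam' M' hlam' hM' hne'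
    obtain ⟨D1, hD1⟩ := hH (VV (fun i => G (φ i))) (WW (fun i => G (φ i)))
      (qt (fun i => W (φ i)) (fun i => Δ (G (φ i))) (fun i => q (G (φ i))))
      (Dt (fun i => Δ (G (φ i)))) D
    obtain ⟨P1, -, hP1⟩ := hD1 P hPD
    have hT : ∀ w : WW (fun i => G (φ i)) → ℂ,
        (∀ i, (Aof (fun x => w (some ⟨i, x⟩))).det ≠ 0) →
        (aeval w (Dt (fun i => Δ (G (φ i)))) : ℂ) ≠ 0 ∧
        (aeval w P1 : ℂ) = (aeval w (Dt (fun i => Δ (G (φ i))))) ^ D *
          aeval (HGP.tpt (w none) (fun i =>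
            mvec (fun x => w (some ⟨i, x⟩)) (w none ^ W (φ i)))) P := by
      intro w hw
      obtain ⟨-, t3, t2⟩ := keyT (fun i => W (φ i)) (fun i => Δ (G (φ i)))
        (fun i => q (G (φ i))) (fun i => h (G (φ i))) w hw
      refine ⟨t3, ?_⟩
      rw [hP1 w t3, t2]
    have hQ : P1 * Dt (fun i => Δ (G (φ i))) ≠ 0 := by
      have e2 : ∀ i, Aof (fvec (M1 i)) = (M1 i).toBlocks₁₁ ∧
          mvec (fvec (M1 i)) (lam' ^ W (φ i)) = M1 i :=
        fun i => HGP.cella_proof _ _ _ (pow_ne_zero _ hlam') (hM1 i) (hdet1 i)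
      obtain ⟨t1, t2⟩ := hT (opt lam' (fun p : Σ i, Idx (G (φ i)) => fvec (M1 p.1) p.2))
        (fun i => by
          show (Aof (fvec (M1 i))).det ≠ 0
          rw [(e2 i).1]
          exact hdet1 i)
      intro h0
      have t3 := congrArg (aeval (opt lam' (fun p : Σ i, Idx (G (φ i)) => fvec (M1 p.1) p.2)) :
        MvPolynomial _ ℚ →ₐ[ℚ] ℂ) h0
      rw [map_mul, map_zero, t2] at t3
      have t4 : (aeval (HGP.tpt lam' (fun i => mvec (fvec (M1 i)) (lam' ^ W (φ i)))) P : ℂ) ≠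
          0 := by
        have e3 : (fun i => mvec (fvec (M1 i)) (lam' ^ W (φ i))) = M1 :=
          funext fun i => (e2 i).2
        rw [e3]
        exact hne1
      exact mul_ne_zero (mul_ne_zero (pow_ne_zero _ t1) t4) t1 t3
    obtain ⟨w, hw⟩ := spec (2 * Real.pi * Complex.I) tr _ hQ
    rw [map_mul] at hw
    have hw1 := left_ne_zero_of_mul hw
    have hw2 := right_ne_zero_of_mul hw
    have hw3 : ∀ i, (Aof (fun x => w ⟨i, x⟩)).det ≠ 0 := by
      have t1 : (aeval (opt (2 * Real.pi * Complex.I) w)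
          (Dt (fun i => Δ (G (φ i)))) : ℂ) =
          ∏ i, (Aof (fun x => w ⟨i, x⟩)).det := by
        unfold Dt
        rw [map_prod]
        refine Finset.prod_congr rfl fun i _ => ?_
        rw [DG2.NFC_.aeval_emb, (h _ _ _).1]
        rfl
      rw [t1] at hw2
      exact fun i => Finset.prod_ne_zero_iff.1 hw2 i (Finset.mem_univ i)
    have hw4 := (hT (opt (2 * Real.pi * Complex.I) w) hw3).2
    rw [hw4] at hw1
    have hw5 : (aeval (HGP.tpt (g := fun i => G (φ i)) (2 * Real.pi * Complex.I)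
      (fun i => mvec (fun x => w ⟨i, x⟩) ((2 * Real.pi * Complex.I) ^ W (φ i)))) P : ℂ) ≠ 0 :=
      right_ne_zero_of_mul hw1
    choose Z' hZ' hZM using fun i => inv_simil (pow_ne_zero (W (φ i)) hpi0) (M0 (φ i))
      (mvec (fun x => w ⟨i, x⟩) ((2 * Real.pi * Complex.I) ^ W (φ i))) (hM0 (φ i))
      (HGP.cellb_proof (G (φ i)) _ _ (hw3 i)).1
    -- the translated polynomial
    obtain ⟨P2, hP2⟩ := translate P (2 * Real.pi * Complex.I) (fun i => M0 (φ i))
    have hne2 : (aeval (HGP.tpt (g := fun i => G (φ i)) 1 Z') P2 : ℂ) ≠ 0 := by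
      rw [hP2]
      have e3 : (fun i => Z' i * M0 (φ i)) =
        (fun i => mvec (fun x => w ⟨i, x⟩) ((2 * Real.pi * Complex.I) ^ W (φ i))) :=
        funext fun i => (hZM i).symm
      rw [e3]
      exact hw5
    obtain ⟨Z2, hZ2, hZ2d, hne3⟩ := DG2.NFC_.big_cell P2 1 Z' one_ne_zero hZ' hne2
    rw [hP2] at hne3
    have e1 : ∀ a, Aof (fvec (M0 a)) = (M0 a).toBlocks₁₁ ∧
        mvec (fvec (M0 a)) ((2 * Real.pi * Complex.I) ^ W a) = M0 a := fun a =>
      HGP.cella_proof _ _ _ (pow_ne_zero _ hpi0) (hM0 a) (hM0d a)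
    have e2 : ∀ i, Aof (fvec (Z2 i)) = (Z2 i).toBlocks₁₁ ∧ mvec (fvec (Z2 i)) 1 = Z2 i :=
      fun i => HGP.cella_proof _ _ _ one_ne_zero (hZ2 i) (hZ2d i)
    obtain ⟨k1, k2⟩ := key W φ Δ q h (opt (2 * Real.pi * Complex.I)
      (fun p : Σ a, Idx (G a) => fvec (M0 p.1) p.2))
      (fun p : Σ i, Idx (G (φ i)) => fvec (Z2 p.1) p.2)
      (fun a => by
        show (Aof (fvec (M0 a))).det ≠ 0
        rw [(e1 a).1]
        exact hM0d a)
      (fun i => by
        show (Aof (fvec (Z2 i))).det ≠ 0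
        rw [(e2 i).1]
        exact hZ2d i)
    refine ⟨fun p : Σ i, Idx (G (φ i)) => fvec (Z2 p.1) p.2, ?_⟩
    rw [hS _ k1, k2]
    have e3 : (fun i => mvec (fun x => fvec (Z2 i) x) 1 *
        mvec (fun x => opt (2 * Real.pi * Complex.I)
          (fun p : Σ a, Idx (G a) => fvec (M0 p.1) p.2) (some ⟨φ i, x⟩))
        (opt (2 * Real.pi * Complex.I)
          (fun p : Σ a, Idx (G a) => fvec (M0 p.1) p.2) none ^ W (φ i))) =
        fun i => Z2 i * M0 (φ i) := by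
      funext i
      show mvec (fvec (Z2 i)) 1 * mvec (fvec (M0 (φ i))) ((2 * Real.pi * Complex.I) ^ W (φ i)) = _
      rw [(e2 i).2, (e1 (φ i)).2]
    refine mul_ne_zero (pow_ne_zero _ k1) ?_
    show (aeval (HGP.tpt (2 * Real.pi * Complex.I) _) P : ℂ) ≠ 0
    rw [e3]
    exact hne3

end

end Pool.Agent.CYD
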