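import Pool.Agent.CYD.Stmts

/-!
# CYD: module FIBP
-/

open scoped BigOperators Topology
open Metric Set MeasureTheory
open Pool.Agent.CYP

namespace Pool.Agent.CYD

noncomputable section

namespace FIBP_

theorem diff_eval {α β : Type} {S : Set ℂ} (f : α → ℂ → ℂ) (hf : ∀ i, DifferentiableOn ℂ (f i) S)
    (g : β → ℂ → ℂ) (hg : ∀ i, DifferentiableOn ℂ (g i) S)
    (P : MvPolynomial (α ⊕ β) ℂ) :
    DifferentiableOn ℂ
      (fun t => MvPolynomial.eval (Sum.elim (fun i => f i t) (fun p => g p t)) P) S := by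
  induction P using MvPolynomial.induction_on with
  | C c => simp
  | add p q hp hq =>
    simp only [map_add]
    exact hp.add hq
  | mul_X p i hp =>
    simp only [map_mul, MvPolynomial.eval_X]
    refine hp.mul ?_
    cases i with
    | inl i => exact hf i
    | inr i => exact hg i

/-- The right multiplication by `h`. -/
def sub {σ : Type} {n : ℕ} (h : Matrix (Fin n) (Fin n) ℂ) (o : σ ⊕ (Fin n × Fin n)) :
    MvPolynomial (σ ⊕ (Fin n × Fin n)) ℂ :=
  Sum.elim (fun i => MvPolynomial.X (Sum.inl i))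
    (fun p => ∑ k : Fin n, MvPolynomial.X (Sum.inr (p.1, k)) * MvPolynomial.C (h k p.2)) o

theorem eval_sub {σ : Type} {n : ℕ} (h M : Matrix (Fin n) (Fin n) ℂ) (t : σ → ℂ)
    (P : MvPolynomial (σ ⊕ (Fin n × Fin n)) ℂ) :
    MvPolynomial.eval (Sum.elim t (fun p => M p.1 p.2)) (MvPolynomial.bind₁ (sub h) P) =
      MvPolynomial.eval (Sum.elim t (fun p => (M * h) p.1 p.2)) P := by
  have h1 := MvPolynomial.aeval_bind₁
    (Sum.elim t (fun p : Fin n × Fin n => M p.1 p.2)) (sub h) P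
  simp only [MvPolynomial.aeval_eq_eval] at h1
  rw [h1]
  congr 2
  funext o
  cases o with
  | inl i => simp [sub]
  | inr p => simp [sub, Matrix.mul_apply]

/-- two points of the torsor differ by an element of the group -/
theorem inv_tors {n : ℕ} {c : ℂ} (hc : c ≠ 0) {R Q : Matrix (Fin n) (Fin n) ℂ} (hQ : Q.det ≠ 0)
    (A M : Matrix (Fin n) (Fin n) ℂ) (hA : A.transpose * R * A = c • Q)
    (hM : M.transpose * R * M = c • Q) : ∃ h, h.transpose * Q * h = Q ∧ M = A * h := by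
  have hdet : IsUnit A.det := by
    rw [isUnit_iff_ne_zero]
    intro h0
    have h1 := congrArg Matrix.det hA
    rw [Matrix.det_mul, Matrix.det_mul, Matrix.det_smul, h0, mul_zero] at h1
    have h2 : c ^ Fintype.card (Fin n) ≠ 0 := pow_ne_zero _ hc
    exact (mul_ne_zero h2 hQ) h1.symm
  have hAi : A * A⁻¹ = 1 := Matrix.mul_nonsing_inv A hdet
  have hAi' : (A⁻¹).transpose * A.transpose = 1 := by
    rw [← Matrix.transpose_mul, hAi, Matrix.transpose_one]
  have h3 : c • ((A⁻¹).transpose * Q * A⁻¹) = R := by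
    calc c • ((A⁻¹).transpose * Q * A⁻¹)
        = (A⁻¹).transpose * (c • Q) * A⁻¹ := by
          rw [Matrix.mul_smul, Matrix.smul_mul]
      _ = (A⁻¹).transpose * (A.transpose * R * A) * A⁻¹ := by rw [hA]
      _ = ((A⁻¹).transpose * A.transpose) * R * (A * A⁻¹) := by
          simp only [Matrix.mul_assoc]
      _ = R := by rw [hAi, hAi', Matrix.one_mul, Matrix.mul_one]
  refine ⟨A⁻¹ * M, ?_, ?_⟩
  · have h4 : c • ((A⁻¹ * M).transpose * Q * (A⁻¹ * M)) = c • Q := by
      rw [Matrix.transpose_mul]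
      calc c • (M.transpose * (A⁻¹).transpose * Q * (A⁻¹ * M))
          = M.transpose * (c • ((A⁻¹).transpose * Q * A⁻¹)) * M := by
            rw [Matrix.mul_smul, Matrix.smul_mul]
            simp only [Matrix.mul_assoc]
        _ = c • Q := by rw [h3, hM]
    have h5 := congrArg (fun X => c⁻¹ • X) h4
    simp only [smul_smul, inv_mul_cancel₀ hc, one_smul] at h5
    exact h5
  · rw [← Matrix.mul_assoc, hAi, Matrix.one_mul]

/-- the entries of `Mx` are holomorphic on the cut plane -/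
theorem mx_diff (hYx : Stmt_Yx) (hGeo : Stmt_Geo) (n : ℕ) (i j : Fin n) :
    DifferentiableOn ℂ (fun ψ => Mx n ψ i j) (Om n) := by
  have h1 : AnalyticOnNhd ℂ (Yx n (j : ℕ)) (Om n) :=
    (hYx n (j : ℕ)).1.analyticOnNhd (hGeo n).1
  have h2 : AnalyticOnNhd ℂ (iteratedDeriv (i : ℕ) (Yx n (j : ℕ))) (Om n) := by
    rw [iteratedDeriv_eq_iterate]
    exact h1.iterated_deriv _
  exact h2.differentiableOn

/-- relations are invariant under the group -/
theorem rel_closure (hTrv : Stmt_TrvP) {n : ℕ} (hn : 0 < n) (he : Even n)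
    {σ : Type} [Fintype σ] {ρ : ℝ} (f : σ → ℂ → ℂ) (hρ : 1 < ρ) (hf : HolF ρ f)
    (h : Matrix (Fin n) (Fin n) ℂ)
    (hh : h ∈ Submonoid.closure {M | ∃ (k : Fin n) (c : ℂ), M = 1 + c • rs n k}) :
    ∀ P : MvPolynomial (σ ⊕ (Fin n × Fin n)) ℂ, RelP n ρ f P 1 → RelP n ρ f P h := by
  induction hh using Submonoid.closure_induction with
  | mem x hx =>
    obtain ⟨k, c, rfl⟩ := hx
    intro P hP
    exact hTrv n hn he σ ρ f P hρ hf hP k c
  | one => exact fun P hP => hP
  | mul x y _ _ hx hy =>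
    intro P hP
    have h1 : RelP n ρ f (MvPolynomial.bind₁ (sub y) P) 1 := by
      intro ψ hψ
      rw [eval_sub, Matrix.mul_one]
      exact hy P hP ψ hψ
    have h2 := hx _ h1
    intro ψ hψ
    have h3 := h2 ψ hψ
    rw [eval_sub, Matrix.mul_assoc] at h3
    exact h3

end FIBP_

open FIBP_ in
/-- FIBP -/
theorem fibp_proof (hTrvP : Stmt_TrvP) (hGrpQ : Stmt_GrpQ) (hBilO : Stmt_BilO) (hYx : Stmt_Yx)
    (hGeo : Stmt_Geo) (hQdet : Stmt_Qdet) : Stmt_FibP := by
  intro g hg σ _ ρ f P hρ hf R hR hP ψ hψ X hX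
  have hn : 0 < 2 * g := by omega
  have he : Even (2 * g) := even_two_mul g
  obtain ⟨hopen, hstar, hball, _, _⟩ := hGeo (2 * g)
  have h0 : (0 : ℂ) ∈ Om (2 * g) := hball (mem_ball_self one_pos)
  have hρ0 : 0 < ρ := by linarith
  have h0' : (0 : ℂ) ∈ Om (2 * g) ∩ ball 0 ρ := ⟨h0, mem_ball_self hρ0⟩
  -- the relation holds on the cut plane
  have hrel : RelP (2 * g) ρ f P 1 := by
    have hd : DifferentiableOn ℂ (fun t => MvPolynomial.eval
        (Sum.elim (fun i => f i t)
          (fun p : Fin (2 * g) × Fin (2 * g) => Mx (2 * g) t p.1 p.2)) P)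
        (Om (2 * g) ∩ ball 0 ρ) :=
      diff_eval f (fun i => (hf i).mono inter_subset_right)
        (fun (p : Fin (2 * g) × Fin (2 * g)) t => Mx (2 * g) t p.1 p.2)
        (fun p => (mx_diff hYx hGeo (2 * g) p.1 p.2).mono inter_subset_left) P
    have hopen' : IsOpen (Om (2 * g) ∩ ball (0 : ℂ) ρ) := hopen.inter isOpen_ball
    have han := hd.analyticOnNhd hopen'
    have hev : (fun t => MvPolynomial.eval
        (Sum.elim (fun i => f i t)
          (fun p : Fin (2 * g) × Fin (2 * g) => Mx (2 * g) t p.1 p.2)) P)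
        =ᶠ[𝓝 0] 0 := by
      filter_upwards [ball_mem_nhds (0 : ℂ) hR] with t ht
      exact hP t ht
    have hstar' : StarConvex ℝ 0 (Om (2 * g) ∩ ball (0 : ℂ) ρ) :=
      hstar.inter ((convex_ball (0 : ℂ) ρ).starConvex (mem_ball_self hρ0))
    have hpre : IsPreconnected (Om (2 * g) ∩ ball (0 : ℂ) ρ) :=
      (StarConvex.isPathConnected hstar' h0').isConnected.isPreconnected
    have := han.eqOn_zero_of_preconnected_of_eventuallyEq_zero hpre h0' hev
    intro t ht
    rw [Matrix.mul_one]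
    exact this ht
  have hlam : (2 * Real.pi * Complex.I : ℂ) ^ (2 * g - 1) ≠ 0 :=
    pow_ne_zero _ (by simp [Real.pi_ne_zero])
  obtain ⟨h, hh, rfl⟩ := inv_tors hlam (hQdet (2 * g) he) (Mx (2 * g) ψ) X
    (hBilO (2 * g) hn he ψ (hball hψ)) hX
  exact rel_closure hTrvP hn he f hρ hf h (hGrpQ g hg h hh) P hrel ψ
    ⟨hball hψ, ball_subset_ball hρ.le hψ⟩

end

end Pool.Agent.CYD
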