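import Pool.Agent.CYD.CStmts

set_option autoImplicit false

/-!
# CYD, module FINY: the final statement
-/

open scoped BigOperators Topology
open Metric Set

namespace Pool.Agent.CYD

open Pool.Agent.CYP
open Pool.Agent.DGP (GSys IsZ hd val Conv tens)
open Pool.Agent.HGP (Simil fvec mvec Aof opt)

noncomputable section

namespace FINY_

/-- The degree after a substitution by polynomials of degree at most one. -/
theorem totalDegree_bind_le {σ τ : Type} {R : Type} [CommRing R] (f : σ → MvPolynomial τ R)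
    (hf : ∀ s, (f s).totalDegree ≤ 1) (P : MvPolynomial σ R) :
    (MvPolynomial.bind₁ f P).totalDegree ≤ P.totalDegree := by
  classical
  have h1 : MvPolynomial.bind₁ f P
      = ∑ s ∈ P.support, MvPolynomial.C (P.coeff s) * ∏ i ∈ s.support, f i ^ s i := by
    rw [← MvPolynomial.aeval_eq_bind₁, MvPolynomial.aeval_def, MvPolynomial.eval₂_eq]
    rfl
  rw [h1]
  apply MvPolynomial.totalDegree_finsetSum_le
  intro s hs
  refine le_trans (MvPolynomial.totalDegree_mul _ _) ?_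
  rw [MvPolynomial.totalDegree_C, zero_add]
  refine le_trans (MvPolynomial.totalDegree_finsetProd _ _) ?_
  have h2 : ∑ i ∈ s.support, s i ≤ P.totalDegree := MvPolynomial.le_totalDegree hs
  refine le_trans (Finset.sum_le_sum (fun i _ => ?_)) h2
  refine le_trans (MvPolynomial.totalDegree_pow _ _) ?_
  calc s i * (f i).totalDegree ≤ s i * 1 := Nat.mul_le_mul_left _ (hf i)
    _ = s i := mul_one _

/-- The substitution `X i = A i * Y i * (B i)ᵀ`. -/
def sub {r : ℕ} {n g : Fin r → ℕ} (L : IntermediateField ℚ ℂ)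
    (A B : ∀ i, Matrix (Fin (n i)) (Ix (g i)) ℚ) :
    Option (Σ i : Fin r, Fin (n i) × Fin (n i)) →
      MvPolynomial (Option (Σ i : Fin r, Ix (g i) × Ix (g i))) L
  | none => MvPolynomial.X none
  | some p => ∑ a, ∑ b, MvPolynomial.X (some ⟨p.1, (a, b)⟩) *
      MvPolynomial.C (algebraMap ℚ L (A p.1 p.2.1 a * B p.1 p.2.2 b))

theorem sub_deg {r : ℕ} {n g : Fin r → ℕ} (L : IntermediateField ℚ ℂ)
    (A B : ∀ i, Matrix (Fin (n i)) (Ix (g i)) ℚ) (o : Option (Σ i : Fin r, Fin (n i) × Fin (n i))) :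
    (sub L A B o).totalDegree ≤ 1 := by
  cases o with
  | none => exact le_of_eq (MvPolynomial.totalDegree_X _)
  | some p =>
    apply MvPolynomial.totalDegree_finsetSum_le
    intro a _
    apply MvPolynomial.totalDegree_finsetSum_le
    intro b _
    refine le_trans (MvPolynomial.totalDegree_mul _ _) ?_
    rw [MvPolynomial.totalDegree_C, add_zero, MvPolynomial.totalDegree_X]

theorem sub_none {r : ℕ} {n g : Fin r → ℕ} (L : IntermediateField ℚ ℂ)
    (A B : ∀ i, Matrix (Fin (n i)) (Ix (g i)) ℚ) : sub L A B none = MvPolynomial.X none := rfl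

theorem sub_some {r : ℕ} {n g : Fin r → ℕ} (L : IntermediateField ℚ ℂ)
    (A B : ∀ i, Matrix (Fin (n i)) (Ix (g i)) ℚ) (p : Σ i : Fin r, Fin (n i) × Fin (n i)) :
    sub L A B (some p) = ∑ a, ∑ b, MvPolynomial.X (some ⟨p.1, (a, b)⟩) *
      MvPolynomial.C (algebraMap ℚ L (A p.1 p.2.1 a * B p.1 p.2.2 b)) := rfl

theorem aeval_term (L : IntermediateField ℚ ℂ) {τ : Type} (w : τ → ℂ) (t : τ) (q : ℚ) :
    MvPolynomial.aeval w (MvPolynomial.X t * MvPolynomial.C (algebraMap ℚ L q)) =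
      w t * (q : ℂ) := by
  have h5 : algebraMap L ℂ (algebraMap ℚ L q) = (q : ℂ) := by
    rw [← IsScalarTower.algebraMap_apply ℚ L ℂ q]
    exact eq_ratCast (algebraMap ℚ ℂ) q
  rw [map_mul, MvPolynomial.aeval_X, MvPolynomial.aeval_C, h5]

theorem aeval_sub {r : ℕ} {n g : Fin r → ℕ} (L : IntermediateField ℚ ℂ)
    (A B : ∀ i, Matrix (Fin (n i)) (Ix (g i)) ℚ) (lam : ℂ)
    (Y : ∀ i, Matrix (Ix (g i)) (Ix (g i)) ℂ)
    (P : MvPolynomial (Option (Σ i : Fin r, Fin (n i) × Fin (n i))) L) :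
    MvPolynomial.aeval (HGP.tpt lam Y) (MvPolynomial.bind₁ (sub L A B) P) =
      MvPolynomial.aeval (tpt (n := n) lam
        (fun i => (A i).map (fun x : ℚ => (x : ℂ)) * Y i *
          ((B i).map (fun x : ℚ => (x : ℂ))).transpose)) P := by
  rw [MvPolynomial.aeval_bind₁]
  have h : ∀ o, MvPolynomial.aeval (HGP.tpt lam Y) (sub L A B o) =
      tpt (n := n) lam (fun i => (A i).map (fun x : ℚ => (x : ℂ)) * Y i *
          ((B i).map (fun x : ℚ => (x : ℂ))).transpose) o := by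
    intro o
    cases o with
    | none =>
      rw [sub_none, MvPolynomial.aeval_X]
      rfl
    | some p =>
      rw [sub_some, map_sum]
      have h6 : tpt (n := n) lam (fun i => (A i).map (fun x : ℚ => (x : ℂ)) * Y i *
          ((B i).map (fun x : ℚ => (x : ℂ))).transpose) (some p) =
        ∑ b, (∑ a, (A p.1 p.2.1 a : ℂ) * Y p.1 a b) * (B p.1 p.2.2 b : ℂ) := rfl
      rw [h6]
      simp only [map_sum, Finset.sum_mul]
      rw [Finset.sum_comm]
      refine Finset.sum_congr rfl fun b _ => Finset.sum_congr rfl fun a _ => ?_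
      rw [aeval_term]
      have h7 : HGP.tpt lam Y (some ⟨p.1, (a, b)⟩) = Y p.1 a b := rfl
      rw [h7]
      push_cast
      ring
  rw [funext h]

/-- A polynomial with integral coefficients at a rational number. -/
theorem ev_rat {g : ℕ} (F : Matrix (Fin (2 * g)) (Ix g) (Polynomial ℤ)) (q : ℚ) :
    ev F (q : ℂ) = (F.map fun p => Polynomial.aeval q p).map (fun x : ℚ => (x : ℂ)) := by
  ext i j
  unfold ev
  rw [Matrix.map_apply, Matrix.map_apply, Matrix.map_apply]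
  have h := Polynomial.aeval_algebraMap_apply ℂ q (F i j)
  have e : algebraMap ℚ ℂ q = (q : ℂ) := eq_ratCast (algebraMap ℚ ℂ) q
  have e2 : algebraMap ℚ ℂ (Polynomial.aeval q (F i j)) =
      ((Polynomial.aeval q (F i j) : ℚ) : ℂ) := eq_ratCast (algebraMap ℚ ℂ) _
  rw [e, e2] at h
  exact h

theorem cx_mul {g : ℕ} {Q : Matrix (Fin (2 * g)) (Fin (2 * g)) ℚ}
    {E E' : Matrix (Fin (2 * g)) (Ix g) ℚ} (h : IsE g Q E E') :
    cx E' * (cx E).transpose = 1 := by
  have h1 := h.inv1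
  have h2 : E' * E.transpose = 1 := by
    have h3 := congrArg Matrix.transpose h1
    rw [Matrix.transpose_mul, Matrix.transpose_transpose, Matrix.transpose_one] at h3
    exact h3
  have h4 : cx E' * (cx E).transpose = (E' * E.transpose).map (Rat.castHom ℂ) := by
    rw [Matrix.map_mul]
    rfl
  rw [h4, h2]
  exact Matrix.map_one _ (map_zero _) (map_one _)

/-- `Pi'` is a left inverse of `Ps`. -/
theorem Pi_Ps {g : ℕ} {F F' : Matrix (Fin (2 * g)) (Ix g) (Polynomial ℤ)}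
    {Q : Matrix (Fin (2 * g)) (Fin (2 * g)) ℚ} {E E' : Matrix (Fin (2 * g)) (Ix g) ℚ}
    (hF : IsF g F F') (hE : IsE g Q E E') {ψ : ℂ} (hψ : 1 - ψ ^ (2 * g + 1) ≠ 0)
    (X : Matrix (Fin (2 * g)) (Fin (2 * g)) ℂ) : Pi' F' E ψ (Ps F E' ψ X) = X := by
  have h1 : ev F' ψ * (ev F ψ).transpose =
      ((1 - ψ ^ (2 * g + 1)) ^ g) • (1 : Matrix (Fin (2 * g)) (Fin (2 * g)) ℂ) := by
    have h3 := congrArg Matrix.transpose (hF.inv1 ψ)
    rw [Matrix.transpose_mul, Matrix.transpose_transpose, Matrix.transpose_smul,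
      Matrix.transpose_one] at h3
    exact h3
  have hc : (1 - ψ ^ (2 * g + 1)) ^ g ≠ 0 := pow_ne_zero _ hψ
  unfold Pi' Ps
  have h2 : ev F' ψ * ((ev F ψ).transpose * X * cx E') * (cx E).transpose =
      (ev F' ψ * (ev F ψ).transpose) * X * (cx E' * (cx E).transpose) := by
    simp only [Matrix.mul_assoc]
  rw [h2, h1, cx_mul hE, Matrix.mul_one, Matrix.smul_mul, Matrix.one_mul, smul_smul,
    inv_mul_cancel₀ hc, one_smul]

/-- The rational matrix of the substitution. -/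
def Amat {g : ℕ} (F' : Matrix (Fin (2 * g)) (Ix g) (Polynomial ℤ)) (q : ℚ) :
    Matrix (Fin (2 * g)) (Ix g) ℚ :=
  ((1 - q ^ (2 * g + 1)) ^ g)⁻¹ • (F'.map fun p => Polynomial.aeval q p)

theorem Pi_rat {g : ℕ} (F' : Matrix (Fin (2 * g)) (Ix g) (Polynomial ℤ))
    (E : Matrix (Fin (2 * g)) (Ix g) ℚ) (q : ℚ) (Y : Matrix (Ix g) (Ix g) ℂ) :
    Pi' F' E (q : ℂ) Y = (Amat F' q).map (fun x : ℚ => (x : ℂ)) * Y *
      (E.map (fun x : ℚ => (x : ℂ))).transpose := by
  unfold Pi' Amat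
  rw [ev_rat]
  have h1 : ((((1 - q ^ (2 * g + 1)) ^ g)⁻¹ • (F'.map fun p => Polynomial.aeval q p)).map
      (fun x : ℚ => (x : ℂ))) = ((1 - (q : ℂ) ^ (2 * g + 1)) ^ g)⁻¹ •
      ((F'.map fun p => Polynomial.aeval q p).map (fun x : ℚ => (x : ℂ))) := by
    ext i j
    rw [Matrix.map_apply, Matrix.smul_apply, Matrix.smul_apply, Matrix.map_apply, Matrix.map_apply,
      Matrix.map_apply]
    simp only [smul_eq_mul]
    push_cast
    ring
  rw [h1, Matrix.smul_mul, Matrix.smul_mul]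
  rfl

end FINY_

open FINY_ in
/-- Module FINY. -/
theorem finy_proof (hMain : Stmt_MainY) (hNFW : Stmt_NFW) (hRefY : Stmt_RefY)
    (hLink : CYP.Stmt_Link) (hPsi : CYP.Stmt_Psi) : Stmt_FinY := by
  intro nF G hG r φ D
  choose F F' E E' hR using fun a => hRefY (G a) (hG a)
  obtain ⟨δ, hδ, n₀, hn₀⟩ := hMain nF G hG F F' E E' hR r φ (D * D)
  refine ⟨δ, hδ, n₀, fun n hn => ?_⟩
  obtain ⟨S, hS1, hS2⟩ := hn₀ n hn
  refine ⟨S, hS1, ?_⟩
  intro ρ hρ1 hρ2
  obtain ⟨hball, hrel⟩ := hS2 ρ hρ1 (fun i => ⟨(hρ2 i).1, (hρ2 i).2.1, (hρ2 i).2.2⟩)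
  refine ⟨hball, ?_⟩
  intro L hL hLD P hPD hP0 lam X hlam hX
  by_contra hne
  have hpos : ∀ i, 0 < 2 * G (φ i) := fun i => Nat.mul_pos (by norm_num) (hG _)
  have hψ : ∀ i, 1 - (((ρ i / n : ℚ)) : ℂ) ^ (2 * G (φ i) + 1) ≠ 0 := by
    intro i h
    have h1 : (((ρ i / n : ℚ)) : ℂ) ^ (2 * G (φ i) + 1) = 1 := (sub_eq_zero.1 h).symm
    have h2 := congrArg norm h1
    rw [norm_pow, norm_one] at h2
    have h3 : ‖(((ρ i / n : ℚ)) : ℂ)‖ ^ (2 * G (φ i) + 1) < 1 :=
      pow_lt_one₀ (norm_nonneg _) (hball i) (by omega)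
    exact absurd h2 h3.ne
  have hPer : ∀ i, Per (2 * G (φ i)) ((ρ i / n : ℚ) : ℂ) = Mx (2 * G (φ i)) ((ρ i / n : ℚ) : ℂ) :=
    fun i => hLink _ (hpos i) _ (by rw [mem_ball_zero_iff]; exact hball i)
  -- the substituted polynomial
  have hsub : ∀ (mu : ℂ) (Z : ∀ i, Matrix (Fin (2 * G (φ i))) (Fin (2 * G (φ i))) ℂ),
      MvPolynomial.aeval (HGP.tpt mu (fun i => Ps (F (φ i)) (E' (φ i)) ((ρ i / n : ℚ) : ℂ) (Z i)))
        (MvPolynomial.bind₁ (sub L (fun i => Amat (F' (φ i)) (ρ i / n)) (fun i => E (φ i))) P) =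
      MvPolynomial.aeval (tpt (n := fun i => 2 * G (φ i)) mu Z) P := by
    intro mu Z
    rw [aeval_sub]
    refine congrArg (fun M => MvPolynomial.aeval (tpt (n := fun i => 2 * G (φ i)) mu M) P)
      (funext fun i => ?_)
    rw [← Pi_rat]
    exact Pi_Ps (hR (φ i)).isF (hR (φ i)).isE (hψ i) (Z i)
  obtain ⟨P', hP'⟩ := hNFW r (fun i => G (φ i)) (fun i => 2 * G (φ i) - 1)
    (fun i => Ps (F (φ i)) (E' (φ i)) ((ρ i / n : ℚ) : ℂ)
      (Mx (2 * G (φ i)) ((ρ i / n : ℚ) : ℂ))) L hL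
    (MvPolynomial.bind₁ (sub L (fun i => Amat (F' (φ i)) (ρ i / n)) (fun i => E (φ i))) P) (by
      rw [hsub]
      refine Eq.trans (congrArg (fun M => MvPolynomial.aeval (tpt (n := fun i => 2 * G (φ i))
        (2 * Real.pi * Complex.I) M) P) (funext fun i => ?_)) hP0
      exact (hPer i).symm)
    ⟨lam, fun i => Ps (F (φ i)) (E' (φ i)) ((ρ i / n : ℚ) : ℂ) (X i), hlam, fun i =>
      ((hPsi (G (φ i)) (F (φ i)) (F' (φ i)) (E (φ i)) (E' (φ i)) (hR (φ i)).isF
        (hR (φ i)).isE _ lam (hψ i)).1 (X i) (hX i)).1, by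
        rw [hsub]
        exact hne⟩
  refine hrel P' ?_
  obtain ⟨h1, h2, h3⟩ := hP'
  refine ⟨le_trans h1 (Nat.mul_le_mul hLD ?_), h2, h3⟩
  exact le_trans (totalDegree_bind_le _ (sub_deg L _ _) P) hPD

end

end Pool.Agent.CYD
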