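import Pool.Agent.CYD.Stmts

set_option autoImplicit false

/-!
CYD, module FULY: the full system.
-/

open Finset

namespace Pool.Agent.CYD

open Pool.Agent.CYP
open Pool.Agent.DGP (GSys IsZ hd val Conv tens)

theorem fuly_proof (hBase : Stmt_Bas) (hDSum : DG2.Stmt_DSmJ) (hTens : DGP.Stmt_Tens)
    (hMono : DGP.Stmt_Mono) : Stmt_FulY := by
  intro K n hn E
  choose C hC using fun k => hBase (n k) (hn k).1 (hn k).2
  refine ⟨(∑ l, C l + 2) ^ ((K + 1) * (E + 2)), (∑ l, (n l + 2)) * ((K + 1) * (E + 2)),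
    (∑ l, (n l + 1)) * K, ?_⟩
  intro d b hb hd
  have hb' : (1 : ℝ) ≤ b := by exact_mod_cast hb
  choose e₀ c₀ hG using fun k : Fin K => hC k (d k) (hd k).1
  have hsum : ∀ k, c₀ k ≤ 1 + ∑ l, |c₀ l| := by
    intro k
    have h3 : |c₀ k| ≤ ∑ l, |c₀ l| :=
      Finset.single_le_sum (f := fun l => |c₀ l|) (fun l _ => abs_nonneg _) (Finset.mem_univ k)
    have h4 := le_abs_self (c₀ k)
    linarith
  have hH : ∀ k, ((C k : ℝ) * (d k : ℝ) ^ (n k + 2)) ≤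
      (((∑ l, C l : ℕ) : ℝ) + 2) * (b : ℝ) ^ (∑ l, (n l + 2)) := by
    intro k
    have h3 : (d k : ℝ) ≤ b := by exact_mod_cast (hd k).2
    have h4 : (d k : ℝ) ^ (n k + 2) ≤ (b : ℝ) ^ (∑ l, (n l + 2)) :=
      (pow_le_pow_left₀ (by positivity) h3 _).trans (pow_le_pow_right₀ hb'
        (Finset.single_le_sum (f := fun l => n l + 2) (fun l _ => Nat.zero_le _)
          (Finset.mem_univ k)))
    have h5 : C k ≤ ∑ l, C l :=
      Finset.single_le_sum (f := fun l => C l) (fun l _ => Nat.zero_le _) (Finset.mem_univ k)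
    have h6 : (C k : ℝ) ≤ ((∑ l, C l : ℕ) : ℝ) + 2 := by
      have h7 : (C k : ℝ) ≤ ((∑ l, C l : ℕ) : ℝ) := by exact_mod_cast h5
      linarith
    exact mul_le_mul h6 h4 (by positivity) (by positivity)
  have hG' : ∀ k, GSys (fun p : Fin (n k) × Fin (n k) =>
      PowerSeries.rescale (d k : ℚ) (Ys (n k) p)) (Td (n k) (d k)) (∑ l, (n l + 1))
      (∑ l, e₀ l) (1 + ∑ l, |c₀ l|)
      ((((∑ l, C l : ℕ) : ℝ) + 2) * (b : ℝ) ^ (∑ l, (n l + 2))) := by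
    intro k
    exact hMono _ _ _ _ _ _ _ _ _ _ _ (hG k)
      (Finset.single_le_sum (f := fun l => n l + 1) (fun l _ => Nat.zero_le _)
        (Finset.mem_univ k))
      (Finset.single_le_sum (f := fun l => e₀ l) (fun l _ => Nat.zero_le _) (Finset.mem_univ k))
      (hsum k) (hH k)
  have h3 : (1 : ℝ) ≤ 1 + ∑ l, |c₀ l| := by
    have : (0 : ℝ) ≤ ∑ l, |c₀ l| := Finset.sum_nonneg (fun l _ => abs_nonneg _)
    linarith
  have h4 : (2 : ℝ) ≤ (((∑ l, C l : ℕ) : ℝ) + 2) * (b : ℝ) ^ (∑ l, (n l + 2)) := by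
    have h5 : (0 : ℝ) ≤ ((∑ l, C l : ℕ) : ℝ) := Nat.cast_nonneg _
    have h6 : (1 : ℝ) ≤ (b : ℝ) ^ (∑ l, (n l + 2)) := one_le_pow₀ hb'
    nlinarith
  obtain ⟨e₁, c₁, hD⟩ := hDSum K (fun k => Fin (n k) × Fin (n k))
    (fun k p => PowerSeries.rescale (d k : ℚ) (Ys (n k) p))
    (fun k => Td (n k) (d k)) (∑ l, (n l + 1)) _ _ _ h3 h4 hG'
  have hfun : (fun o : Option (Σ k, Fin (n k) × Fin (n k)) => o.elim 1
      (fun p => PowerSeries.rescale (d p.1 : ℚ) (Ys (n p.1) p.2))) = fullY (n := n) d := by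
    funext o
    cases o <;> rfl
  rw [hfun] at hD
  obtain ⟨e₂, c₂, hT⟩ := hTens _ _ _ _ _ _ _ hD E
  refine ⟨e₂, c₂, ?_⟩
  have hpow : (((((∑ l, C l : ℕ) : ℝ) + 2) * (b : ℝ) ^ (∑ l, (n l + 2))) ^ (K + 1)) ^ (E + 2)
      = (((∑ l, C l + 2) ^ ((K + 1) * (E + 2)) : ℕ) : ℝ) *
        (b : ℝ) ^ ((∑ l, (n l + 2)) * ((K + 1) * (E + 2))) := by
    rw [← pow_mul, mul_pow, ← pow_mul]
    push_cast
    rfl
  rw [hpow] at hT
  exact hT

end Pool.Agent.CYD
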