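import Pool.Agent.CYD.Stmts

set_option autoImplicit false
set_option linter.unusedSectionVars false
set_option linter.unusedVariables false
set_option linter.unusedSimpArgs false

/-!
# JOIN: joint independence of several blocks with different scales
-/

open scoped BigOperators Topology
open Metric Set

namespace Pool.Agent.CYD

open Pool.Agent.CYP

noncomputable section

namespace JOIN_

theorem qm_cast (n : ℕ) : (Qm n ℚ).map (fun x => (x : ℂ)) = Qm n ℂ := by
  ext i j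
  simp only [Qm, Matrix.map_apply, Matrix.of_apply]
  split_ifs <;> push_cast <;> rfl

theorem qm_anti (n : ℕ) : (Qm n ℚ).transpose = -Qm n ℚ := by
  ext i j
  simp only [Qm, Matrix.transpose_apply, Matrix.of_apply, Matrix.neg_apply]
  rcases lt_trichotomy i j with h | h | h
  · rw [if_neg (not_lt.2 h.le), if_pos h, if_pos h]
  · subst h; simp
  · rw [if_pos h, if_neg (not_lt.2 h.le), if_pos h]; ring

theorem qm_det (hQdet : Stmt_Qdet) (n : ℕ) (hn : Even n) : (Qm n ℚ).det ≠ 0 := by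
  intro h
  apply hQdet n hn
  rw [← qm_cast]
  have h1 := RingHom.map_det (Rat.castHom ℂ) (Qm n ℚ)
  rw [h, map_zero] at h1
  exact h1.symm

/-- iterated derivatives of holomorphic functions are holomorphic -/
theorem diffOn_iter {f : ℂ → ℂ} {U : Set ℂ} (hU : IsOpen U) (hf : DifferentiableOn ℂ f U) (k : ℕ) :
    DifferentiableOn ℂ (iteratedDeriv k f) U := by
  induction k with
  | zero => rwa [iteratedDeriv_zero]
  | succ k ih =>
    rw [iteratedDeriv_succ]
    exact ih.deriv hU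

theorem diffOn_Mx (hYx : Stmt_Yx) (hGeo : Stmt_Geo) (n : ℕ) (i j : Fin n) :
    DifferentiableOn ℂ (fun ψ => Mx n ψ i j) (Om n) :=
  diffOn_iter (hGeo n).1 (hYx n j).1 i

/-- a polynomial which vanishes on a disc -/
theorem empty_case {I : Type} [Fintype I] [IsEmpty I] {g : I → ℕ}
    (P : MvPolynomial (Option (Σ k, Fin (2 * g k) × Fin (2 * g k))) ℂ) {ε : ℝ} (hε : 0 < ε)
    (X : ∀ k, Matrix (Fin (2 * g k)) (Fin (2 * g k)) ℂ)
    (h : ∀ z ∈ ball (0 : ℂ) ε, MvPolynomial.eval (HGP.opt z (fun p => X p.1 p.2.1 p.2.2)) P = 0)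
    (z : ℂ) : MvPolynomial.eval (HGP.opt z (fun p => X p.1 p.2.1 p.2.2)) P = 0 := by
  set Q : Polynomial ℂ := MvPolynomial.eval₂ Polynomial.C
    (fun o : Option (Σ k, Fin (2 * g k) × Fin (2 * g k)) => o.elim Polynomial.X
      (fun p => Polynomial.C (X p.1 p.2.1 p.2.2))) P with hQ
  have hev : ∀ w : ℂ, Q.eval w =
      MvPolynomial.eval (HGP.opt w (fun p => X p.1 p.2.1 p.2.2)) P := by
    intro w
    rw [hQ, ← Polynomial.coe_evalRingHom, MvPolynomial.hom_eval₂]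
    rw [MvPolynomial.eval, MvPolynomial.coe_eval₂Hom]
    congr 1
    · ext x
      simp
    · funext o
      rcases o with _ | p
      · simp [HGP.opt]
      · simp [HGP.opt]
  have hQ0 : Q = 0 := by
    refine Polynomial.eq_zero_of_infinite_isRoot Q ?_
    have hinf : (ball (0 : ℂ) ε).Infinite := by
      refine infinite_of_mem_nhds 0 (ball_mem_nhds 0 hε)
    refine hinf.mono fun w hw => ?_
    show Q.IsRoot w
    rw [Polynomial.IsRoot, hev]
    exact h w hw
  rw [← hev, hQ0, Polynomial.eval_zero]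

section step

variable {I : Type} [DecidableEq I] {g : I → ℕ} (k₀ : I)

/-- the parameters: `z` and the other blocks -/
abbrev Sg (g : I → ℕ) (k₀ : I) : Type :=
  Option (Σ k : {k // k ≠ k₀}, Fin (2 * g k) × Fin (2 * g k))

/-- the splitting of the variables -/
def spl (g : I → ℕ) (k₀ : I) : Option (Σ k, Fin (2 * g k) × Fin (2 * g k)) →
    Sg g k₀ ⊕ (Fin (2 * g k₀) × Fin (2 * g k₀))
  | none => Sum.inl none
  | some p => if h : p.1 = k₀ then Sum.inr (h ▸ p.2) else Sum.inl (some ⟨⟨p.1, h⟩, p.2⟩)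

/-- the family with the block `k₀` replaced -/
def repl (X : ∀ k, Matrix (Fin (2 * g k)) (Fin (2 * g k)) ℂ)
    (X0 : Matrix (Fin (2 * g k₀)) (Fin (2 * g k₀)) ℂ) :
    ∀ k, Matrix (Fin (2 * g k)) (Fin (2 * g k)) ℂ := Function.update X k₀ X0

theorem eval_spl (P : MvPolynomial (Option (Σ k, Fin (2 * g k) × Fin (2 * g k))) ℂ) (z : ℂ)
    (X : ∀ k, Matrix (Fin (2 * g k)) (Fin (2 * g k)) ℂ)
    (X0 : Matrix (Fin (2 * g k₀)) (Fin (2 * g k₀)) ℂ) :
    MvPolynomial.eval (Sum.elim (HGP.opt z (fun p : Σ k : {k // k ≠ k₀},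
      Fin (2 * g k) × Fin (2 * g k) => X p.1 p.2.1 p.2.2)) (fun p => X0 p.1 p.2))
      (MvPolynomial.rename (spl g k₀) P) =
    MvPolynomial.eval (HGP.opt z (fun p => repl k₀ X X0 p.1 p.2.1 p.2.2)) P := by
  rw [MvPolynomial.eval_rename]
  congr 2
  funext o
  rcases o with _ | ⟨k, p⟩
  · rfl
  · by_cases h : k = k₀
    · subst h
      simp [spl, HGP.opt, repl]
    · simp [spl, HGP.opt, repl, h]

theorem exists_rho [Fintype I] {d : I → ℝ} (hd : ∀ k, 0 < d k) (hmax : ∀ k, k ≠ k₀ → d k < d k₀) :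
    ∃ ρ : ℝ, 1 < ρ ∧ ∀ k, k ≠ k₀ → ρ * d k ≤ d k₀ := by
  classical
  rcases (Finset.univ.filter (fun k : I => k ≠ k₀)).eq_empty_or_nonempty with h | h
  · refine ⟨2, one_lt_two, fun k hk => ?_⟩
    have h1 : k ∈ Finset.univ.filter (fun k : I => k ≠ k₀) := by simp [hk]
    rw [h] at h1
    simp at h1
  · obtain ⟨k1, hk1, hmin⟩ := Finset.exists_min_image _ (fun k => d k₀ / d k) h
    have hk1' : k1 ≠ k₀ := (Finset.mem_filter.1 hk1).2
    refine ⟨d k₀ / d k1, ?_, fun k hk => ?_⟩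
    · rw [one_lt_div (hd k1)]
      exact hmax k1 hk1'
    · have h2 := hmin k (by simp [hk])
      calc d k₀ / d k1 * d k ≤ d k₀ / d k * d k := mul_le_mul_of_nonneg_right h2 (hd k).le
        _ = d k₀ := div_mul_cancel₀ _ (hd k).ne'

theorem step_fib (hFib : Stmt_FibP) (hYx : Stmt_Yx) (hGeo : Stmt_Geo) [Fintype I] {d : I → ℝ}
    (hg : ∀ k, 0 < g k) (hd : ∀ k, 0 < d k) (hmax : ∀ k, k ≠ k₀ → d k < d k₀)
    (P : MvPolynomial (Option (Σ k, Fin (2 * g k) × Fin (2 * g k))) ℂ) {ε : ℝ} (hε : 0 < ε)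
    (hP : ∀ z ∈ ball (0 : ℂ) ε, MvPolynomial.eval
      (HGP.opt z (fun p => Mx (2 * g p.1) (d p.1 * z) p.2.1 p.2.2)) P = 0)
    (z : ℂ) (hz : ‖(d k₀ : ℂ) * z‖ < 1) (X0 : Matrix (Fin (2 * g k₀)) (Fin (2 * g k₀)) ℂ)
    (hX0 : Tors (2 * g k₀) (d k₀ * z) (2 * Real.pi * Complex.I) X0) :
    MvPolynomial.eval (HGP.opt z (fun p => repl k₀ (fun k => Mx (2 * g k) (d k * z)) X0
      p.1 p.2.1 p.2.2)) P = 0 := by
  obtain ⟨ρ, hρ, hρd⟩ := exists_rho k₀ hd hmax
  have hd0 : (d k₀ : ℂ) ≠ 0 := by exact_mod_cast (hd k₀).ne'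
  set f : Sg g k₀ → ℂ → ℂ := fun o ψ => HGP.opt (ψ / d k₀) (fun p : Σ k : {k // k ≠ k₀},
    Fin (2 * g k) × Fin (2 * g k) => Mx (2 * g p.1) (d p.1 * (ψ / d k₀)) p.2.1 p.2.2) o with hf
  have hHol : HolF ρ f := by
    intro o
    rcases o with _ | p
    · have : DifferentiableOn ℂ (fun ψ : ℂ => ψ / (d k₀ : ℂ)) (ball 0 ρ) :=
        (differentiable_id.div_const _).differentiableOn
      exact this
    · have h1 := diffOn_Mx hYx hGeo (2 * g p.1) p.2.1 p.2.2
      have h2 : DifferentiableOn ℂ (fun ψ : ℂ => (d p.1 : ℂ) * (ψ / d k₀)) (ball 0 ρ) :=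
        ((differentiable_id.div_const _).const_mul _).differentiableOn
      have h3 : MapsTo (fun ψ : ℂ => (d p.1 : ℂ) * (ψ / d k₀)) (ball 0 ρ) (Om (2 * g p.1)) := by
        intro ψ hψ
        refine (hGeo _).2.2.1 ?_
        rw [mem_ball_zero_iff] at hψ ⊢
        have hk := hρd p.1 p.1.2
        have hkp := hd p.1
        have h0 := hd k₀
        rw [norm_mul, norm_div, Complex.norm_real, Complex.norm_real, Real.norm_of_nonneg hkp.le,
          Real.norm_of_nonneg h0.le, ← mul_div_assoc, div_lt_one h0]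
        calc d p.1 * ‖ψ‖ < d p.1 * ρ := mul_lt_mul_of_pos_left hψ hkp
          _ = ρ * d p.1 := mul_comm _ _
          _ ≤ d k₀ := hk
      exact h1.comp h2 h3
  have hψz : (d k₀ : ℂ) * z / d k₀ = z := mul_div_cancel_left₀ z hd0
  have key := hFib (g k₀) (hg k₀) (Sg g k₀) ρ f (MvPolynomial.rename (spl g k₀) P) hρ hHol
    (ε * d k₀) (mul_pos hε (hd k₀)) (by
      intro ψ hψ
      have h1 := eval_spl k₀ P (ψ / d k₀) (fun k => Mx (2 * g k) (d k * (ψ / d k₀)))
        (Mx (2 * g k₀) ψ)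
      have h2 : repl k₀ (fun k => Mx (2 * g k) (d k * (ψ / d k₀))) (Mx (2 * g k₀) ψ) =
          fun k => Mx (2 * g k) (d k * (ψ / d k₀)) := by
        have h3 : Mx (2 * g k₀) ψ = Mx (2 * g k₀) (d k₀ * (ψ / d k₀)) := by
          rw [mul_div_cancel₀ ψ hd0]
        unfold repl
        rw [h3]
        exact Function.update_eq_self k₀ (fun k => Mx (2 * g k) (d k * (ψ / d k₀)))
      rw [h2] at h1
      have h4 := hP (ψ / d k₀) (by
        rw [mem_ball_zero_iff] at hψ ⊢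
        rw [norm_div, Complex.norm_real, Real.norm_of_nonneg (hd k₀).le, div_lt_iff₀ (hd k₀)]
        exact hψ)
      exact h1.trans h4) (d k₀ * z) (by rw [mem_ball_zero_iff]; exact hz) X0 hX0
  have h5 := eval_spl k₀ P z (fun k => Mx (2 * g k) (d k * z)) X0
  rw [← h5]
  have h6 : (fun i => f i (d k₀ * z)) = HGP.opt z (fun p : Σ k : {k // k ≠ k₀},
      Fin (2 * g k) × Fin (2 * g k) => Mx (2 * g p.1) (d p.1 * z) p.2.1 p.2.2) := by
    funext o
    simp only [hf, hψz]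
  rw [h6] at key
  exact key

end step

theorem main (hFib : Stmt_FibP) (hSub : Stmt_SubX) (hPsi : Stmt_Psi) (hFmat : Stmt_Fmat)
    (hDarb : Stmt_Darb) (hQdet : Stmt_Qdet) (hYx : Stmt_Yx) (hGeo : Stmt_Geo) : ∀ N : ℕ,
    ∀ (I : Type) [Fintype I] [DecidableEq I] (g : I → ℕ) (d : I → ℝ), Fintype.card I = N →
    (∀ k, 0 < g k) → (∀ k, 0 < d k) → Function.Injective d →
    ∀ P : MvPolynomial (Option (Σ k, Fin (2 * g k) × Fin (2 * g k))) ℂ, ∀ ε : ℝ, 0 < ε →
    (∀ z ∈ ball (0 : ℂ) ε, MvPolynomial.eval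
      (HGP.opt z (fun p => Mx (2 * g p.1) (d p.1 * z) p.2.1 p.2.2)) P = 0) →
    ∀ z : ℂ, (∀ k, ‖(d k : ℂ) * z‖ < 1) → ∀ X : ∀ k, Matrix (Fin (2 * g k)) (Fin (2 * g k)) ℂ,
      (∀ k, Tors (2 * g k) (d k * z) (2 * Real.pi * Complex.I) (X k)) →
      MvPolynomial.eval (HGP.opt z (fun p => X p.1 p.2.1 p.2.2)) P = 0 := by
  intro N
  induction N with
  | zero =>
    intro I _ _ g d hN hg hd hinj P ε hε hP z hz X hX
    have : IsEmpty I := Fintype.card_eq_zero_iff.1 hN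
    refine empty_case P hε X (fun w hw => ?_) z
    have h1 := hP w hw
    have h2 : (fun p : Σ k, Fin (2 * g k) × Fin (2 * g k) =>
        Mx (2 * g p.1) (d p.1 * w) p.2.1 p.2.2) = fun p => X p.1 p.2.1 p.2.2 :=
      funext fun p => (IsEmpty.false p.1).elim
    rw [h2] at h1
    exact h1
  | succ N ih =>
    intro I _ _ g d hN hg hd hinj P ε hε hP z hz X hX
    have hne : Nonempty I := Fintype.card_pos_iff.1 (by omega)
    obtain ⟨k₀, -, hk₀⟩ := Finset.exists_max_image Finset.univ d Finset.univ_nonempty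
    have hmax : ∀ k, k ≠ k₀ → d k < d k₀ := fun k hk =>
      lt_of_le_of_ne (hk₀ k (Finset.mem_univ k)) fun h => hk (hinj h)
    obtain ⟨F, F', hF⟩ := hFmat (g k₀)
    obtain ⟨E, E', hE⟩ := hDarb (g k₀) (Qm (2 * g k₀) ℚ) (qm_anti _)
      (qm_det hQdet _ (even_two_mul _))
    have hnz : ∀ w : ℂ, ‖w‖ < 1 → 1 - w ^ (2 * g k₀ + 1) ≠ 0 := fun w hw =>
      (hGeo (2 * g k₀)).2.2.2.2 w ((hGeo (2 * g k₀)).2.2.1 (mem_ball_zero_iff.2 hw))
    have hpsi := hPsi (g k₀) F F' E E' hF hE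
    -- the value of the block
    have h0 := (hpsi (d k₀ * z) (2 * Real.pi * Complex.I) (hnz _ (hz k₀))).1 (X k₀) (hX k₀)
    obtain ⟨M, P', hP'⟩ := hSub I g k₀ F' E (d k₀) (Ps F E' (d k₀ * z) (X k₀)) P
    have hd0 : (d k₀ : ℂ) ≠ 0 := by exact_mod_cast (hd k₀).ne'
    -- the relation for the other blocks
    have h1 : ∀ w ∈ ball (0 : ℂ) (1 / d k₀), MvPolynomial.eval (HGP.opt w
        (fun p : Σ k : {k // k ≠ k₀}, Fin (2 * g k) × Fin (2 * g k) =>
          Mx (2 * g p.1) (d p.1 * w) p.2.1 p.2.2)) P' = 0 := by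
      intro w hw
      have hw1 : ‖(d k₀ : ℂ) * w‖ < 1 := by
        rw [mem_ball_zero_iff, lt_div_iff₀ (hd k₀)] at hw
        rw [norm_mul, Complex.norm_real, Real.norm_of_nonneg (hd k₀).le, mul_comm]
        exact hw
      have h2 := (hpsi (d k₀ * w) (2 * Real.pi * Complex.I) (hnz _ hw1)).2
        (Ps F E' (d k₀ * z) (X k₀)) h0.1
      have h3 := step_fib k₀ hFib hYx hGeo hg hd hmax P hε hP w hw1 _ h2.1
      have h4 := hP' w (repl k₀ (fun k => Mx (2 * g k) (d k * w))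
        (Pi' F' E (d k₀ * w) (Ps F E' (d k₀ * z) (X k₀)))) (hnz _ hw1) (by
          unfold repl
          rw [Function.update_self])
      rw [h3, mul_zero] at h4
      rw [← h4]
      congr 2
      funext o
      rcases o with _ | ⟨⟨k, hk⟩, p⟩
      · rfl
      · simp [HGP.opt, repl, hk]
    have hcard : Fintype.card {k // k ≠ k₀} = N := by
      have := Fintype.card_subtype_compl (fun k : I => k = k₀)
      rw [Fintype.card_subtype_eq, hN] at this
      simpa using this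
    have h5 := ih {k // k ≠ k₀} (fun k => g k) (fun k => d k) hcard (fun k => hg k)
      (fun k => hd k) (fun a b hab => Subtype.ext (hinj hab)) P' (1 / d k₀)
      (by have := hd k₀; positivity) h1 z (fun k => hz k) (fun k => X k) (fun k => hX k)
    have h6 := hP' z X (hnz _ (hz k₀)) h0.2.symm
    rw [h5] at h6
    rcases mul_eq_zero.1 h6.symm with h7 | h7
    · exact absurd h7 (pow_ne_zero _ (hnz _ (hz k₀)))
    · exact h7

end JOIN_

theorem join_proof (hFib : Stmt_FibP) (hSub : Stmt_SubX) (hPsi : CYP.Stmt_Psi)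
    (hFmat : CYP.Stmt_Fmat) (hDarb : CYP.Stmt_Darb) (hQdet : CYP.Stmt_Qdet)
    (hYx : CYP.Stmt_Yx) (hGeo : CYP.Stmt_Geo) : Stmt_Join := by
  intro I _ _ g d hg hd hinj P ε hε hP z hz X hX
  exact JOIN_.main hFib hSub hPsi hFmat hDarb hQdet hYx hGeo _ I g d rfl hg hd hinj P ε hε hP z
    hz X hX

end

end Pool.Agent.CYD
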