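import Pool.Agent.CYD.CStmts
import Pool.Agent.CYD.JOIN
import Pool.Agent.DG2.INDXB

set_option autoImplicit false

/-!
# CYD, module FUNC: functional relations hold for all matrices `Y`
-/

open scoped BigOperators Topology
open Metric Set

namespace Pool.Agent.CYD

open Pool.Agent.CYP
open Pool.Agent.DGP (GSys IsZ hd val Conv tens)
open Pool.Agent.DGP.IndR (val_rescale conv_rescale conv_one conv_prod conv_sum conv_zero)
open Pool.Agent.HGP (opt)
open Pool.Agent.DG2.INDX_ (ident diff_eval)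

namespace FUNC_

variable {K : ℕ} {g : Fin K → ℕ}

/-- Indices of the entries. -/
abbrev VY (g : Fin K → ℕ) := Σ k, Fin (2 * g k) × Fin (2 * g k)

/-- The values of the full system. -/
noncomputable def fvv (d : Fin K → ℕ) (x : ℝ) (o : Option (VY g)) : ℝ :=
  o.elim 1 (fun v => val (Ys (2 * g v.1) v.2) (d v.1 * x))

/-- The full system. -/
noncomputable abbrev fY (g : Fin K → ℕ) (d : Fin K → ℕ) : Option (VY g) → PowerSeries ℚ :=
  fullY (n := fun k => 2 * g k) d

theorem fullY_val (hVal : DGP.Stmt_Val) (d : Fin K → ℕ) (x : ℝ)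
    (h : ∀ k p, Conv (Ys (2 * g k) p) (d k * x)) (o : Option (VY g)) :
    Conv (fY g d o) x ∧ val (fY g d o) x = fvv d x o := by
  cases o with
  | none => exact conv_one hVal x
  | some v =>
    have h1 : ((d v.1 : ℚ) : ℝ) * x = d v.1 * x := by push_cast; ring
    constructor
    · show Conv (PowerSeries.rescale (d v.1 : ℚ) (Ys (2 * g v.1) v.2)) x
      apply conv_rescale
      rw [h1]
      exact h v.1 v.2
    · show val (PowerSeries.rescale (d v.1 : ℚ) (Ys (2 * g v.1) v.2)) x = _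
      rw [val_rescale, h1]
      rfl

theorem tensY_val (hVal : DGP.Stmt_Val) (d : Fin K → ℕ) (x : ℝ)
    (h : ∀ k p, Conv (Ys (2 * g k) p) (d k * x)) {E : ℕ}
    (w : Fin E → Option (VY g)) :
    Conv (tens (fY g d) E w) x ∧ val (tens (fY g d) E w) x = ∏ e, fvv d x (w e) := by
  unfold tens
  obtain ⟨h1, h2⟩ := conv_prod hVal x Finset.univ (fun e => fY g d (w e))
    (fun e _ => (fullY_val hVal d x h (w e)).1)
  refine ⟨h1, ?_⟩
  rw [h2]
  exact Finset.prod_congr rfl (fun e _ => (fullY_val hVal d x h (w e)).2)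

theorem relY_val (hVal : DGP.Stmt_Val) (d : Fin K → ℕ) (x : ℝ)
    (h : ∀ k p, Conv (Ys (2 * g k) p) (d k * x)) {E : ℕ}
    (ρ : (Fin E → Option (VY g)) → Polynomial ℚ)
    (hρ : ∑ w, (ρ w : PowerSeries ℚ) * tens (fY g d) E w = 0) :
    ∑ w, Polynomial.aeval x (ρ w) * ∏ e, fvv d x (w e) = 0 := by
  have h1 : ∀ w, Conv ((ρ w : PowerSeries ℚ) * tens (fY g d) E w) x ∧
      val ((ρ w : PowerSeries ℚ) * tens (fY g d) E w) x
        = Polynomial.aeval x (ρ w) * ∏ e, fvv d x (w e) := by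
    intro w
    obtain ⟨h2, h3⟩ := (hVal x).2.1 (ρ w)
    obtain ⟨h4, h5⟩ := tensY_val hVal d x h w
    obtain ⟨h6, h7, -, -⟩ := (hVal x).1 _ _ h2 h4
    exact ⟨h6, by rw [h7, h3, h5]⟩
  obtain ⟨h2, h3⟩ := conv_sum hVal x Finset.univ
    (fun w => (ρ w : PowerSeries ℚ) * tens (fY g d) E w) (fun w _ => (h1 w).1)
  rw [hρ, (conv_zero hVal x).2] at h3
  rw [h3]
  exact Finset.sum_congr rfl (fun w _ => (h1 w).2.symm)

/-- The polynomial of a functional relation. -/
noncomputable def Pfun (V : ∀ k, Matrix (Fin (2 * g k)) (Fin (2 * g k)) ℂ) {E : ℕ}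
    (ρ : (Fin E → Option (VY g)) → Polynomial ℚ) :
    MvPolynomial (Option (VY g)) ℂ :=
  ∑ w, Polynomial.aeval (MvPolynomial.X none) (ρ w) * ∏ e, (w e).elim 1 (fun v =>
    ∑ j, MvPolynomial.X (some (⟨v.1, (v.2.1, j)⟩ : VY g)) * MvPolynomial.C (V v.1 j v.2.2))

theorem Pfun_eval (V : ∀ k, Matrix (Fin (2 * g k)) (Fin (2 * g k)) ℂ) {E : ℕ}
    (ρ : (Fin E → Option (VY g)) → Polynomial ℚ) (z : ℂ)
    (M : ∀ k, Matrix (Fin (2 * g k)) (Fin (2 * g k)) ℂ) :
    MvPolynomial.eval (opt z (fun q : VY g => M q.1 q.2.1 q.2.2))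
      (Pfun V ρ) = ∑ w, Polynomial.aeval z (ρ w) * ∏ e, (w e).elim 1 (fun v : VY g =>
        (M v.1 * V v.1) v.2.1 v.2.2) := by
  unfold Pfun
  rw [map_sum]
  apply Finset.sum_congr rfl
  intro w _
  rw [map_mul, map_prod]
  congr 1
  · have h1 : (MvPolynomial.eval (opt z (fun q : VY g => M q.1 q.2.1 q.2.2)))
        (Polynomial.aeval (MvPolynomial.X none) (ρ w))
        = Polynomial.aeval (MvPolynomial.eval (opt z (fun q : VY g => M q.1 q.2.1 q.2.2))
          (MvPolynomial.X none)) (ρ w) := by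
      have h2 := Polynomial.hom_eval₂ (ρ w) (algebraMap ℚ (MvPolynomial
        (Option (VY g)) ℂ)) (MvPolynomial.eval (opt z
        (fun q : VY g => M q.1 q.2.1 q.2.2))) (MvPolynomial.X none)
      rw [Polynomial.aeval_def, h2, Polynomial.aeval_def]
      congr 1
      exact Subsingleton.elim _ _
    rw [h1, MvPolynomial.eval_X]
    rfl
  · apply Finset.prod_congr rfl
    intro e _
    cases hwe : w e with
    | none => simp
    | some v =>
      simp only [Option.elim_some, map_sum, map_mul, MvPolynomial.eval_X, MvPolynomial.eval_C,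
        Matrix.mul_apply]
      rfl

/-- The period matrix at `0` is invertible. -/
theorem exists_inv (hBil : CYP.Stmt_BilO) (hQdet : CYP.Stmt_Qdet) (hGeo : CYP.Stmt_Geo)
    (n : ℕ) (hn : 0 < n) (hev : Even n) :
    ∃ V : Matrix (Fin n) (Fin n) ℂ, V * Mx n 0 = 1 ∧ Mx n 0 * V = 1 := by
  have h0 : (0 : ℂ) ∈ Om n := (hGeo n).2.2.1 (mem_ball_self one_pos)
  have h1 := hBil n hn hev 0 h0
  unfold Tors at h1
  have hlam : (2 * Real.pi * Complex.I : ℂ) ≠ 0 := by
    simp [Real.pi_ne_zero, Complex.I_ne_zero]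
  have h2 := congrArg Matrix.det h1
  rw [Matrix.det_mul, Matrix.det_mul, Matrix.det_transpose, Matrix.det_smul] at h2
  have h3 : (Mx n 0).det ≠ 0 := by
    intro h
    rw [h, mul_zero] at h2
    have h4 := (mul_ne_zero (pow_ne_zero (Fintype.card (Fin n)) (pow_ne_zero (n - 1) hlam))
      (hQdet n hev))
    exact h4 h2.symm
  have h4 : IsUnit (Mx n 0).det := isUnit_iff_ne_zero.mpr h3
  exact ⟨(Mx n 0)⁻¹, Matrix.nonsing_inv_mul _ h4, Matrix.mul_nonsing_inv _ h4⟩

theorem funct (hJoin : Stmt_Join) (hYVl : Stmt_YVl) (hVal : DGP.Stmt_Val)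
    (hBil : CYP.Stmt_BilO) (hQdet : CYP.Stmt_Qdet) (hYx : CYP.Stmt_Yx) (hGeo : CYP.Stmt_Geo)
    (d : Fin K → ℕ) (hg : ∀ k, 0 < g k) (hd : ∀ k, 1 ≤ d k) (hinj : Function.Injective d)
    {E : ℕ} (ρ : (Fin E → Option (VY g)) → Polynomial ℚ)
    (hρ : ∑ w, (ρ w : PowerSeries ℚ) * tens (fY g d) E w = 0) (z : ℂ)
    (hz : ∀ k, ‖(d k : ℂ) * z‖ < 1)
    (Y : ∀ k, Matrix (Fin (2 * g k)) (Fin (2 * g k)) ℂ)
    (hY : ∀ k, (Y k).transpose * Rm (2 * g k) (d k * z) * Y k = Rm (2 * g k) 0) :
    ∑ w, Polynomial.aeval z (ρ w) * ∏ e, (w e).elim 1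
      (fun v : VY g => Y v.1 v.2.1 v.2.2) = 0 := by
  have hev : ∀ k, Even (2 * g k) := fun k => even_two_mul _
  have hpos : ∀ k, 0 < 2 * g k := fun k => by have := hg k; omega
  choose V hVM hMV using fun k => exists_inv hBil hQdet hGeo (2 * g k) (hpos k) (hev k)
  -- the radius
  have hS : (0 : ℝ) ≤ ∑ k, (d k : ℝ) := Finset.sum_nonneg (fun k _ => by positivity)
  set ε : ℝ := 1 / (1 + ∑ k, (d k : ℝ)) with hε
  have hε0 : 0 < ε := by positivity
  have hdz : ∀ k, ∀ x : ℝ, 0 ≤ x → x < ε → (d k : ℝ) * x < 1 := by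
    intro k x hx0 hx
    have h1 : (d k : ℝ) ≤ ∑ k, (d k : ℝ) :=
      Finset.single_le_sum (f := fun k => (d k : ℝ)) (fun l _ => by positivity)
        (Finset.mem_univ k)
    rw [hε, lt_div_iff₀ (by positivity)] at hx
    nlinarith
  have hball : ∀ k, ∀ z ∈ ball (0 : ℂ) ε, (d k : ℂ) * z ∈ ball (0 : ℂ) 1 := by
    intro k z hz
    rw [mem_ball_zero_iff] at hz ⊢
    rw [norm_mul, Complex.norm_natCast]
    exact hdz k ‖z‖ (norm_nonneg _) hz
  have key := hJoin (Fin K) g (fun k => (d k : ℝ)) hg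
    (fun k => by have := hd k; exact_mod_cast (by omega : 0 < d k))
    (fun a b h => hinj (Nat.cast_injective (R := ℝ) h)) (Pfun V ρ) ε hε0 (by
      apply ident _ ε hε0
      · apply diff_eval
        intro o
        cases o with
        | none => exact differentiableOn_id
        | some q =>
          have h1 : DifferentiableOn ℂ (fun ψ => Mx (2 * g q.1) ψ q.2.1 q.2.2) (ball 0 1) :=
            (JOIN_.diffOn_Mx hYx hGeo (2 * g q.1) q.2.1 q.2.2).mono (hGeo (2 * g q.1)).2.2.1
          have h2 : DifferentiableOn ℂ (fun z : ℂ => (d q.1 : ℂ) * z) (ball 0 ε) :=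
            (differentiable_id.const_mul _).differentiableOn
          have h3 := h1.comp h2 (fun z hz => hball q.1 z hz)
          refine h3.congr ?_
          intro z _
          show Mx (2 * g q.1) (((d q.1 : ℝ) : ℂ) * z) q.2.1 q.2.2 =
            Mx (2 * g q.1) ((d q.1 : ℂ) * z) q.2.1 q.2.2
          rw [Complex.ofReal_natCast]
      · intro x hx0 hx
        refine (Pfun_eval V ρ (x : ℂ)
          (fun k => Mx (2 * g k) (((d k : ℝ) : ℂ) * (x : ℂ)))).trans ?_
        have habs : ∀ k, |(d k : ℝ) * x| < 1 := by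
          intro k
          rw [abs_of_nonneg (by positivity)]
          exact hdz k x hx0 hx
        have hconv : ∀ k p, Conv (Ys (2 * g k) p) (d k * x) := fun k p =>
          (hYVl (2 * g k) (hpos k) (d k * x) (habs k)).1 p
        have h1 := relY_val hVal d x hconv ρ hρ
        have h2 : ((∑ w, Polynomial.aeval x (ρ w) * ∏ e, fvv d x (w e) : ℝ) : ℂ) = 0 := by
          rw [h1]
          simp
        rw [← h2]
        push_cast
        apply Finset.sum_congr rfl
        intro w _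
        congr 1
        · have h3 := Polynomial.aeval_algebraMap_apply (A := ℝ) ℂ x (ρ w)
          simpa using h3
        · apply Finset.prod_congr rfl
          intro e _
          cases hwe : w e with
          | none => simp [fvv]
          | some v =>
            have h3 := (hYVl (2 * g v.1) (hpos v.1) (d v.1 * x) (habs v.1)).2
            have h4 : (d v.1 : ℂ) * (x : ℂ) = (((d v.1 : ℝ) * x : ℝ) : ℂ) := by
              push_cast
              ring
            simp only [Option.elim_some]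
            rw [h4, h3, Matrix.mul_assoc, hMV, Matrix.mul_one]
            rfl)
    z (fun k => by rw [Complex.ofReal_natCast]; exact hz k)
    (fun k => Y k * Mx (2 * g k) 0) (by
      intro k
      have h0 : (0 : ℂ) ∈ Om (2 * g k) := (hGeo (2 * g k)).2.2.1 (mem_ball_self one_pos)
      have h1 := hBil (2 * g k) (hpos k) (hev k) 0 h0
      unfold Tors at h1 ⊢
      rw [Complex.ofReal_natCast, Matrix.transpose_mul, Matrix.mul_assoc, Matrix.mul_assoc,
        ← Matrix.mul_assoc (Rm (2 * g k) (d k * z)), ← Matrix.mul_assoc (Y k).transpose,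
        ← Matrix.mul_assoc (Y k).transpose, hY k, ← Matrix.mul_assoc]
      exact h1)
  have key2 := (Pfun_eval V ρ z (fun k => Y k * Mx (2 * g k) 0)).symm.trans key
  rw [← key2]
  apply Finset.sum_congr rfl
  intro w _
  congr 1
  apply Finset.prod_congr rfl
  intro e _
  cases w e with
  | none => rfl
  | some v =>
    simp only [Option.elim_some]
    rw [Matrix.mul_assoc, hMV, Matrix.mul_one]

end FUNC_

theorem func_proof (hJoin : Stmt_Join) (hYVl : Stmt_YVl) (hVal : DGP.Stmt_Val)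
    (hBil : CYP.Stmt_BilO) (hQdet : CYP.Stmt_Qdet) (hYx : CYP.Stmt_Yx)
    (hGeo : CYP.Stmt_Geo) : Stmt_Func := by
  intro K g d hg hd hinj E ρ hρ z hz Y hY
  exact FUNC_.funct hJoin hYVl hVal hBil hQdet hYx hGeo d hg hd hinj ρ hρ z hz Y hY

end Pool.Agent.CYD
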