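import Pool.Agent.CYD.Stmts
import Pool.Agent.DGP.Span

set_option autoImplicit false

/-!
# CYD, module HDY: the derivatives of the fundamental matrix
-/

open scoped BigOperators Topology
open Metric Set

namespace Pool.Agent.CYD

open Pool.Agent.CYP
open Pool.Agent.DGP (GSys IsZ hd val Conv tens)

noncomputable section

namespace HDY_

open Pool.Agent.DGP.Span (hd_one hd_zero D_hd coe_der)

/-- the entries of `Bt (k + 1)` -/
theorem Bt_succ (n k : ℕ) (i l : Fin n) :
    Bt n (k + 1) i l = Polynomial.C (1 / ((k : ℚ) + 1)) *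
      (Tq n * Polynomial.derivative (Bt n k i l) + ∑ m, Bt n k i m * Aq n m l -
        Polynomial.C (k : ℚ) * Polynomial.derivative (Tq n) * Bt n k i l) := by
  simp only [Bt, Matrix.smul_apply, Matrix.sub_apply, Matrix.add_apply, Matrix.map_apply,
    Matrix.mul_apply, smul_eq_mul]

theorem step (n k : ℕ) (T : PowerSeries ℚ) (Y : Fin n → PowerSeries ℚ)
    (A : Fin n → Fin n → PowerSeries ℚ) (B : Fin n → PowerSeries ℚ) (h : PowerSeries ℚ)
    (hY : ∀ l, T * PowerSeries.derivative ℚ (Y l) = ∑ m, A l m * Y m)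
    (hk : T ^ k * h = ∑ l, B l * Y l) :
    T ^ (k + 1) * PowerSeries.derivative ℚ h =
      ∑ l, (T * PowerSeries.derivative ℚ (B l) + ∑ m, B m * A m l -
        (k : PowerSeries ℚ) * PowerSeries.derivative ℚ T * B l) * Y l := by
  have h1 := congrArg (fun f => T * PowerSeries.derivative ℚ f) hk
  simp only [map_sum, Derivation.leibniz, Derivation.leibniz_pow, smul_eq_mul] at h1
  have h2 : T * (T ^ k * PowerSeries.derivative ℚ h) =
      T * ∑ l, (B l * PowerSeries.derivative ℚ (Y l) + Y l * PowerSeries.derivative ℚ (B l)) -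
        (k : PowerSeries ℚ) * PowerSeries.derivative ℚ T * (T ^ k * h) := by
    rw [← h1]
    cases k with
    | zero => simp
    | succ k =>
      simp only [Nat.add_sub_cancel, nsmul_eq_mul]
      ring
  have h3 : T * ∑ l, (B l * PowerSeries.derivative ℚ (Y l) +
      Y l * PowerSeries.derivative ℚ (B l)) =
      ∑ l, (T * PowerSeries.derivative ℚ (B l)) * Y l + ∑ l, (∑ m, B m * A m l) * Y l := by
    have h4 : ∑ l, (∑ m, B m * A m l) * Y l = ∑ m, B m * ∑ l, A m l * Y l := by
      simp only [Finset.sum_mul, Finset.mul_sum]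
      rw [Finset.sum_comm]
      refine Finset.sum_congr rfl fun m _ => Finset.sum_congr rfl fun l _ => ?_
      ring
    rw [h4, Finset.mul_sum, ← Finset.sum_add_distrib]
    refine Finset.sum_congr rfl fun l _ => ?_
    rw [← hY l]
    ring
  rw [pow_succ, mul_assoc, mul_left_comm, h2, h3, hk, Finset.mul_sum, ← Finset.sum_add_distrib,
    ← Finset.sum_sub_distrib]
  refine Finset.sum_congr rfl fun l _ => ?_
  ring

end HDY_

open HDY_ Pool.Agent.DGP.Span in
theorem hdy_proof (h1 : Stmt_YOde) : Stmt_HdY := by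
  intro n hn k i j
  have hY : ∀ l, (Tq n : PowerSeries ℚ) * PowerSeries.derivative ℚ (Ys n (l, j)) =
      ∑ m, (Aq n l m : PowerSeries ℚ) * Ys n (m, j) := by
    intro l
    have := (h1 n hn l j).1
    rw [hd_one] at this
    exact this
  induction k with
  | zero =>
    rw [pow_zero, one_mul, hd_zero, Finset.sum_eq_single i]
    · simp [Bt]
    · intro b _ hb
      simp [Bt, Matrix.one_apply_ne hb.symm]
    · intro hi
      exact absurd (Finset.mem_univ i) hi
  | succ k ih =>
    have h2 := step n k (Tq n : PowerSeries ℚ) (fun l => Ys n (l, j))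
      (fun l m => (Aq n l m : PowerSeries ℚ)) (fun l => (Bt n k i l : PowerSeries ℚ))
      (hd k (Ys n (i, j))) hY ih
    rw [D_hd] at h2
    have hk0 : (k : ℚ) + 1 ≠ 0 := by positivity
    have h3 : hd (k + 1) (Ys n (i, j)) = PowerSeries.C (1 / ((k : ℚ) + 1)) *
        (((k + 1 : ℕ) : PowerSeries ℚ) * hd (k + 1) (Ys n (i, j))) := by
      rw [← mul_assoc]
      have : PowerSeries.C (1 / ((k : ℚ) + 1)) * ((k + 1 : ℕ) : PowerSeries ℚ) = 1 := by
        rw [← map_natCast (PowerSeries.C (R := ℚ)), ← map_mul]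
        push_cast
        rw [one_div_mul_cancel hk0, map_one]
      rw [this, one_mul]
    rw [h3, mul_left_comm, h2, Finset.mul_sum]
    refine Finset.sum_congr rfl fun l _ => ?_
    rw [Bt_succ, ← mul_assoc]
    congr 1
    have hsum : ((∑ m, Bt n k i m * Aq n m l : Polynomial ℚ) : PowerSeries ℚ) =
        ∑ m, (Bt n k i m : PowerSeries ℚ) * (Aq n m l : PowerSeries ℚ) := by
      have h5 := map_sum (Polynomial.coeToPowerSeries.ringHom (R := ℚ))
        (fun m => Bt n k i m * Aq n m l) Finset.univ
      rw [Polynomial.coeToPowerSeries.ringHom_apply] at h5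
      rw [h5]
      refine Finset.sum_congr rfl fun m _ => ?_
      rw [Polynomial.coeToPowerSeries.ringHom_apply, Polynomial.coe_mul]
    simp only [Polynomial.coe_mul, Polynomial.coe_sub, Polynomial.coe_add, Polynomial.coe_C,
      hsum, coe_der]
    have hkc : PowerSeries.C (k : ℚ) = (k : PowerSeries ℚ) := map_natCast _ k
    rw [hkc]

end

end Pool.Agent.CYD
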