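import Pool.Agent.CYD.CStmts
import Pool.Agent.DG2.INDXC

set_option autoImplicit false

/-!
# CYD, module INDY: the coordinates of the matrices `Z` satisfy no relation of bounded degree
-/

open scoped BigOperators Topology
open Metric Set

namespace Pool.Agent.CYD

open Pool.Agent.CYP
open Pool.Agent.DGP (GSys IsZ hd val Conv tens)

namespace INDY_

open Pool.Agent.HGP (Simil fvec mvec Aof)
open Pool.Agent.DGP.IndR (val_rescale conv_rescale conv_one conv_prod conv_sum conv_zero)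

variable {K : ℕ} {g : Fin K → ℕ}

/-- The variables: entries of the matrices `Y_k`. -/
abbrev VY (g : Fin K → ℕ) := Σ k, Fin (2 * g k) × Fin (2 * g k)

/-- The values of the full system. -/
noncomputable def fvv (d : Fin K → ℕ) (x : ℝ) (o : Option (VY g)) : ℝ :=
  o.elim 1 (fun v => val (Ys (2 * g v.1) v.2) (d v.1 * x))

theorem fullY_val (hVal : DGP.Stmt_Val) (d : Fin K → ℕ) (x : ℝ)
    (h : ∀ k p, Conv (Ys (2 * g k) p) (d k * x)) (o : Option (VY g)) :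
    Conv (fullY (n := fun k => 2 * g k) d o) x ∧
      val (fullY (n := fun k => 2 * g k) d o) x = fvv d x o := by
  cases o with
  | none => exact conv_one hVal x
  | some v =>
    have h1 : ((d v.1 : ℚ) : ℝ) * x = d v.1 * x := by push_cast; ring
    constructor
    · show Conv (PowerSeries.rescale (d v.1 : ℚ) (Ys (2 * g v.1) v.2)) x
      apply conv_rescale
      rw [h1]
      exact h v.1 v.2
    · show val (PowerSeries.rescale (d v.1 : ℚ) (Ys (2 * g v.1) v.2)) x = _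
      rw [val_rescale, h1]
      rfl

theorem tensY_val (hVal : DGP.Stmt_Val) (d : Fin K → ℕ) (x : ℝ)
    (h : ∀ k p, Conv (Ys (2 * g k) p) (d k * x)) {E : ℕ} (w : Fin E → Option (VY g)) :
    Conv (tens (fullY (n := fun k => 2 * g k) d) E w) x ∧
      val (tens (fullY (n := fun k => 2 * g k) d) E w) x = ∏ e, fvv d x (w e) := by
  unfold tens
  obtain ⟨h1, h2⟩ := conv_prod hVal x Finset.univ
    (fun e => fullY (n := fun k => 2 * g k) d (w e))
    (fun e _ => (fullY_val hVal d x h (w e)).1)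
  refine ⟨h1, ?_⟩
  rw [h2]
  exact Finset.prod_congr rfl (fun e _ => (fullY_val hVal d x h (w e)).2)

/-- The matrices `Y` with `F(x)ᵀ Y F'(0) = M`. -/
noncomputable def Yb {g : ℕ} (F F' : Matrix (Fin (2 * g)) (Ix g) (Polynomial ℤ)) (x : ℂ)
    (M : Matrix (Ix g) (Ix g) ℂ) : Matrix (Fin (2 * g)) (Fin (2 * g)) ℂ :=
  ((1 - x ^ (2 * g + 1)) ^ g)⁻¹ • (ev F' x * M * (ev F 0).transpose)

theorem inv2' {g : ℕ} {F F' : Matrix (Fin (2 * g)) (Ix g) (Polynomial ℤ)} (h : IsF g F F')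
    (x : ℂ) : (ev F x).transpose * ev F' x =
      ((1 - x ^ (2 * g + 1)) ^ g) • (1 : Matrix (Ix g) (Ix g) ℂ) := by
  have h1 := congrArg Matrix.transpose (h.inv2 x)
  rw [Matrix.transpose_mul, Matrix.transpose_transpose, Matrix.transpose_smul,
    Matrix.transpose_one] at h1
  exact h1

theorem one0 (g : ℕ) : ((1 : ℂ) - 0 ^ (2 * g + 1)) ^ g = 1 := by
  rw [zero_pow (by omega), sub_zero, one_pow]

theorem Yb_mul {g : ℕ} {F F' : Matrix (Fin (2 * g)) (Ix g) (Polynomial ℤ)} (h : IsF g F F')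
    {x : ℂ} (hx : (1 - x ^ (2 * g + 1)) ^ g ≠ 0) (M : Matrix (Ix g) (Ix g) ℂ) :
    (ev F x).transpose * Yb F F' x M * ev F' 0 = M := by
  have h1 := inv2' h x
  have h2 := inv2' h 0
  rw [one0, one_smul] at h2
  unfold Yb
  rw [Matrix.mul_smul, Matrix.smul_mul]
  have h3 : (ev F x).transpose * (ev F' x * M * (ev F 0).transpose) * ev F' 0
      = ((ev F x).transpose * ev F' x) * M * ((ev F 0).transpose * ev F' 0) := by
    simp only [Matrix.mul_assoc]
  rw [h3, h1, h2, Matrix.mul_one, Matrix.smul_mul, Matrix.one_mul, smul_smul,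
    inv_mul_cancel₀ hx, one_smul]

theorem Yb_form {g : ℕ} {F F' : Matrix (Fin (2 * g)) (Ix g) (Polynomial ℤ)} (h : IsF g F F')
    {x : ℂ} (hx : (1 - x ^ (2 * g + 1)) ^ g ≠ 0) {M : Matrix (Ix g) (Ix g) ℂ}
    (hM : Simil 1 M) :
    (Yb F F' x M).transpose * Rm (2 * g) x * Yb F F' x M = Rm (2 * g) 0 := by
  unfold Simil at hM
  rw [one_smul] at hM
  set s : ℂ := (1 - x ^ (2 * g + 1)) ^ g with hs
  have h0 := h.rel 0
  have hX := h.rel x
  have h1 := inv2' h x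
  rw [← hs] at h1
  have h2 : (ev F' x).transpose * ev F x = s • (1 : Matrix (Ix g) (Ix g) ℂ) := h.inv2 x
  have hY : Yb F F' x M = s⁻¹ • (ev F' x * M * (ev F 0).transpose) := rfl
  have hYt : (Yb F F' x M).transpose = s⁻¹ • (ev F 0 * M.transpose * (ev F' x).transpose) := by
    rw [hY, Matrix.transpose_smul, Matrix.transpose_mul, Matrix.transpose_mul,
      Matrix.transpose_transpose, Matrix.mul_assoc]
  rw [← hX, hYt, hY]
  simp only [Matrix.smul_mul, Matrix.mul_smul, smul_smul]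
  have h3 : ev F 0 * M.transpose * (ev F' x).transpose *
      (ev F x * Matrix.J (Fin g) ℂ * (ev F x).transpose) *
      (ev F' x * M * (ev F 0).transpose) =
      ev F 0 * M.transpose * ((ev F' x).transpose * ev F x) * Matrix.J (Fin g) ℂ *
        ((ev F x).transpose * ev F' x) * M * (ev F 0).transpose := by
    simp only [Matrix.mul_assoc]
  rw [h3, h1, h2]
  simp only [Matrix.smul_mul, Matrix.mul_smul, smul_smul, Matrix.mul_one]
  have h4 : ev F 0 * M.transpose * Matrix.J (Fin g) ℂ * M * (ev F 0).transpose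
      = ev F 0 * (M.transpose * Matrix.J (Fin g) ℂ * M) * (ev F 0).transpose := by
    simp only [Matrix.mul_assoc]
  rw [h4, hM, h0]
  have h7 : ∀ c : ℂ, c = 1 → c • Rm (2 * g) 0 = Rm (2 * g) 0 := by
    intro c hc
    rw [hc, one_smul]
  apply h7
  field_simp

/-- The rational matrix `F(x)ᵀ`. -/
noncomputable def Aq' {g : ℕ} (F : Matrix (Fin (2 * g)) (Ix g) (Polynomial ℤ)) (x : ℚ) :
    Matrix (Ix g) (Fin (2 * g)) ℚ := (F.map fun p => Polynomial.aeval x p).transpose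

/-- The rational matrix `F'(x)`. -/
noncomputable def Bq' {g : ℕ} (F : Matrix (Fin (2 * g)) (Ix g) (Polynomial ℤ)) (x : ℚ) :
    Matrix (Fin (2 * g)) (Ix g) ℚ := F.map fun p => Polynomial.aeval x p

theorem aeval_cast (x : ℚ) (p : Polynomial ℤ) :
    ((Polynomial.aeval x p : ℚ) : ℂ) = Polynomial.aeval (x : ℂ) p := by
  have h1 := Polynomial.aeval_algebraMap_apply (A := ℚ) ℂ x p
  simpa using h1.symm

theorem Bq_cast {g : ℕ} (F : Matrix (Fin (2 * g)) (Ix g) (Polynomial ℤ)) (x : ℚ) :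
    (Bq' F x).map (fun x : ℚ => (x : ℂ)) = ev F (x : ℂ) := by
  ext i j
  simp only [Bq', ev, Matrix.map_apply]
  exact aeval_cast x _

theorem Aq_cast {g : ℕ} (F : Matrix (Fin (2 * g)) (Ix g) (Polynomial ℤ)) (x : ℚ) :
    (Aq' F x).map (fun x : ℚ => (x : ℂ)) = (ev F (x : ℂ)).transpose := by
  ext i j
  simp only [Aq', ev, Matrix.map_apply, Matrix.transpose_apply]
  exact aeval_cast x _

theorem pow_lt (x : ℝ) (h0 : 0 < x) (h1 : x < 1) (n : ℕ) : 1 - x ^ (n + 1) ≠ 0 := by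
  have h2 : x ^ (n + 1) < 1 := pow_lt_one₀ h0.le h1 (by omega)
  linarith

end INDY_

open INDY_ in
open Pool.Agent.HGP (Simil fvec mvec Aof) in
theorem indy_proof (hFunc : Stmt_Func) (hTrf : Stmt_TrfQ) (hFul : Stmt_FulY) (hZs : Stmt_ZsY)
    (hYv : Stmt_YVl) (hAA : DGP.Stmt_AA) (hVal : DGP.Stmt_Val) (hWord : DGP.Stmt_Word)
    (hCellB : HGP.Stmt_CellB) : Stmt_IndY := by
  intro K g F F' hg hF E
  choose ρz hρz0 hρz1 hZdet using fun k => (hZs (g k) (F k) (F' k) (hg k) (hF k)).2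
  obtain ⟨ρ₁', hρ₁', hρ₁le'⟩ := DG2.INDX_.exists_le ρz ρz hρz0 hρz0
  set ρ₁ : ℝ := min ρ₁' 1 with hρ₁def
  have hρ₁ : 0 < ρ₁ := lt_min hρ₁' one_pos
  have hρ₁1 : ρ₁ ≤ 1 := min_le_right _ _
  have hρ₁le : ∀ k, ρ₁ ≤ ρz k := fun k => le_trans (min_le_left _ _) (hρ₁le' k).1
  obtain ⟨E1, hE1⟩ := hTrf K g E
  obtain ⟨C, e, τ, hC⟩ := hFul K (fun k => 2 * g k)
    (fun k => ⟨by have := hg k; omega, even_two_mul _⟩) E1
  obtain ⟨κ, hκ⟩ := hAA (Fin E1 → Option (VY g)) τ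
  set δ : ℝ := 1 / (2 * ((K : ℝ) * e * κ + 1)) with hδ
  have hδpos : 0 < δ := by positivity
  have hδhalf : δ ≤ 1 / 2 := by
    rw [hδ]
    apply one_div_le_one_div_of_le (by norm_num)
    have : (0 : ℝ) ≤ (K : ℝ) * e * κ := by positivity
    linarith
  have hδκ : (K : ℝ) * δ * e * κ ≤ 1 / 2 := by
    have h1 : (K : ℝ) * δ * e * κ = ((K : ℝ) * e * κ) / (2 * ((K : ℝ) * e * κ + 1)) := by
      rw [hδ]; ring
    rw [h1, div_le_div_iff₀ (by positivity) (by norm_num)]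
    have : (0 : ℝ) ≤ (K : ℝ) * e * κ := by positivity
    linarith
  refine ⟨δ, hδpos, max ((C + 1) ^ (2 * κ)) (⌈1 / ρ₁ ^ 2⌉₊ + 2), ?_⟩
  intro n hn ρ hinj hρ Q hQ0 hQdeg hQval
  have hnC : (C + 1) ^ (2 * κ) ≤ n := le_trans (le_max_left _ _) hn
  have hn2 : ⌈1 / ρ₁ ^ 2⌉₊ + 2 ≤ n := le_trans (le_max_right _ _) hn
  have hn1N : 1 ≤ n := by omega
  have hn1 : (1 : ℝ) ≤ n := by exact_mod_cast hn1N
  have hnpos : (0 : ℝ) < n := by linarith
  obtain ⟨ed, d, hed, hdr, hd1, hdle⟩ := DG2.INDX_.numbers K n δ ρ hρ hn1N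
  have hedne : (ed : ℝ) ≠ 0 := by
    have : 0 < ed := hed
    exact_mod_cast this.ne'
  set n' : ℕ := n * ed with hn'
  have hn'pos : (0 : ℝ) < n' := by
    rw [hn']
    push_cast
    have : (0 : ℝ) < ed := by exact_mod_cast hed
    positivity
  have hdz : ∀ k, (d k : ℝ) * (1 / (n' : ℝ)) = (ρ k : ℝ) / n := by
    intro k
    have h3 : (d k : ℝ) = (ρ k : ℝ) * ed := by exact_mod_cast hdr k
    rw [h3, hn']
    push_cast
    field_simp
  have hdzQ : ∀ k, (d k : ℚ) * (1 / (n' : ℚ)) = ρ k / n := by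
    intro k
    have h4b : (ed : ℚ) ≠ 0 := by exact_mod_cast hedne
    rw [hdr, hn']
    push_cast
    field_simp
  have hdzC : ∀ k, (d k : ℂ) * (1 / (n' : ℂ)) = (((ρ k : ℝ) / n : ℝ) : ℂ) := by
    intro k
    rw [← hdz k]
    push_cast
    ring
  have hdinj : Function.Injective d := by
    intro k l hkl
    apply hinj
    have h3 := hdr k
    rw [hkl, hdr l] at h3
    have h4b : (ed : ℚ) ≠ 0 := by exact_mod_cast hedne
    exact (mul_right_cancel₀ h4b h3).symm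
  have hsm : ∀ k, (0 : ℝ) < (ρ k : ℝ) / n ∧ (ρ k : ℝ) / n < ρ₁ := fun k =>
    DG2.INDX_.small n ρ₁ δ hρ₁ hδhalf hn2 (ρ k) (hρ k).1 (hρ k).2
  have hlt1 : ∀ k, (ρ k : ℝ) / n < 1 := fun k => lt_of_lt_of_le (hsm k).2 hρ₁1
  have habs : ∀ k, |(ρ k : ℝ) / n| < 1 := fun k => by
    rw [abs_of_pos (hsm k).1]
    exact hlt1 k
  have hxQ : ∀ k, ((ρ k / n : ℚ) : ℂ) = (((ρ k : ℝ) / n : ℝ) : ℂ) := by
    intro k
    push_cast
    rfl
  -- the bound `b`
  set b : ℕ := ⌊(n : ℝ) ^ ((K : ℝ) * δ)⌋₊ with hb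
  have hb1 : 1 ≤ b := by
    rw [hb]
    apply Nat.le_floor
    simpa using Real.one_le_rpow hn1 (by positivity : (0 : ℝ) ≤ (K : ℝ) * δ)
  have hbn : (b : ℝ) ≤ (n : ℝ) ^ ((K : ℝ) * δ) := Nat.floor_le (by positivity)
  obtain ⟨e₀, c₀, hG⟩ := hC d b hb1 (fun k => ⟨hd1 k, Nat.le_floor (hdle k)⟩)
  have hH := DG2.INDX_.heights K C e κ n n' b δ hn1N hnC hbn hδκ (by
    rw [hn']
    exact Nat.le_mul_of_pos_right n hed)
  -- the denominators do not vanish
  have hTne : (∏ k, Td (2 * g k) (d k)).eval (1 / (n' : ℚ)) ≠ 0 := by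
    rw [Polynomial.eval_prod]
    apply Finset.prod_ne_zero_iff.mpr
    intro k _
    have h3 : (Td (2 * g k) (d k)).eval (1 / (n' : ℚ))
        = 1 - (ρ k / n) ^ (2 * g k + 1) := by
      unfold Td
      simp only [Polynomial.eval_sub, Polynomial.eval_one, Polynomial.eval_mul,
        Polynomial.eval_C, Polynomial.eval_pow, Polynomial.eval_X]
      rw [← mul_pow, hdzQ]
    rw [h3]
    intro h4
    apply pow_lt ((ρ k : ℝ) / n) (hsm k).1 (hlt1 k) (2 * g k)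
    exact_mod_cast h4
  -- convergence
  have hconv : ∀ k p, Conv (Ys (2 * g k) p) (d k * (1 / (n' : ℝ))) := by
    intro k p
    apply (hYv (2 * g k) (by have := hg k; omega) _ ?_).1 p
    rw [hdz]
    exact habs k
  -- words
  obtain ⟨Q1, hQ1deg, hQ1⟩ := hE1 (fun k => Aq' (F k) (ρ k / n)) (fun k => Bq' (F' k) 0) Q hQdeg
  obtain ⟨a, ha⟩ := hWord (VY g) E1 Q1 hQ1deg
  have hword : ∀ y : VY g → ℂ, MvPolynomial.aeval y Q1
      = ∑ w, (a w : ℂ) * ∏ e, ((w e).elim 1 y : ℂ) := by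
    intro y
    rw [ha, map_sum]
    apply Finset.sum_congr rfl
    intro w _
    rw [map_mul, map_prod, MvPolynomial.aeval_C]
    congr 1
    apply Finset.prod_congr rfl
    intro e' _
    cases w e' <;> simp
  have hAB : ∀ (Y : ∀ k, Matrix (Fin (2 * g k)) (Fin (2 * g k)) ℂ) k,
      (Aq' (F k) (ρ k / n)).map (fun x : ℚ => (x : ℂ)) * Y k *
        (Bq' (F' k) 0).map (fun x : ℚ => (x : ℂ)) =
      (ev (F k) (((ρ k : ℝ) / n : ℝ) : ℂ)).transpose * Y k * ev (F' k) 0 := by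
    intro Y k
    rw [Aq_cast, Bq_cast, hxQ k, Rat.cast_zero]
  -- the value
  have hdetZ : ∀ k, (Zm (F k) (F' k) ((ρ k : ℝ) / n)).toBlocks₁₁.det ≠ 0 := by
    intro k
    apply hZdet k
    rw [abs_of_pos (hsm k).1]
    exact lt_of_lt_of_le (hsm k).2 (hρ₁le k)
  have hval0 : MvPolynomial.aeval (fun v : VY g =>
      Yv (2 * g v.1) ((ρ v.1 : ℝ) / n) v.2.1 v.2.2) Q1 = (0 : ℂ) := by
    have h1 := hQ1 (fun k => Yv (2 * g k) ((ρ k : ℝ) / n)) (fun k => by
      rw [hAB (fun k => Yv (2 * g k) ((ρ k : ℝ) / n))]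
      exact hdetZ k)
    rw [h1]
    have h3 : (fun p : Σ k, Idx (g k) => fvec ((Aq' (F p.1) (ρ p.1 / n)).map
        (fun x : ℚ => (x : ℂ)) * Yv (2 * g p.1) ((ρ p.1 : ℝ) / n) *
        (Bq' (F' p.1) 0).map (fun x : ℚ => (x : ℂ))) p.2)
        = fun p => fvec (Zm (F p.1) (F' p.1) ((ρ p.1 : ℝ) / n)) p.2 := by
      funext p
      rw [hAB (fun k => Yv (2 * g k) ((ρ k : ℝ) / n))]
      rfl
    rw [h3, hQval, mul_zero]
  have hrel : ∑ w, (a w : ℝ) * val (tens (fullY (n := fun k => 2 * g k) d) E1 w)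
      (1 / (n' : ℝ)) = 0 := by
    have h3 := hword (fun v : VY g => Yv (2 * g v.1) ((ρ v.1 : ℝ) / n) v.2.1 v.2.2)
    rw [hval0] at h3
    have h4 : ((∑ w, (a w : ℝ) * val (tens (fullY (n := fun k => 2 * g k) d) E1 w)
        (1 / (n' : ℝ)) : ℝ) : ℂ) = 0 := by
      rw [h3]
      push_cast
      apply Finset.sum_congr rfl
      intro w _
      congr 1
      rw [show (1 : ℝ) / (n' : ℝ) = 1 / (n' : ℝ) from rfl,
        (tensY_val hVal d _ hconv w).2]
      push_cast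
      apply Finset.prod_congr rfl
      intro e' _
      cases w e' with
      | none => simp [fvv]
      | some v =>
        simp only [fvv, Option.elim_some, hdz]
        rfl
    exact_mod_cast h4
  obtain ⟨ρf, hρ1, hρ2⟩ := hκ (tens (fullY (n := fun k => 2 * g k) d) E1)
    (∏ k, Td (2 * g k) (d k)) e₀ c₀ _ hG
    ⟨fun _ => none, by simp [tens, fullY]⟩ n' hH hTne a hrel
  -- a point of the big cell
  obtain ⟨w, hw1, hw2⟩ := DG2.INDX_.exists_cell Q hQ0
  let Zc : ∀ k, Matrix (Ix (g k)) (Ix (g k)) ℂ := fun k => mvec (fun x => w ⟨k, x⟩) 1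
  have hZc : ∀ k, Simil 1 (Zc k) ∧ (Zc k).toBlocks₁₁ = Aof (fun x => w ⟨k, x⟩) ∧
      fvec (Zc k) = fun x => w ⟨k, x⟩ := fun k => hCellB (g k) _ 1 (hw1 k)
  have hxne : ∀ k, (1 - (((ρ k : ℝ) / n : ℝ) : ℂ) ^ (2 * g k + 1)) ^ (g k) ≠ 0 := by
    intro k
    apply pow_ne_zero
    have h3 := pow_lt ((ρ k : ℝ) / n) (hsm k).1 (hlt1 k) (2 * g k)
    exact_mod_cast h3
  let Yk : ∀ k, Matrix (Fin (2 * g k)) (Fin (2 * g k)) ℂ := fun k =>
    Yb (F k) (F' k) (((ρ k : ℝ) / n : ℝ) : ℂ) (Zc k)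
  have hZy1 : ∀ k, (Aq' (F k) (ρ k / n)).map (fun x : ℚ => (x : ℂ)) * Yk k *
        (Bq' (F' k) 0).map (fun x : ℚ => (x : ℂ)) = Zc k := by
    intro k
    rw [hAB]
    exact Yb_mul (hF k) (hxne k) (Zc k)
  have hne : MvPolynomial.aeval (fun v : VY g => Yk v.1 v.2.1 v.2.2) Q1 ≠ (0 : ℂ) := by
    have h1 := hQ1 Yk (fun k => by rw [hZy1, (hZc k).2.1]; exact hw1 k)
    rw [h1]
    apply mul_ne_zero
    · apply pow_ne_zero
      apply Finset.prod_ne_zero_iff.mpr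
      intro k _
      rw [hZy1, (hZc k).2.1]
      exact hw1 k
    · have h3 : (fun p : Σ k, Idx (g k) => fvec ((Aq' (F p.1) (ρ p.1 / n)).map
          (fun x : ℚ => (x : ℂ)) * Yk p.1 *
          (Bq' (F' p.1) 0).map (fun x : ℚ => (x : ℂ))) p.2) = w := by
        funext p
        rw [hZy1, (hZc p.1).2.2]
      rw [h3]
      exact hw2
  apply hne
  rw [hword]
  have hfun := hFunc K g d hg hd1 hdinj E1 ρf hρ1 (1 / (n' : ℂ)) (by
      intro k
      rw [hdzC, Complex.norm_real, Real.norm_eq_abs]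
      exact habs k) Yk (fun k => by
      rw [hdzC]
      exact Yb_form (hF k) (hxne k) (hZc k).1)
  rw [← hfun]
  apply Finset.sum_congr rfl
  intro w' _
  congr 1
  have h3 : Polynomial.aeval (1 / (n' : ℂ)) (ρf w')
      = (((ρf w').eval (1 / (n' : ℚ)) : ℚ) : ℂ) := by
    have h7 : (1 / (n' : ℂ)) = algebraMap ℚ ℂ (1 / (n' : ℚ)) := by simp
    rw [h7, Polynomial.aeval_algebraMap_apply, Polynomial.coe_aeval_eq_eval]
    simp
  rw [h3, hρ2 w']

end Pool.Agent.CYD
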