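import Pool.Agent.CYD.Stmts
import Pool.Agent.CYP.JUMP

/-!
# CYD, module JMPP: the connection matrix across the cut, relations with parameters
-/

set_option autoImplicit false

open scoped BigOperators Topology
open Metric Set

namespace Pool.Agent.CYD

open Pool.Agent.CYP

noncomputable section

namespace JMPP_

theorem diff_evalP {σ α : Type} {U : Set ℂ} {f : σ → ℂ → ℂ} {F : ℂ → α → ℂ}
    (hf : ∀ i, DifferentiableOn ℂ (f i) U)
    (hF : ∀ a, DifferentiableOn ℂ (fun z => F z a) U) (P : MvPolynomial (σ ⊕ α) ℂ) :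
    DifferentiableOn ℂ (fun z => MvPolynomial.eval (Sum.elim (fun i => f i z) (F z)) P) U := by
  induction P using MvPolynomial.induction_on with
  | C c =>
    simp only [MvPolynomial.eval_C]
    exact differentiableOn_const c
  | add p q hp hq =>
    simp only [map_add]
    exact hp.add hq
  | mul_X p o hp =>
    simp only [map_mul, MvPolynomial.eval_X]
    refine hp.mul ?_
    cases o with
    | inl i => exact hf i
    | inr a => exact hF a

theorem exists_pt {η ρ : ℝ} (hη : 0 < η) (hρ : 1 < ρ) : ∃ a b : ℝ, 1 < a ∧ 0 < b ∧ b < η * a ∧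
    a + b < ρ := by
  refine ⟨(1 + ρ) / 2, min (η / 2) ((ρ - 1) / 4), by linarith, ?_, ?_, ?_⟩
  · exact lt_min (by linarith) (by linarith)
  · have h1 : min (η / 2) ((ρ - 1) / 4) ≤ η / 2 := min_le_left _ _
    nlinarith
  · have h1 : min (η / 2) ((ρ - 1) / 4) ≤ (ρ - 1) / 4 := min_le_right _ _
    linarith

theorem mem_ball_pt {a b ρ : ℝ} (ha : 0 < a) (h : a + |b| < ρ) : (⟨a, b⟩ : ℂ) ∈ ball (0 : ℂ) ρ := by
  rw [mem_ball_zero_iff]
  have h1 := Complex.norm_le_abs_re_add_abs_im (⟨a, b⟩ : ℂ)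
  have h2 : |(⟨a, b⟩ : ℂ).re| = a := abs_of_pos ha
  have h3 : |(⟨a, b⟩ : ℂ).im| = |b| := rfl
  rw [h2, h3] at h1
  linarith

end JMPP_

open JUMP_ JMPP_ in
theorem jmpp_proof (hSolO : CYP.Stmt_SolO) (hBilO : CYP.Stmt_BilO) (hSec : CYP.Stmt_Sec)
    (hGeo : CYP.Stmt_Geo) (hNx : CYP.Stmt_Nx) (hYx : CYP.Stmt_Yx) (hCauc : CYP.Stmt_Cauc)
    (hQdet : CYP.Stmt_Qdet) (hLode : GPH.Stmt_Lode) (hUniq : GPH.Stmt_Uniq) : Stmt_JmpP := by
  intro n i0 hn hi0
  have hn0 : 0 < n := Fin.pos i0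
  obtain ⟨hO, hOstar, hOball, _, _⟩ := hGeo n
  obtain ⟨η, U, h, hη, hUD, hU1, hU2, hOm, h1, h2, h3⟩ :=
    jumpU hSolO hBilO hSec hGeo hNx hYx hCauc hQdet hLode hUniq n i0 hn hi0
  refine ⟨h, h1, h2, h3, ?_⟩
  intro σ _ ρ f P hρ hf hP
  have hρ0 : 0 < ρ := by linarith
  obtain ⟨a, b, ha, hb, hba, hab⟩ := exists_pt hη hρ
  have ha0 : 0 < a := by linarith
  -- points above and below
  have hup : (⟨a, b⟩ : ℂ) ∈ Up η ∩ ball (0 : ℂ) ρ := by
    refine ⟨⟨⟨ha, ?_⟩, hb⟩, mem_ball_pt ha0 (by rwa [abs_of_pos hb])⟩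
    show |b| < η * a
    rwa [abs_of_pos hb]
  have hlo : (⟨a, -b⟩ : ℂ) ∈ Lo η ∩ ball (0 : ℂ) ρ := by
    refine ⟨⟨⟨ha, ?_⟩, ?_⟩, mem_ball_pt ha0 (by rwa [abs_neg, abs_of_pos hb])⟩
    · show |-b| < η * a
      rwa [abs_neg, abs_of_pos hb]
    · show -b < 0
      linarith
  have hDo : IsOpen (Sec η ∩ ball (0 : ℂ) ρ) := (sec_open η).inter isOpen_ball
  have hDp : IsPreconnected (Sec η ∩ ball (0 : ℂ) ρ) :=
    ((sec_convex η).inter (convex_ball 0 ρ)).isPreconnected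
  have hBo : IsOpen (Om n ∩ ball (0 : ℂ) ρ) := hO.inter isOpen_ball
  have hBp : IsPreconnected (Om n ∩ ball (0 : ℂ) ρ) := by
    have hs : StarConvex ℝ (0 : ℂ) (Om n ∩ ball (0 : ℂ) ρ) :=
      hOstar.inter ((convex_ball (0 : ℂ) ρ).starConvex (mem_ball_self hρ0))
    exact (hs.isPathConnected ⟨hOball (by simp), mem_ball_self hρ0⟩).isConnected.isPreconnected
  have h4 : ∀ ψ ∈ Sec η ∩ ball (0 : ℂ) ρ,
      MvPolynomial.eval (Sum.elim (fun i => f i ψ) (fun p : Fin n × Fin n => U ψ p.1 p.2)) P = 0 := by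
    refine ident hDo hDp (g := fun _ => 0)
      (diff_evalP (F := fun z (p : Fin n × Fin n) => U z p.1 p.2)
        (fun i => (hf i).mono inter_subset_right) (fun p => (hUD p.1 p.2).mono inter_subset_left) P)
      (differentiableOn_const 0) ((up_open η).inter isOpen_ball)
      (inter_subset_inter_left _ inter_subset_left) hup fun z hz => ?_
    have h5 := hP z ⟨hOm z hz.1.1 (ne_of_gt hz.1.2), hz.2⟩
    rw [Matrix.mul_one] at h5
    rw [hU1 z hz.1.1 hz.1.2]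
    exact h5
  have h5 : ∀ i j, DifferentiableOn ℂ (fun z => (Mx n z * h) i j) (Om n) := fun i j =>
    mul_diff (fun i j => msol_diff (hSolO n hn0) i j) (fun i j => differentiableOn_const (h i j))
      i j
  refine ident hBo hBp (g := fun _ => 0)
    (diff_evalP (F := fun z (p : Fin n × Fin n) => (Mx n z * h) p.1 p.2)
      (fun i => (hf i).mono inter_subset_right)
      (fun p => (h5 p.1 p.2).mono inter_subset_left) P)
    (differentiableOn_const 0) ((lo_open η).inter isOpen_ball)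
    (fun z hz => ⟨hOm z hz.1.1 (ne_of_lt hz.1.2), hz.2⟩) hlo fun z hz => ?_
  rw [← hU2 z hz.1.1 hz.1.2]
  exact h4 z ⟨hz.1.1, hz.2⟩

end

end Pool.Agent.CYD
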