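import Pool.Agent.CYD.CStmts
import Pool.Agent.DG2.MAINC

set_option autoImplicit false

/-!
# CYD, module MAINY: the main theorem for rational coefficients
-/

open scoped BigOperators Topology
open Metric Set

namespace Pool.Agent.CYD

open Pool.Agent.CYP
open Pool.Agent.HGP (Simil fvec mvec Aof opt)

open Pool.Agent.DG2.MAINC_ Pool.Agent.DG2.INDX_ in
theorem mainy_proof (hInd : Stmt_IndY) (hExc : Stmt_ExcW) (hZsY : Stmt_ZsY)
    (hEl : DG2.Stmt_ElC) : Stmt_MainY := by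
  classical
  intro nF G hg F F' E E' hRef r φ D
  obtain ⟨D', hD'⟩ := hExc nF G (fun a => 2 * G a - 1) r φ D
  obtain ⟨E1, hE⟩ := hEl (Option (Σ a, Idx (G a))) (Σ i : Fin r, Idx (G (φ i))) D'
  have hq := card_theta G
  set q := Fintype.card (Option (Σ a, Idx (G a))) with hqdef
  choose hZ1 ρz hρz0 hρz1 hZdet using
    fun a => hZsY (G a) (F a) (F' a) (hg a) (hRef a).isF
  obtain ⟨ρ₂, hρ₂, hρ₂le⟩ := exists_le ρz ρz hρz0 hρz0
  obtain ⟨ρ₁, hρ₁, hρ₁le, hρ₁1⟩ : ∃ ρ₁ : ℝ, 0 < ρ₁ ∧ (∀ a, ρ₁ ≤ ρz a) ∧ ρ₁ ≤ 1 :=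
    ⟨min ρ₂ 1, lt_min hρ₂ one_pos, fun a => le_trans (min_le_left _ _) (hρ₂le a).1,
      min_le_right _ _⟩
  let e' : Fin (q + 1) × Fin r ≃ Fin ((q + 1) * r) := finProdFinEquiv
  obtain ⟨δ, hδ, n₁, hn₁⟩ := hInd ((q + 1) * r) (fun k => G (φ (e'.symm k).2))
    (fun k => F (φ (e'.symm k).2)) (fun k => F' (φ (e'.symm k).2)) (fun k => hg _)
    (fun k => (hRef _).isF) E1
  refine ⟨min δ (1 / 2), lt_min hδ (by norm_num), max n₁ (⌈1 / ρ₁ ^ 2⌉₊ + 2), ?_⟩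
  intro n hn
  have hnn₁ : n₁ ≤ n := le_trans (le_max_left _ _) hn
  have hn2 : ⌈1 / ρ₁ ^ 2⌉₊ + 2 ≤ n := le_trans (le_max_right _ _) hn
  have hn1N : 1 ≤ n := by omega
  have hn1 : (1 : ℝ) ≤ n := by exact_mod_cast hn1N
  have hnpos : (0 : ℝ) < n := by linarith
  have hsm : ∀ x : ℚ, 0 < x → DG2.Ht n (min δ (1 / 2)) x →
      (0 : ℝ) < (x : ℝ) / n ∧ (x : ℝ) / n < ρ₁ := fun x hx hH =>
    small n ρ₁ _ hρ₁ (min_le_right _ _) hn2 x hx hH
  have hcast : ∀ x : ℚ, (((x / n : ℚ)) : ℂ) = (((x : ℝ) / n : ℝ) : ℂ) := by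
    intro x
    push_cast
    ring
  have hball : ∀ x : ℚ, 0 < x → DG2.Ht n (min δ (1 / 2)) x → ‖((x / n : ℚ) : ℂ)‖ < 1 := by
    intro x hx hH
    obtain ⟨h3, h4⟩ := hsm x hx hH
    rw [hcast, Complex.norm_real, Real.norm_eq_abs, abs_of_pos h3]
    exact lt_of_lt_of_le h4 hρ₁1
  by_contra hcon
  push Not at hcon
  -- the tuples
  obtain ⟨T, hT1, hT2⟩ := DGP.Main.greedy r q (fun ρ =>
      Function.Injective ρ ∧
      (∀ i, 0 < ρ i ∧ DG2.Ht n (min δ (1 / 2)) (ρ i)) ∧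
      ∃ P, IsRelW (g := fun i => G (φ i)) (fun i => 2 * G (φ i) - 1) D (fun i =>
      Ps (F (φ i)) (E' (φ i)) ((ρ i / n : ℚ) : ℂ) (Mx (2 * G (φ i)) ((ρ i / n : ℚ) : ℂ))) P)
    (by
    intro S hS
    obtain ⟨ρ, hρ1, hρ2, hρ3⟩ := hcon S (by rw [← hq, mul_comm]; exact hS)
    obtain ⟨P, hP⟩ := hρ3 (fun i => hball (ρ i) (hρ2 i).1 (hρ2 i).2.2)
    exact ⟨ρ, ⟨hρ1, fun i => ⟨(hρ2 i).1, (hρ2 i).2.2⟩, P, hP⟩, fun i => (hρ2 i).2.1⟩)
    (q + 1) le_rfl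
  -- the matrices
  let M0 : ∀ a, Matrix (Ix (G a)) (Ix (G a)) ℂ := fun a => Ps (F a) (E' a) 0 (Mx (2 * G a) 0)
  let Zt : ∀ (_ : Fin (q + 1)) (j : Fin r), Matrix (Ix (G (φ j))) (Ix (G (φ j))) ℂ :=
    fun i j => Zm (F (φ j)) (F' (φ j)) ((T i j : ℝ) / n)
  have hsmT : ∀ i j, (0 : ℝ) < (T i j : ℝ) / n ∧ (T i j : ℝ) / n < ρ₁ := fun i j =>
    hsm (T i j) ((hT1 i).2.1 j).1 ((hT1 i).2.1 j).2
  have habs1 : ∀ i j, |(T i j : ℝ) / n| < 1 := by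
    intro i j
    rw [abs_of_pos (hsmT i j).1]
    exact lt_of_lt_of_le (hsmT i j).2 hρ₁1
  have hZs : ∀ i j, Simil 1 (Zt i j) ∧ (Zt i j).toBlocks₁₁.det ≠ 0 := by
    intro i j
    refine ⟨(hZ1 (φ j) ((T i j : ℝ) / n) (habs1 i j)).1, hZdet (φ j) _ ?_⟩
    rw [abs_of_pos (hsmT i j).1]
    exact lt_of_lt_of_le (hsmT i j).2 (hρ₁le (φ j))
  have hper : ∀ i j, Ps (F (φ j)) (E' (φ j)) ((T i j / n : ℚ) : ℂ)
      (Mx (2 * G (φ j)) ((T i j / n : ℚ) : ℂ)) = Zt i j * M0 (φ j) := by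
    intro i j
    have h3 := (hZ1 (φ j) ((T i j : ℝ) / n) (habs1 i j)).2 (E' (φ j))
    rw [hcast]
    exact h3
  -- the relations
  have hS : ∀ i, ∃ S : MvPolynomial (Option (Σ a, Idx (G a)) ⊕ (Σ j : Fin r, Idx (G (φ j)))) ℚ,
    S.totalDegree ≤ D' ∧
    MvPolynomial.aeval (Sum.elim (opt (2 * Real.pi * Complex.I)
      (fun p : Σ a, Idx (G a) => fvec (M0 p.1) p.2))
      (fun p : Σ j : Fin r, Idx (G (φ j)) => fvec (Zt i p.1) p.2)) S = (0 : ℂ) ∧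
    ∃ y : (Σ j : Fin r, Idx (G (φ j))) → ℂ, MvPolynomial.aeval (Sum.elim
      (opt (2 * Real.pi * Complex.I) (fun p : Σ a, Idx (G a) => fvec (M0 p.1) p.2)) y) S
        ≠ 0 := by
    intro i
    obtain ⟨P, hP⟩ := (hT1 i).2.2
    apply hD' M0 (fun a => (hRef a).simil)
      (fun a => (hRef a).det) (Zt i) (fun j => (hZs i j).1) (fun j => (hZs i j).2) P
    have h3 : (fun j => Ps (F (φ j)) (E' (φ j)) ((T i j / n : ℚ) : ℂ)
        (Mx (2 * G (φ j)) ((T i j / n : ℚ) : ℂ))) = fun j => Zt i j * M0 (φ j) := by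
      funext j
      exact hper i j
    rw [← h3]
    exact hP
  choose S hS1 hS2 hS3 using hS
  obtain ⟨Q, hQ1, hQ2, hQ3⟩ := hE _ (fun i (p : Σ j : Fin r, Idx (G (φ j))) =>
    fvec (Zt i p.1) p.2) S hS1 hS2 hS3
  -- the transfer
  let f : (Σ k : Fin ((q + 1) * r), Idx (G (φ (e'.symm k).2))) →
      Fin (q + 1) × (Σ j : Fin r, Idx (G (φ j))) :=
    fun p => ((e'.symm p.1).1, ⟨(e'.symm p.1).2, p.2⟩)
  have hfinj : Function.Injective f := by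
    rintro ⟨k, x⟩ ⟨k', x'⟩ h
    simp only [f, Prod.mk.injEq, Sigma.mk.injEq] at h
    obtain ⟨h3, h4, h5⟩ := h
    have h6 : k = k' := e'.symm.injective (Prod.ext h3 h4)
    subst h6
    rw [eq_of_heq h5]
  have hfsurj : Function.Surjective f := by
    have h3 : ∀ (p : Fin (q + 1) × Fin r) (x : Idx (G (φ p.2))), ∃ y, f y = (p.1, ⟨p.2, x⟩) := by
      intro p x
      obtain ⟨k, rfl⟩ := e'.symm.surjective p
      exact ⟨⟨k, x⟩, rfl⟩
    rintro ⟨i, ⟨j, x⟩⟩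
    exact h3 (i, j) x
  let FE := Equiv.ofBijective f ⟨hfinj, hfsurj⟩
  have hQ'ne : MvPolynomial.rename FE.symm Q ≠ 0 := by
    intro h3
    apply hQ1
    apply MvPolynomial.rename_injective FE.symm FE.symm.injective
    rw [h3, map_zero]
  have hfin := hn₁ n hnn₁ (fun k => T (e'.symm k).1 (e'.symm k).2) (by
    intro k l hkl
    have h3 : e'.symm k = e'.symm l := by
      simp only at hkl
      generalize e'.symm k = p at hkl ⊢
      generalize e'.symm l = p' at hkl ⊢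
      obtain ⟨i, j⟩ := p
      obtain ⟨i', j'⟩ := p'
      simp only at hkl
      by_cases h7 : i = i'
      · subst h7
        have h8 := (hT1 i).1 hkl
        rw [h8]
      · exact absurd hkl (hT2 i i' h7 j j')
    exact e'.symm.injective h3) (by
    intro k
    obtain ⟨h3, h4, h5⟩ := (hT1 (e'.symm k).1).2.1 (e'.symm k).2
    have h6 : (n : ℝ) ^ (min δ (1 / 2)) ≤ (n : ℝ) ^ δ :=
      Real.rpow_le_rpow_of_exponent_le hn1 (min_le_left _ _)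
    exact ⟨h3, le_trans h4 h6, le_trans h5 h6⟩) (MvPolynomial.rename FE.symm Q) hQ'ne
    (le_trans (MvPolynomial.totalDegree_rename_le _ _) hQ2)
  apply hfin
  rw [MvPolynomial.aeval_rename, ← hQ3]
  have hkey : ∀ p : (Σ k : Fin ((q + 1) * r), Idx (G (φ (e'.symm k).2))),
      fvec (Zt (e'.symm p.1).1 (e'.symm p.1).2) p.2
        = (fun v : Fin (q + 1) × (Σ j : Fin r, Idx (G (φ j))) =>
            fvec (Zt v.1 v.2.1) v.2.2) (FE p) := fun p => rfl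
  have hfun : ((fun p : (Σ k : Fin ((q + 1) * r), Idx (G (φ (e'.symm k).2))) =>
      fvec (Zt (e'.symm p.1).1 (e'.symm p.1).2) p.2) ∘ FE.symm)
        = (fun v : Fin (q + 1) × (Σ j : Fin r, Idx (G (φ j))) =>
            fvec (Zt v.1 v.2.1) v.2.2) := by
    funext v
    exact (hkey (FE.symm v)).trans (congrArg
      (fun v : Fin (q + 1) × (Σ j : Fin r, Idx (G (φ j))) => fvec (Zt v.1 v.2.1) v.2.2)
      (FE.apply_symm_apply v))
  exact congrArg (fun g => MvPolynomial.aeval g Q) hfun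

end Pool.Agent.CYD
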