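import Pool.Agent.CYD.CStmts
import Pool.Agent.CYD.EXCW
import Pool.Agent.HGP.HOMOGC

set_option autoImplicit false

/-!
# CYD, module NFW: from relations with coefficients in a number field to relations with rational
coefficients, with weights
-/

open scoped BigOperators Topology
open MvPolynomial

namespace Pool.Agent.CYD

open Pool.Agent.HGP (Ix Simil Idx fvec mvec Aof opt)

noncomputable section

namespace NFW_

open Pool.Agent.DG2.NFC_ (toQ aeval_toQ VV WW)

lemma eval_map_q {σ : Type} (y : σ → ℂ) (f : MvPolynomial σ ℚ) :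
    eval y (MvPolynomial.map (algebraMap ℚ ℂ) f) = (aeval y f : ℂ) := by
  rw [eval_map, aeval_def]

lemma eval_map_L {σ : Type} {L : IntermediateField ℚ ℂ} (y : σ → ℂ) (f : MvPolynomial σ L) :
    eval y (MvPolynomial.map (algebraMap L ℂ) f) = (aeval y f : ℂ) := by
  rw [eval_map, aeval_def]

/-- A nonzero complex polynomial does not vanish at a rational point. -/
lemma rat_point {σ : Type} (f : MvPolynomial σ ℂ) (hf : f ≠ 0) :
    ∃ z : σ → ℚ, eval (fun s => ((z s : ℚ) : ℂ)) f ≠ 0 := by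
  by_contra hcon
  push Not at hcon
  apply hf
  apply MvPolynomial.funext_set (fun _ => Set.range (fun q : ℚ => (q : ℂ)))
    (fun _ => Set.infinite_range_of_injective Rat.cast_injective)
  intro x hx
  have h1 : ∀ s, ∃ q : ℚ, (q : ℂ) = x s := fun s => hx s (Set.mem_univ s)
  choose z hz using h1
  have h2 : (fun s => ((z s : ℚ) : ℂ)) = x := funext hz
  rw [map_zero, ← h2]
  exact hcon z

lemma cast_eval {σ : Type} (z : σ → ℚ) (f : MvPolynomial σ ℚ) :
    (aeval (fun s => ((z s : ℚ) : ℂ)) f : ℂ) = ((eval z f : ℚ) : ℂ) := by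
  have h6 := aeval_algebraMap_apply (A := ℚ) (B := ℂ) z f
  simp only [eq_ratCast] at h6
  rw [aeval_eq_eval] at h6
  exact h6

/-- The norm does not vanish at a rational point where the polynomial does not vanish. -/
lemma norm_rat {σ : Type} {L : IntermediateField ℚ ℂ} (P : MvPolynomial σ L)
    (N : MvPolynomial σ ℚ)
    (hNb : ∀ ψ : σ → MvPolynomial Empty ℚ, MvPolynomial.bind₁ ψ N = 0 →
      MvPolynomial.bind₁ (fun s => MvPolynomial.map (algebraMap ℚ L) (ψ s)) P = 0)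
    (x : σ → ℚ) (hx : (aeval (fun s => ((x s : ℚ) : ℂ)) N : ℂ) = 0) :
    (aeval (fun s => ((x s : ℚ) : ℂ)) P : ℂ) = 0 := by
  rw [cast_eval] at hx
  have h1 : eval x N = 0 := by exact_mod_cast hx
  have h2 : MvPolynomial.bind₁ (fun s => (C (x s) : MvPolynomial Empty ℚ)) N = 0 := by
    have h3 := MvPolynomial.aeval_algebraMap_apply (A := ℚ) (B := MvPolynomial Empty ℚ) x N
    rw [aeval_eq_eval] at h3
    have h4 : (aeval (fun s => (C (x s) : MvPolynomial Empty ℚ)) N) =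
        (C (eval x N) : MvPolynomial Empty ℚ) := h3
    rw [h1, map_zero] at h4
    exact h4
  have h5 := congrArg (aeval (fun e : Empty => (Empty.elim e : ℂ)) :
    MvPolynomial Empty L →ₐ[L] ℂ) (hNb _ h2)
  rw [aeval_bind₁, map_zero] at h5
  rw [← h5]
  congr 2
  funext s
  rw [map_C, aeval_C]
  simp

end NFW_

open NFW_ in
open Pool.Agent.DG2.NFC_ (toQ aeval_toQ VV WW) in
open EXCW_ (big_cellW keyT qt Dt) in
theorem nfw_proof : Stmt_NFW := by
  intro r g w M L hL P hP hne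
  choose Δ q h using fun i => HGP.cellp_proof (g i)
  obtain ⟨lam, M', hlam, hM', hne'⟩ := hne
  obtain ⟨M1, hM1, hdet1, hne1⟩ := big_cellW w P lam M' hlam hM' hne'
  obtain ⟨N, hNd, hNz, hNb⟩ := DGP.NF.norm_exists (τ' := Empty) P
  obtain ⟨D, P1, hP1⟩ := HGP.homogc_proof (VV g) (WW g)
    (fun v => MvPolynomial.map (algebraMap ℚ ℂ) (qt w Δ q v))
    (MvPolynomial.map (algebraMap ℚ ℂ) (Dt Δ)) (MvPolynomial.map (algebraMap L ℂ) P)
  have hT : ∀ y : WW g → ℂ, (∀ i, (Aof (fun x => y (some ⟨i, x⟩))).det ≠ 0) →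
      (aeval y (Dt Δ) : ℂ) ≠ 0 ∧
      eval y P1 = (aeval y (Dt Δ)) ^ D * aeval (HGP.tpt (y none) (fun i =>
        mvec (fun x => y (some ⟨i, x⟩)) (y none ^ w i))) P := by
    intro y hy
    obtain ⟨-, t3, t2⟩ := keyT w Δ q h y hy
    refine ⟨t3, ?_⟩
    rw [hP1 y (by rw [eval_map_q]; exact t3), eval_map_L, eval_map_q]
    have e1 : (fun v => eval y (MvPolynomial.map (algebraMap ℚ ℂ) (qt w Δ q v)) /
        (aeval y (Dt Δ) : ℂ)) = fun v => (aeval y (qt w Δ q v) : ℂ) / aeval y (Dt Δ) := by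
      funext v
      rw [eval_map_q]
    rw [e1, t2]
  have hQ : (X none * MvPolynomial.map (algebraMap ℚ ℂ) (Dt Δ) * P1 :
      MvPolynomial (WW g) ℂ) ≠ 0 := by
    intro h0
    have e2 : ∀ i, Aof (fvec (M1 i)) = (M1 i).toBlocks₁₁ ∧
        mvec (fvec (M1 i)) (lam ^ w i) = M1 i :=
      fun i => HGP.cella_proof _ _ _ (pow_ne_zero _ hlam) (hM1 i) (hdet1 i)
    obtain ⟨t1, t2⟩ := hT (opt lam (fun p : Σ i, Idx (g i) => fvec (M1 p.1) p.2))
      (fun i => by
        show (Aof (fvec (M1 i))).det ≠ 0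
        rw [(e2 i).1]
        exact hdet1 i)
    have t3 := congrArg (eval (opt lam (fun p : Σ i, Idx (g i) => fvec (M1 p.1) p.2))) h0
    rw [map_mul, map_mul, map_zero, eval_X, eval_map_q, t2] at t3
    have t4 : (aeval (HGP.tpt lam (fun i => mvec (fvec (M1 i)) (lam ^ w i))) P : ℂ) ≠ 0 := by
      have e3 : (fun i => mvec (fvec (M1 i)) (lam ^ w i)) = M1 := funext fun i => (e2 i).2
      rw [e3]
      exact hne1
    exact mul_ne_zero (mul_ne_zero hlam t1) (mul_ne_zero (pow_ne_zero _ t1) t4) t3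
  obtain ⟨z, hz⟩ := rat_point _ hQ
  set y : WW g → ℂ := fun s => ((z s : ℚ) : ℂ) with hy
  rw [map_mul, map_mul, eval_X, eval_map_q] at hz
  have hz1 : y none ≠ 0 := left_ne_zero_of_mul (left_ne_zero_of_mul hz)
  have hz2 : (aeval y (Dt Δ) : ℂ) ≠ 0 := right_ne_zero_of_mul (left_ne_zero_of_mul hz)
  have hz3 : eval y P1 ≠ 0 := right_ne_zero_of_mul hz
  have hz4 : ∀ i, (Aof (fun x => y (some ⟨i, x⟩))).det ≠ 0 := by
    intro i
    have h6 : (aeval y (Dt Δ) : ℂ) = ∏ i, (Aof (fun x => y (some ⟨i, x⟩))).det := by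
      unfold Dt
      rw [map_prod]
      refine Finset.prod_congr rfl fun i _ => ?_
      rw [DG2.NFC_.aeval_emb, (h i _ _).1]
    rw [h6] at hz2
    exact Finset.prod_ne_zero_iff.1 hz2 i (Finset.mem_univ i)
  obtain ⟨k1, k2⟩ := hT y hz4
  obtain ⟨-, -, k3⟩ := keyT w Δ q h y hz4
  rw [k2] at hz3
  have hPx : (aeval (HGP.tpt (y none) (fun i =>
      mvec (fun x => y (some ⟨i, x⟩)) (y none ^ w i))) P : ℂ) ≠ 0 := right_ne_zero_of_mul hz3
  have hx : (fun v : VV g => ((eval z (qt w Δ q v) / eval z (Dt Δ) : ℚ) : ℂ)) =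
      HGP.tpt (y none) (fun i => mvec (fun x => y (some ⟨i, x⟩)) (y none ^ w i)) := by
    rw [← k3]
    funext v
    rw [Rat.cast_div, ← cast_eval, ← cast_eval]
  refine ⟨N, hNd, hNz _ hP, y none, fun i => mvec (fun x => y (some ⟨i, x⟩)) (y none ^ w i),
    hz1, fun i => (HGP.cellb_proof (g i) _ _ (hz4 i)).1, ?_⟩
  intro h0
  apply hPx
  rw [← hx] at h0 ⊢
  exact norm_rat P N hNb _ h0

end

end Pool.Agent.CYD
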