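import Pool.Agent.CYD.CStmts
import Pool.Agent.CYP.FINAL
import Pool.Agent.GPH.LAG
import Pool.Agent.GPH.PIECE

set_option autoImplicit false

/-!
# CYD, module REFY: existence of normalisations at the Fermat point
-/

open scoped BigOperators Topology
open Metric Set

namespace Pool.Agent.CYD

open Pool.Agent.CYP
open Pool.Agent.HGP (Simil)

noncomputable section

namespace REFY_

theorem inj_zc {m n : Type} {A B : Matrix m n ℤ}
    (h : A.map (fun x : ℤ => (x : ℂ)) = B.map (fun x : ℤ => (x : ℂ))) : A = B := by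
  ext i j
  have h1 := congrFun (congrFun h i) j
  simpa using h1

theorem map_mul_zc {g : ℕ} (A B : Matrix (Ix g) (Ix g) ℤ) :
    (A * B).map (fun x : ℤ => (x : ℂ)) =
      A.map (fun x : ℤ => (x : ℂ)) * B.map (fun x : ℤ => (x : ℂ)) :=
  Matrix.map_mul (f := Int.castRingHom ℂ)

theorem map_mul_zq {g : ℕ} (A B : Matrix (Ix g) (Ix g) ℤ) :
    (A * B).map (fun x : ℤ => (x : ℚ)) =
      A.map (fun x : ℤ => (x : ℚ)) * B.map (fun x : ℤ => (x : ℚ)) :=
  Matrix.map_mul (f := Int.castRingHom ℚ)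

theorem map_one_zc {g : ℕ} : (1 : Matrix (Ix g) (Ix g) ℤ).map (fun x : ℤ => (x : ℂ)) = 1 :=
  Matrix.map_one (fun x : ℤ => (x : ℂ)) Int.cast_zero Int.cast_one

theorem map_one_zq {g : ℕ} : (1 : Matrix (Ix g) (Ix g) ℤ).map (fun x : ℤ => (x : ℚ)) = 1 :=
  Matrix.map_one (fun x : ℤ => (x : ℚ)) Int.cast_zero Int.cast_one

theorem J_map_q (g : ℕ) : (Matrix.J (Fin g) ℤ).map (fun x : ℤ => (x : ℚ)) =
    Matrix.J (Fin g) ℚ := by
  ext i j
  have h := congrFun (congrFun (GPH.PIECE.J_map g) i) j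
  simp only [Matrix.map_apply] at h ⊢
  have e : ((Matrix.J (Fin g) ℚ i j : ℚ) : ℂ) = Matrix.J (Fin g) ℂ i j := by
    unfold Matrix.J
    rcases i with i | i <;> rcases j with j | j
    · simp
    · by_cases hij : i = j
      · subst hij; simp
      · simp [Matrix.one_apply_ne hij]
    · by_cases hij : i = j
      · subst hij; simp
      · simp [Matrix.one_apply_ne hij]
    · simp
  rw [← e] at h
  exact_mod_cast h

theorem cx_mul {g : ℕ} (E' : Matrix (Fin (2 * g)) (Ix g) ℚ) (K : Matrix (Ix g) (Ix g) ℤ) :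
    cx (E' * K.map (fun x : ℤ => (x : ℚ))) = cx E' * K.map (fun x : ℤ => (x : ℂ)) := by
  ext i j
  simp only [cx, Matrix.map_apply, Matrix.mul_apply]
  push_cast
  rfl

end REFY_

open REFY_ in
/-- REFY: existence of normalisations. -/
theorem refy_proof (hFmat : CYP.Stmt_Fmat) (hDarb : CYP.Stmt_Darb) (hQdet : CYP.Stmt_Qdet)
    (hGeo : CYP.Stmt_Geo) (hBil : CYP.Stmt_BilO) (hPsi : CYP.Stmt_Psi) : Stmt_RefY := by
  intro g hg
  obtain ⟨F, F', hF⟩ := hFmat g
  obtain ⟨E, E', hE⟩ := hDarb g (Qm (2 * g) ℚ) (FINAL_.qm_anti _)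
    (FINAL_.qm_det (hQdet _ (by simp)))
  have h0 : (0 : ℂ) ∈ Om (2 * g) := (hGeo (2 * g)).2.2.1 (mem_ball_self one_pos)
  have hT : Tors (2 * g) 0 (2 * Real.pi * Complex.I) (Mx (2 * g) 0) :=
    hBil (2 * g) (by omega) (by simp) 0 h0
  have hM := ((hPsi g F F' E E' hF hE 0 (2 * Real.pi * Complex.I) (by simp)).1 _ hT).1
  have hpi : (2 * Real.pi * Complex.I : ℂ) ^ (2 * g - 1) ≠ 0 := by
    apply pow_ne_zero
    simp [Real.pi_ne_zero, Complex.I_ne_zero]
  obtain ⟨K, hK, hdet⟩ := GPH.LAG.thm g _ _ hpi hM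
  obtain ⟨hKK, hKi⟩ := GPH.PIECE.inv_spec K hK
  obtain ⟨L, hL⟩ : ∃ L, L = GPH.PIECE.Kinv K := ⟨_, rfl⟩
  rw [← hL] at hKK hKi
  have k1 : K * L = 1 := by
    apply inj_zc
    rw [map_mul_zc, map_one_zc, hKK]
  have k2 : L * K = 1 := mul_eq_one_comm.1 k1
  have k3 : L.transpose * Matrix.J (Fin g) ℤ * L = Matrix.J (Fin g) ℤ := by
    apply inj_zc
    rw [map_mul_zc, map_mul_zc, GPH.PIECE.J_map, Matrix.transpose_map]
    have := hKi
    unfold Simil at this
    rw [one_smul] at this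
    exact this
  obtain ⟨KQ, hKQ⟩ : ∃ KQ, KQ = K.map (fun x : ℤ => (x : ℚ)) := ⟨_, rfl⟩
  obtain ⟨LQ, hLQ⟩ : ∃ LQ, LQ = L.map (fun x : ℤ => (x : ℚ)) := ⟨_, rfl⟩
  have q1 : KQ * LQ = 1 := by rw [hKQ, hLQ, ← map_mul_zq, k1, map_one_zq]
  have q2 : LQ * KQ = 1 := mul_eq_one_comm.1 q1
  have q3 : LQ.transpose * Matrix.J (Fin g) ℚ * LQ = Matrix.J (Fin g) ℚ := by
    rw [hLQ, ← Matrix.transpose_map, ← J_map_q, ← map_mul_zq, ← map_mul_zq, k3]
  have hPs : Ps F (E' * KQ) 0 (Mx (2 * g) 0) =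
      Ps F E' 0 (Mx (2 * g) 0) * K.map (fun x : ℤ => (x : ℂ)) := by
    unfold Ps
    rw [hKQ, cx_mul]
    simp only [Matrix.mul_assoc]
  refine ⟨F, F', E * LQ.transpose, E' * KQ, hF, ⟨?_, ?_, ?_⟩, ?_, ?_⟩
  · rw [Matrix.transpose_mul, Matrix.transpose_transpose]
    calc E * LQ.transpose * Matrix.J (Fin g) ℚ * (LQ * E.transpose) =
        E * (LQ.transpose * Matrix.J (Fin g) ℚ * LQ) * E.transpose := by
          simp only [Matrix.mul_assoc]
      _ = Qm (2 * g) ℚ := by rw [q3, hE.rel]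
  · rw [Matrix.transpose_mul]
    calc E * LQ.transpose * (KQ.transpose * E'.transpose) =
        E * (LQ.transpose * KQ.transpose) * E'.transpose := by simp only [Matrix.mul_assoc]
      _ = 1 := by
        rw [← Matrix.transpose_mul, q1, Matrix.transpose_one, Matrix.mul_one, hE.inv1]
  · rw [Matrix.transpose_mul]
    calc KQ.transpose * E'.transpose * (E * LQ.transpose) =
        KQ.transpose * (E'.transpose * E) * LQ.transpose := by simp only [Matrix.mul_assoc]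
      _ = 1 := by
        rw [hE.inv2, Matrix.mul_one, ← Matrix.transpose_mul, q2, Matrix.transpose_one]
  · rw [hPs]
    exact GPH.PIECE.simil_mul hM hK
  · rw [hPs]
    exact hdet

end

end Pool.Agent.CYD
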