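import Pool.Agent.CYD.Stmts

set_option autoImplicit false
set_option linter.unusedSectionVars false

/-!
# CYD: substitution of one block
-/

open scoped BigOperators Topology
open Metric Set

namespace Pool.Agent.CYD

open Pool.Agent.CYP

noncomputable section

namespace SUBX_

lemma eval_aeval {T : Type} (v : T → ℂ) (q : MvPolynomial T ℂ) (p : Polynomial ℤ) :
    MvPolynomial.eval v (Polynomial.aeval q p) =
      Polynomial.aeval (MvPolynomial.eval v q) p := by
  rw [Polynomial.aeval_def, Polynomial.aeval_def, Polynomial.hom_eval₂]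
  congr 1
  exact Subsingleton.elim _ _

variable {I : Type} [Fintype I] [DecidableEq I] (g : I → ℕ) (k₀ : I)

/-- the remaining coordinates -/
abbrev TT : Type := Option (Σ k : {k // k ≠ k₀}, Fin (2 * g k) × Fin (2 * g k))

/-- the factor -/
def D (c : ℂ) : MvPolynomial (TT g k₀) ℂ :=
  1 - (MvPolynomial.C c * MvPolynomial.X none) ^ (2 * g k₀ + 1)

/-- the numerators of the entries of the block -/
def Wp (F' : Matrix (Fin (2 * g k₀)) (Ix (g k₀)) (Polynomial ℤ))
    (E : Matrix (Fin (2 * g k₀)) (Ix (g k₀)) ℚ) (c : ℂ) (Y : Matrix (Ix (g k₀)) (Ix (g k₀)) ℂ)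
    (a b : Fin (2 * g k₀)) : MvPolynomial (TT g k₀) ℂ :=
  ∑ m, (∑ l, Polynomial.aeval (MvPolynomial.C c * MvPolynomial.X none : MvPolynomial (TT g k₀) ℂ)
    (F' a l) * MvPolynomial.C (Y l m)) * MvPolynomial.C ((E b m : ℚ) : ℂ)

lemma eval_D (c : ℂ) (v : TT g k₀ → ℂ) :
    MvPolynomial.eval v (D g k₀ c) = 1 - (c * v none) ^ (2 * g k₀ + 1) := by
  simp [D]

lemma eval_Wp (F' : Matrix (Fin (2 * g k₀)) (Ix (g k₀)) (Polynomial ℤ))
    (E : Matrix (Fin (2 * g k₀)) (Ix (g k₀)) ℚ) (c : ℂ) (Y : Matrix (Ix (g k₀)) (Ix (g k₀)) ℂ)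
    (a b : Fin (2 * g k₀)) (v : TT g k₀ → ℂ) :
    MvPolynomial.eval v (Wp g k₀ F' E c Y a b) =
      (ev F' (c * v none) * Y * (cx E).transpose) a b := by
  rw [Matrix.mul_apply]
  simp only [Matrix.mul_apply, Wp, map_sum, map_mul, MvPolynomial.eval_C, eval_aeval,
    MvPolynomial.eval_X]
  rfl

end SUBX_

open SUBX_ in
theorem subx_proof : Stmt_SubX := by
  intro I _ _ g k₀ F' E c Y P
  induction P using MvPolynomial.induction_on with
  | C a =>
    refine ⟨0, MvPolynomial.C a, fun z X hz hX => ?_⟩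
    rw [MvPolynomial.eval_C, MvPolynomial.eval_C, pow_zero, one_mul]
  | add P Q hP hQ =>
    obtain ⟨M1, P1, h1⟩ := hP
    obtain ⟨M2, P2, h2⟩ := hQ
    refine ⟨M1 + M2, D g k₀ c ^ M2 * P1 + D g k₀ c ^ M1 * P2, fun z X hz hX => ?_⟩
    rw [map_add, map_mul, map_mul, map_pow, map_pow, eval_D, h1 z X hz hX, h2 z X hz hX, map_add]
    show (1 - (c * z) ^ (2 * g k₀ + 1)) ^ M2 * _ + (1 - (c * z) ^ (2 * g k₀ + 1)) ^ M1 * _ = _
    rw [pow_add]
    ring
  | mul_X P o hP =>
    obtain ⟨M, P1, h1⟩ := hP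
    rcases o with _ | ⟨k, a, b⟩
    · refine ⟨M, P1 * MvPolynomial.X none, fun z X hz hX => ?_⟩
      rw [map_mul, h1 z X hz hX, map_mul, MvPolynomial.eval_X, MvPolynomial.eval_X, mul_assoc]
      rfl
    · by_cases hk : k = k₀
      · subst hk
        refine ⟨M + g k, P1 * Wp g k F' E c Y a b, fun z X hz hX => ?_⟩
        rw [map_mul, h1 z X hz hX, map_mul, MvPolynomial.eval_X, eval_Wp]
        have hz' : (1 - (c * z) ^ (2 * g k + 1)) ^ g k ≠ 0 := pow_ne_zero _ hz
        have e : HGP.opt z (fun p : Σ k, Fin (2 * g k) × Fin (2 * g k) => X p.1 p.2.1 p.2.2)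
            (some ⟨k, a, b⟩) = ((1 - (c * z) ^ (2 * g k + 1)) ^ g k)⁻¹ *
            (ev F' (c * z) * Y * (cx E).transpose) a b := by
          show X k a b = _
          rw [hX]
          rfl
        rw [e, pow_add _ M (g k)]
        show _ * (ev F' (c * z) * Y * (cx E).transpose) a b = _
        generalize (1 - (c * z) ^ (2 * g k + 1)) ^ g k = d at hz' ⊢
        generalize (ev F' (c * z) * Y * (cx E).transpose) a b = w
        field_simp
      · refine ⟨M, P1 * MvPolynomial.X (some ⟨⟨k, hk⟩, a, b⟩), fun z X hz hX => ?_⟩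
        rw [map_mul, h1 z X hz hX, map_mul, MvPolynomial.eval_X, MvPolynomial.eval_X, mul_assoc]
        rfl

end

end Pool.Agent.CYD
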