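import Pool.Agent.CYD.CStmts

set_option autoImplicit false

/-!
# CYD, module TRFQ: relations between the coordinates of `A Y B`
-/

open scoped BigOperators Topology
open Metric Set

namespace Pool.Agent.CYD

open Pool.Agent.CYP
open Pool.Agent.HGP (Simil fvec mvec Aof opt)

namespace TRFQ_

variable {K : ℕ} {g : Fin K → ℕ}

/-- The variables: entries of the matrices `Y_k`. -/
abbrev VY (g : Fin K → ℕ) := Σ k, Fin (2 * g k) × Fin (2 * g k)

/-- The variables: entries of the matrices `A_k`. -/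
abbrev VA (g : Fin K → ℕ) := Σ k, Ix (g k) × Fin (2 * g k)

/-- The variables: entries of the matrices `B_k`. -/
abbrev VB (g : Fin K → ℕ) := Σ k, Fin (2 * g k) × Ix (g k)

/-- All variables. -/
abbrev W (g : Fin K → ℕ) := (VA g ⊕ VB g) ⊕ VY g

/-- The matrix `A_k` of the point `w`. -/
noncomputable def mA (w : W g → ℂ) (k : Fin K) : Matrix (Ix (g k)) (Fin (2 * g k)) ℂ :=
  Matrix.of fun i j => w (.inl (.inl ⟨k, (i, j)⟩))

/-- The matrix `B_k` of the point `w`. -/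
noncomputable def mB (w : W g → ℂ) (k : Fin K) : Matrix (Fin (2 * g k)) (Ix (g k)) ℂ :=
  Matrix.of fun i j => w (.inl (.inr ⟨k, (i, j)⟩))

/-- The matrix `Y_k` of the point `w`. -/
noncomputable def mY (w : W g → ℂ) (k : Fin K) : Matrix (Fin (2 * g k)) (Fin (2 * g k)) ℂ :=
  Matrix.of fun i j => w (.inr ⟨k, (i, j)⟩)

/-- The generic matrix `Z_k = A_k Y_k B_k`. -/
noncomputable def Zg (g : Fin K → ℕ) (k : Fin K) :
    Matrix (Ix (g k)) (Ix (g k)) (MvPolynomial (W g) ℚ) :=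
  (Matrix.of (fun i j => (MvPolynomial.X (.inl (.inl ⟨k, (i, j)⟩) : W g) :
      MvPolynomial (W g) ℚ)) : Matrix (Ix (g k)) (Fin (2 * g k)) (MvPolynomial (W g) ℚ)) *
    (Matrix.of (fun i j => (MvPolynomial.X (.inr ⟨k, (i, j)⟩ : W g) : MvPolynomial (W g) ℚ)) :
      Matrix (Fin (2 * g k)) (Fin (2 * g k)) (MvPolynomial (W g) ℚ)) *
    (Matrix.of (fun i j => (MvPolynomial.X (.inl (.inr ⟨k, (i, j)⟩) : W g) :
      MvPolynomial (W g) ℚ)) : Matrix (Fin (2 * g k)) (Ix (g k)) (MvPolynomial (W g) ℚ))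

/-- The matrix `Z_k` of the point `w`. -/
noncomputable def Zy (w : W g → ℂ) (k : Fin K) : Matrix (Ix (g k)) (Ix (g k)) ℂ :=
  mA w k * mY w k * mB w k

theorem Zg_eval (w : W g → ℂ) (k : Fin K) :
    (Zg g k).map (MvPolynomial.aeval w : MvPolynomial (W g) ℚ →ₐ[ℚ] ℂ) = Zy w k := by
  ext i j
  simp only [Zg, Zy, mA, mB, mY, Matrix.map_apply, Matrix.mul_apply, Matrix.of_apply, map_sum,
    map_mul, MvPolynomial.aeval_X]

/-- The denominator of block `k`. -/
noncomputable def Dl (g : Fin K → ℕ) (k : Fin K) : MvPolynomial (W g) ℚ :=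
  (Zg g k).toBlocks₁₁.det

/-- The numerators of block `k`. -/
noncomputable def nu (g : Fin K → ℕ) (k : Fin K) : Idx (g k) → MvPolynomial (W g) ℚ
  | .inl p => (Zg g k).toBlocks₁₁ p.1 p.2 * Dl g k
  | .inr (.inl q) => ((Zg g k).toBlocks₂₁ * (Zg g k).toBlocks₁₁.adjugate) q.1.1 q.1.2
  | .inr (.inr q) => ((Zg g k).toBlocks₁₁.adjugate * (Zg g k).toBlocks₁₂) q.1.1 q.1.2

theorem Dl_eval (w : W g → ℂ) (k : Fin K) :
    MvPolynomial.aeval w (Dl g k) = (Zy w k).toBlocks₁₁.det := by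
  unfold Dl
  have h1 : MvPolynomial.aeval w (Zg g k).toBlocks₁₁.det
      = ((MvPolynomial.aeval w : MvPolynomial (W g) ℚ →ₐ[ℚ] ℂ).mapMatrix
          (Zg g k).toBlocks₁₁).det := AlgHom.map_det _ _
  rw [h1, ← Zg_eval w k]
  rfl

theorem adj_eval (w : W g → ℂ) (k : Fin K) :
    (Zg g k).toBlocks₁₁.adjugate.map (MvPolynomial.aeval w : MvPolynomial (W g) ℚ →ₐ[ℚ] ℂ)
      = (Zy w k).toBlocks₁₁.adjugate := by
  have h1 := RingHom.map_adjugate
    ((MvPolynomial.aeval w : MvPolynomial (W g) ℚ →ₐ[ℚ] ℂ) : MvPolynomial (W g) ℚ →+* ℂ)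
    (Zg g k).toBlocks₁₁
  have h2 : ((MvPolynomial.aeval w : MvPolynomial (W g) ℚ →ₐ[ℚ] ℂ) :
      MvPolynomial (W g) ℚ →+* ℂ).mapMatrix (Zg g k).toBlocks₁₁
        = (Zy w k).toBlocks₁₁ := by
    rw [← Zg_eval w k]
    rfl
  rw [h2] at h1
  rw [← h1]
  rfl

theorem nu_eval (w : W g → ℂ) (k : Fin K) (hdet : (Zy w k).toBlocks₁₁.det ≠ 0)
    (x : Idx (g k)) :
    MvPolynomial.aeval w (nu g k x) = (Zy w k).toBlocks₁₁.det * fvec (Zy w k) x := by
  have hent : ∀ i j, MvPolynomial.aeval w (Zg g k i j) = Zy w k i j := by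
    intro i j
    rw [← Zg_eval w k]
    rfl
  have hinv : (Zy w k).toBlocks₁₁⁻¹
      = ((Zy w k).toBlocks₁₁.det)⁻¹ • (Zy w k).toBlocks₁₁.adjugate := by
    rw [Matrix.inv_def, Ring.inverse_eq_inv']
  have hadj : ∀ i j, MvPolynomial.aeval w ((Zg g k).toBlocks₁₁.adjugate i j)
      = (Zy w k).toBlocks₁₁.adjugate i j := by
    intro i j
    rw [← adj_eval w k]
    rfl
  match x with
  | .inl p =>
    show MvPolynomial.aeval w ((Zg g k).toBlocks₁₁ p.1 p.2 * Dl g k) = _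
    rw [map_mul, Dl_eval, mul_comm]
    congr 1
    exact hent _ _
  | .inr (.inl q) =>
    show MvPolynomial.aeval w
      (((Zg g k).toBlocks₂₁ * (Zg g k).toBlocks₁₁.adjugate) q.1.1 q.1.2) =
      _ * ((Zy w k).toBlocks₂₁ * (Zy w k).toBlocks₁₁⁻¹) q.1.1 q.1.2
    rw [hinv, Matrix.mul_smul, Matrix.smul_apply, smul_eq_mul, ← mul_assoc,
      mul_inv_cancel₀ hdet, one_mul, Matrix.mul_apply, Matrix.mul_apply, map_sum]
    apply Finset.sum_congr rfl
    intro j _
    rw [map_mul, hadj]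
    congr 1
    exact hent _ _
  | .inr (.inr q) =>
    show MvPolynomial.aeval w
      (((Zg g k).toBlocks₁₁.adjugate * (Zg g k).toBlocks₁₂) q.1.1 q.1.2) =
      _ * ((Zy w k).toBlocks₁₁⁻¹ * (Zy w k).toBlocks₁₂) q.1.1 q.1.2
    rw [hinv, Matrix.smul_mul, Matrix.smul_apply, smul_eq_mul, ← mul_assoc,
      mul_inv_cancel₀ hdet, one_mul, Matrix.mul_apply, Matrix.mul_apply, map_sum]
    apply Finset.sum_congr rfl
    intro j _
    rw [map_mul, hadj]
    congr 1
    exact hent _ _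

/-- Substituting constants and variables does not increase the degree. -/
theorem tdeg_aeval_le {σ τ : Type} (f : σ → MvPolynomial τ ℚ) (hf : ∀ s, (f s).totalDegree ≤ 1)
    (P : MvPolynomial σ ℚ) : (MvPolynomial.aeval f P).totalDegree ≤ P.totalDegree := by
  classical
  rw [MvPolynomial.aeval_def, MvPolynomial.eval₂_eq]
  refine MvPolynomial.totalDegree_finsetSum_le (fun d hd => ?_)
  have h1 : (algebraMap ℚ (MvPolynomial τ ℚ) (MvPolynomial.coeff d P)).totalDegree = 0 := by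
    rw [MvPolynomial.algebraMap_eq, MvPolynomial.totalDegree_C]
  refine (MvPolynomial.totalDegree_mul _ _).trans ?_
  rw [h1, zero_add]
  refine (MvPolynomial.totalDegree_finsetProd _ _).trans ?_
  refine le_trans ?_ (MvPolynomial.le_totalDegree hd)
  rw [Finsupp.sum]
  refine Finset.sum_le_sum (fun i _ => ?_)
  refine (MvPolynomial.totalDegree_pow _ _).trans ?_
  calc d i * (f i).totalDegree ≤ d i * 1 := Nat.mul_le_mul_left _ (hf i)
    _ = d i := mul_one _

end TRFQ_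

open TRFQ_ in
theorem trfq_proof (hHomQ : DG2.Stmt_HomQ) : Stmt_TrfQ := by
  classical
  intro K g E
  obtain ⟨E1, hE1⟩ := hHomQ (Σ k, Idx (g k)) (W g)
    (fun v => nu g v.1 v.2 * ∏ l ∈ Finset.univ.erase v.1, Dl g l) (∏ l, Dl g l) E
  refine ⟨E1, fun A B Q hQ => ?_⟩
  obtain ⟨Q1, hQ1, hQ2⟩ := hE1 Q hQ
  let f : W g → MvPolynomial (VY g) ℚ := fun v => match v with
    | .inl (.inl a) => MvPolynomial.C (A a.1 a.2.1 a.2.2)
    | .inl (.inr b) => MvPolynomial.C (B b.1 b.2.1 b.2.2)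
    | .inr y => MvPolynomial.X y
  have hf : ∀ s, (f s).totalDegree ≤ 1 := by
    intro s
    match s with
    | .inl (.inl a) =>
      show (MvPolynomial.C (A a.1 a.2.1 a.2.2) : MvPolynomial (VY g) ℚ).totalDegree ≤ 1
      rw [MvPolynomial.totalDegree_C]
      exact Nat.zero_le _
    | .inl (.inr b) =>
      show (MvPolynomial.C (B b.1 b.2.1 b.2.2) : MvPolynomial (VY g) ℚ).totalDegree ≤ 1
      rw [MvPolynomial.totalDegree_C]
      exact Nat.zero_le _
    | .inr y =>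
      show (MvPolynomial.X y : MvPolynomial (VY g) ℚ).totalDegree ≤ 1
      rw [MvPolynomial.totalDegree_X]
  refine ⟨MvPolynomial.aeval f Q1, (tdeg_aeval_le f hf Q1).trans hQ1, fun Y hY => ?_⟩
  let w : W g → ℂ := fun v => match v with
    | .inl (.inl a) => ((A a.1 a.2.1 a.2.2 : ℚ) : ℂ)
    | .inl (.inr b) => ((B b.1 b.2.1 b.2.2 : ℚ) : ℂ)
    | .inr y => Y y.1 y.2.1 y.2.2
  have hw : ∀ v, MvPolynomial.aeval (fun v : VY g => Y v.1 v.2.1 v.2.2) (f v) = w v := by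
    intro v
    match v with
    | .inl (.inl a) =>
      show MvPolynomial.aeval (fun v : VY g => Y v.1 v.2.1 v.2.2)
        (MvPolynomial.C (A a.1 a.2.1 a.2.2)) = ((A a.1 a.2.1 a.2.2 : ℚ) : ℂ)
      rw [MvPolynomial.aeval_C, eq_ratCast]
    | .inl (.inr b) =>
      show MvPolynomial.aeval (fun v : VY g => Y v.1 v.2.1 v.2.2)
        (MvPolynomial.C (B b.1 b.2.1 b.2.2)) = ((B b.1 b.2.1 b.2.2 : ℚ) : ℂ)
      rw [MvPolynomial.aeval_C, eq_ratCast]
    | .inr y =>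
      show MvPolynomial.aeval (fun v : VY g => Y v.1 v.2.1 v.2.2)
        (MvPolynomial.X y) = Y y.1 y.2.1 y.2.2
      rw [MvPolynomial.aeval_X]
  have hcomp : MvPolynomial.aeval (fun v : VY g => Y v.1 v.2.1 v.2.2) (MvPolynomial.aeval f Q1)
      = MvPolynomial.aeval w Q1 := by
    have h1 : (MvPolynomial.aeval (fun v : VY g => Y v.1 v.2.1 v.2.2) :
        MvPolynomial (VY g) ℚ →ₐ[ℚ] ℂ).comp (MvPolynomial.aeval f) = MvPolynomial.aeval w := by
      apply MvPolynomial.algHom_ext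
      intro v
      rw [AlgHom.comp_apply, MvPolynomial.aeval_X, MvPolynomial.aeval_X]
      exact hw v
    exact DFunLike.congr_fun h1 Q1
  have hZ : ∀ k, Zy w k = (A k).map (fun x : ℚ => (x : ℂ)) * Y k *
      (B k).map (fun x : ℚ => (x : ℂ)) := fun k => rfl
  have hy : ∀ k, (Zy w k).toBlocks₁₁.det ≠ 0 := fun k => by
    rw [hZ k]
    exact hY k
  have h1 : MvPolynomial.aeval w (∏ l, Dl g l) = ∏ k, (Zy w k).toBlocks₁₁.det := by
    rw [map_prod]
    exact Finset.prod_congr rfl (fun k _ => Dl_eval w k)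
  have h2 : MvPolynomial.aeval w (∏ l, Dl g l) ≠ (0 : ℂ) := by
    rw [h1]
    exact Finset.prod_ne_zero_iff.mpr (fun k _ => hy k)
  have h3 := hQ2 w h2
  have hgoal : MvPolynomial.aeval w Q1 = (∏ k, (Zy w k).toBlocks₁₁.det) ^ E *
      MvPolynomial.aeval (fun p : Σ k, Idx (g k) => fvec (Zy w p.1) p.2) Q := by
    rw [h3, h1]
    congr 2
    apply congrArg
    funext v
    rw [map_mul, map_prod, nu_eval w v.1 (hy v.1)]
    have h4 : ∏ l ∈ Finset.univ.erase v.1, MvPolynomial.aeval w (Dl g l)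
        = ∏ l ∈ Finset.univ.erase v.1, (Zy w l).toBlocks₁₁.det :=
      Finset.prod_congr rfl (fun k _ => Dl_eval w k)
    rw [h4]
    have h5 := Finset.mul_prod_erase Finset.univ (fun l => (Zy w l).toBlocks₁₁.det)
      (Finset.mem_univ v.1)
    have h6 : ∏ k, (Zy w k).toBlocks₁₁.det ≠ 0 :=
      Finset.prod_ne_zero_iff.mpr (fun k _ => hy k)
    rw [div_eq_iff h6, ← h5]
    ring
  rw [hcomp, hgoal]
  rfl

end Pool.Agent.CYD
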