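import Pool.Agent.CYD.Stmts
import Pool.Agent.CYP.TRV

set_option autoImplicit false

/-! # CYD, module TRVP: relations with parameters are invariant under the transvections -/

open scoped BigOperators Topology
open Metric Set

namespace Pool.Agent.CYD

open Pool.Agent.CYP

namespace TRVP_

open Pool.Agent.CYP.TRV_ (rs_sq pow_eq zt_ne zt_pow mem_Om_inv Pm_rel comm_rs)

variable {n : ℕ} {σ : Type}

/-- The substitution `X ↦ A X B`. -/
noncomputable def gsub (A B : Matrix (Fin n) (Fin n) ℂ) :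
    σ ⊕ (Fin n × Fin n) → MvPolynomial (σ ⊕ (Fin n × Fin n)) ℂ
  | .inl i => MvPolynomial.X (.inl i)
  | .inr p => ∑ k, ∑ l, MvPolynomial.C (A p.1 k * B l p.2) * MvPolynomial.X (.inr (k, l))

theorem eval_sub (u : σ → ℂ) (A B X : Matrix (Fin n) (Fin n) ℂ)
    (P : MvPolynomial (σ ⊕ (Fin n × Fin n)) ℂ) :
    MvPolynomial.eval (Sum.elim u (fun p => X p.1 p.2)) (MvPolynomial.bind₁ (gsub A B) P) =
      MvPolynomial.eval (Sum.elim u (fun p => (A * X * B) p.1 p.2)) P := by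
  have h : MvPolynomial.eval (Sum.elim u (fun p => X p.1 p.2))
      (MvPolynomial.bind₁ (gsub A B) P) =
      MvPolynomial.eval (fun i => MvPolynomial.eval (Sum.elim u (fun p => X p.1 p.2))
        (gsub A B i)) P := by
    induction P using MvPolynomial.induction_on with
    | C a => simp
    | add p q hp hq => simp only [map_add, hp, hq]
    | mul_X p i hp => simp only [map_mul, hp, MvPolynomial.bind₁_X_right, MvPolynomial.eval_X]
  rw [h]
  have h2 : (fun i => MvPolynomial.eval (Sum.elim u (fun p => X p.1 p.2))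
      (gsub (σ := σ) A B i)) = Sum.elim u (fun p => (A * X * B) p.1 p.2) := by
    funext o
    cases o with
    | inl i => simp [gsub]
    | inr p =>
      simp only [gsub, Sum.elim_inr, map_sum, map_mul, MvPolynomial.eval_C,
        MvPolynomial.eval_X, Matrix.mul_apply]
      rw [Finset.sum_comm]
      refine Finset.sum_congr rfl fun l _ => ?_
      rw [Finset.sum_mul]
      refine Finset.sum_congr rfl fun k _ => ?_
      ring
  rw [h2]

theorem of_pow (i : Fin n) (ρ : ℝ) (g : σ → ℂ → ℂ) (P : MvPolynomial (σ ⊕ (Fin n × Fin n)) ℂ)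
    (c₀ : ℂ) (hc : c₀ ≠ 0) (h : ∀ m : ℕ, RelP n ρ g P ((1 + c₀ • rs n i) ^ m)) (c : ℂ) :
    RelP n ρ g P (1 + c • rs n i) := by
  intro ψ hψ
  set f : σ ⊕ (Fin n × Fin n) → Polynomial ℂ := Sum.elim (fun k => Polynomial.C (g k ψ))
    (fun p => Polynomial.C (Mx n ψ p.1 p.2) +
      Polynomial.C ((Mx n ψ * rs n i) p.1 p.2) * Polynomial.X) with hf
  set q : Polynomial ℂ := MvPolynomial.aeval f P with hq
  have hev : ∀ t : ℂ, q.eval t =
      MvPolynomial.eval (Sum.elim (fun k => g k ψ)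
        (fun p => (Mx n ψ * (1 + t • rs n i)) p.1 p.2)) P := by
    intro t
    have h1 : q.eval t = (Polynomial.evalRingHom t) (MvPolynomial.aeval f P) := rfl
    rw [h1, MvPolynomial.map_aeval]
    have h2 : (Polynomial.evalRingHom t).comp (algebraMap ℂ (Polynomial ℂ)) = RingHom.id ℂ := by
      ext x
      simp
    rw [h2]
    have h3 : (fun o => (Polynomial.evalRingHom t) (f o)) =
        Sum.elim (fun k => g k ψ) (fun p => (Mx n ψ * (1 + t • rs n i)) p.1 p.2) := by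
      funext o
      cases o with
      | inl k => simp [hf]
      | inr p =>
        simp only [hf, Sum.elim_inr, Polynomial.coe_evalRingHom,
          Polynomial.eval_add, Polynomial.eval_C, Polynomial.eval_mul, Polynomial.eval_X,
          Matrix.mul_add, Matrix.mul_one, Matrix.mul_smul, Matrix.add_apply, Matrix.smul_apply,
          smul_eq_mul]
        ring
    rw [h3]
    rfl
  have hinf : Set.Infinite {t | q.IsRoot t} := by
    have hsub : Set.range (fun m : ℕ => (m : ℂ) * c₀) ⊆ {t | q.IsRoot t} := by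
      rintro _ ⟨m, rfl⟩
      have := h m ψ hψ
      rw [pow_eq, ← hev] at this
      exact this
    refine Set.Infinite.mono hsub (Set.infinite_range_of_injective ?_)
    intro a b hab
    exact Nat.cast_injective (mul_right_cancel₀ hc hab)
  have hz := Polynomial.eq_zero_of_infinite_isRoot q hinf
  rw [← hev, hz, Polynomial.eval_zero]

theorem base (hJump : Stmt_JmpP) (hVc : Stmt_Vc) (hn : Even n) (i0 : Fin n)
    (hi0 : (i0 : ℕ) = 0) [Fintype σ] (ρ : ℝ) (hρ : 1 < ρ) (g : σ → ℂ → ℂ) (hg : HolF ρ g)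
    (P : MvPolynomial (σ ⊕ (Fin n × Fin n)) ℂ) (hP : RelP n ρ g P 1)
    (c : ℂ) : RelP n ρ g P (1 + c • rs n i0) := by
  obtain ⟨h, h1, h2, h3, h4⟩ := hJump n i0 hn hi0
  obtain ⟨c₀, hc₀, hh⟩ := hVc n i0 hn hi0 h h1 h2 h3
  subst hh
  refine of_pow i0 ρ g P c₀ hc₀ (fun m => ?_) c
  induction m with
  | zero => simpa using hP
  | succ m ih =>
    have a1 : RelP n ρ g (MvPolynomial.bind₁ (gsub 1 ((1 + c₀ • rs n i0) ^ m)) P) 1 := by
      intro ψ hψ
      rw [eval_sub, Matrix.one_mul, Matrix.mul_one]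
      exact ih ψ hψ
    intro ψ hψ
    have a2 := h4 σ ρ g _ hρ hg a1 ψ hψ
    rw [eval_sub, Matrix.one_mul, Matrix.mul_assoc, ← pow_succ'] at a2
    exact a2

theorem norm_zt : ‖zt n‖ = 1 := by
  have h := congrArg norm (zt_pow (n := n))
  rw [norm_pow, norm_one] at h
  exact (pow_eq_one_iff_of_nonneg (norm_nonneg _) (Nat.succ_ne_zero n)).mp h

theorem step (hRot : Stmt_Rot) (hGeo : Stmt_Geo) (hBilO : Stmt_BilO) (hQdet : Stmt_Qdet)
    (hn0 : 0 < n) (hn : Even n) (k k' : Fin n) (hk : (k' : ℕ) = k + 1) (ρ : ℝ)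
    (ih : ∀ (g : σ → ℂ → ℂ) (P : MvPolynomial (σ ⊕ (Fin n × Fin n)) ℂ), HolF ρ g →
      RelP n ρ g P 1 → ∀ c : ℂ, RelP n ρ g P (1 + c • rs n k))
    (g : σ → ℂ → ℂ) (P : MvPolynomial (σ ⊕ (Fin n × Fin n)) ℂ) (hg : HolF ρ g)
    (hP : RelP n ρ g P 1) (c : ℂ) :
    RelP n ρ g P (1 + c • rs n k') := by
  have hPm := Pm_rel hRot hGeo hBilO hn0 hn
  have hdet : (Pm n).det ≠ 0 := by
    intro h
    apply hQdet n hn
    rw [← hPm, Matrix.det_mul, h, mul_zero]
  have hu : IsUnit (Pm n).det := isUnit_iff_ne_zero.2 hdet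
  set D' : Matrix (Fin n) (Fin n) ℂ := Matrix.diagonal fun j => zt n ^ ((j : ℕ) + 1) with hD'
  have hDD : D' * Dm n = 1 := by
    rw [hD', Dm, Matrix.diagonal_mul_diagonal]
    rw [← Matrix.diagonal_one]
    congr 1
    funext j
    exact mul_inv_cancel₀ (pow_ne_zero _ zt_ne)
  have hz : (zt n)⁻¹ * zt n = 1 := inv_mul_cancel₀ zt_ne
  have hni : ‖(zt n)⁻¹‖ = 1 := by rw [norm_inv, norm_zt, inv_one]
  have hball : ∀ ψ ∈ ball (0 : ℂ) ρ, (zt n)⁻¹ * ψ ∈ ball (0 : ℂ) ρ := by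
    intro ψ hψ
    rw [mem_ball_zero_iff] at hψ ⊢
    rw [norm_mul, hni, one_mul]
    exact hψ
  set g' : σ → ℂ → ℂ := fun i ψ => g i ((zt n)⁻¹ * ψ) with hg'
  have hg'h : HolF ρ g' := by
    intro i
    have h1 : DifferentiableOn ℂ (fun ψ : ℂ => (zt n)⁻¹ * ψ) (ball 0 ρ) :=
      (differentiable_id.const_mul _).differentiableOn
    exact (hg i).comp h1 hball
  set P' := MvPolynomial.bind₁ (gsub (σ := σ) D' (Pm n)⁻¹) P with hP'
  have a1 : RelP n ρ g' P' 1 := by
    intro ψ hψ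
    rw [hP', eval_sub, Matrix.mul_one]
    have hψ' := mem_Om_inv hGeo ψ hψ.1
    have hR := hRot n hn0 _ hψ'
    rw [← mul_assoc, mul_inv_cancel₀ zt_ne, one_mul] at hR
    have h2 : D' * Mx n ψ * (Pm n)⁻¹ = Mx n ((zt n)⁻¹ * ψ) * 1 := by
      rw [hR, Matrix.mul_one]
      calc D' * (Dm n * Mx n ((zt n)⁻¹ * ψ) * Pm n) * (Pm n)⁻¹
          = (D' * Dm n) * Mx n ((zt n)⁻¹ * ψ) * (Pm n * (Pm n)⁻¹) := by
            simp only [Matrix.mul_assoc]
        _ = Mx n ((zt n)⁻¹ * ψ) := by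
            rw [hDD, Matrix.mul_nonsing_inv _ hu, Matrix.one_mul, Matrix.mul_one]
    rw [h2]
    exact hP _ ⟨hψ', hball ψ hψ.2⟩
  intro ψ hψ
  have hzb : zt n * ψ ∈ ball (0 : ℂ) ρ := by
    have h5 := hψ.2
    rw [mem_ball_zero_iff] at h5 ⊢
    rw [norm_mul, norm_zt, one_mul]
    exact h5
  have a2 := ih g' P' hg'h a1 c (zt n * ψ) ⟨(hGeo n).2.2.2.1 ψ hψ.1, hzb⟩
  rw [hP', eval_sub, hRot n hn0 ψ hψ.1] at a2
  have h3 : D' * (Dm n * Mx n ψ * Pm n * (1 + c • rs n k)) * (Pm n)⁻¹ =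
      Mx n ψ * (1 + c • rs n k') := by
    have h4 : Pm n * (1 + c • rs n k) = (1 + c • rs n k') * Pm n := by
      rw [Matrix.mul_add, Matrix.add_mul, Matrix.mul_one, Matrix.one_mul, Matrix.mul_smul,
        Matrix.smul_mul, comm_rs hPm k k' hk]
    calc D' * (Dm n * Mx n ψ * Pm n * (1 + c • rs n k)) * (Pm n)⁻¹
        = (D' * Dm n) * Mx n ψ * (Pm n * (1 + c • rs n k)) * (Pm n)⁻¹ := by
          simp only [Matrix.mul_assoc]
      _ = Mx n ψ * ((1 + c • rs n k') * Pm n) * (Pm n)⁻¹ := by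
          rw [hDD, Matrix.one_mul, h4]
      _ = Mx n ψ * (1 + c • rs n k') * (Pm n * (Pm n)⁻¹) := by
          simp only [Matrix.mul_assoc]
      _ = Mx n ψ * (1 + c • rs n k') := by
          rw [Matrix.mul_nonsing_inv _ hu, Matrix.mul_one]
  have h6 : (fun i => g' i (zt n * ψ)) = fun i => g i ψ := by
    funext i
    rw [hg']
    dsimp only
    rw [← mul_assoc, hz, one_mul]
  rw [h3, h6] at a2
  exact a2

end TRVP_

open TRVP_ in
theorem trvp_proof (hJump : Stmt_JmpP) (hVc : Stmt_Vc) (hRot : Stmt_Rot) (hGeo : Stmt_Geo)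
    (hBilO : Stmt_BilO) (hQdet : Stmt_Qdet) : Stmt_TrvP := by
  intro n hn0 hn σ _ ρ f P hρ hf hP k c
  have key : ∀ (m : ℕ) (k : Fin n), (k : ℕ) = m →
      ∀ (g : σ → ℂ → ℂ) (P : MvPolynomial (σ ⊕ (Fin n × Fin n)) ℂ), HolF ρ g →
        RelP n ρ g P 1 → ∀ c : ℂ, RelP n ρ g P (1 + c • rs n k) := by
    intro m
    induction m with
    | zero =>
      intro k hk g P hg hP c
      exact base hJump hVc hn k hk ρ hρ g hg P hP c
    | succ m ih =>
      intro k hk g P hg hP c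
      have hm : m < n := by
        have := k.2
        omega
      exact step hRot hGeo hBilO hQdet hn0 hn ⟨m, hm⟩ k hk ρ (ih ⟨m, hm⟩ rfl) g P hg hP c
  exact key k k rfl f P hf hP c

end Pool.Agent.CYD
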