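import Pool.Agent.CYD.Stmts

set_option autoImplicit false

/-! # YSZ: size of the Taylor coefficients -/

open scoped BigOperators Nat
open Metric Set

namespace Pool.Agent.CYD

open Pool.Agent.CYP
open Pool.Agent.DGP (GSys IsZ hd val Conv tens)

namespace YSZ_

theorem prod_le (n l k : ℕ) :
    (∏ i ∈ Finset.range k, ((n + 1) * i + l + 1)) ^ (n + 1) ≤ (l + (n + 1) * k)! := by
  induction k with
  | zero =>
    simp only [Finset.range_zero, Finset.prod_empty, one_pow, mul_zero, add_zero]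
    exact Nat.factorial_pos l
  | succ k ih =>
    rw [Finset.prod_range_succ, mul_pow]
    have h1 : (l + (n + 1) * k)! * (l + (n + 1) * k + 1) ^ (n + 1) ≤
        (l + (n + 1) * k + (n + 1))! := Nat.factorial_mul_pow_le_factorial
    have h2 : l + (n + 1) * (k + 1) = l + (n + 1) * k + (n + 1) := by ring
    have h3 : (n + 1) * k + l + 1 = l + (n + 1) * k + 1 := by ring
    rw [h2, h3]
    exact le_trans (Nat.mul_le_mul_right _ ih) h1

theorem yc_nonneg (n l j : ℕ) : 0 ≤ yc n l j := by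
  unfold yc
  split_ifs
  · positivity
  · exact le_rfl

theorem yc_le (n l j : ℕ) : yc n l j ≤ 1 := by
  unfold yc
  split_ifs with h
  · obtain ⟨h1, k, hk⟩ := h
    have h2 : (j - l) / (n + 1) = k := by
      rw [hk]
      exact Nat.mul_div_cancel_left k (Nat.succ_pos n)
    have h3 : j = l + (n + 1) * k := by omega
    rw [h2, div_le_one (by exact_mod_cast Nat.factorial_pos j)]
    have h4 := prod_le n l k
    rw [← h3] at h4
    exact_mod_cast h4
  · exact zero_le_one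

end YSZ_

theorem ysz_proof : Stmt_YSz := by
  intro n p j
  have hn : 1 ≤ n := by
    have := p.1.isLt
    omega
  have hk : (p.1 : ℕ) ≤ n := p.1.isLt.le
  unfold Ys
  rw [PowerSeries.coeff_mk, abs_mul, abs_of_nonneg (YSZ_.yc_nonneg _ _ _), abs_of_nonneg
    (by positivity)]
  have h1 : (((j + (p.1 : ℕ)).descFactorial (p.1 : ℕ) : ℕ) : ℚ) ≤ ((j + n : ℕ) : ℚ) ^ n := by
    have h2 : (j + (p.1 : ℕ)).descFactorial (p.1 : ℕ) ≤ (j + n) ^ n := by
      refine le_trans (Nat.descFactorial_le_pow _ _) ?_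
      refine le_trans (Nat.pow_le_pow_left (by omega : j + (p.1 : ℕ) ≤ j + n) _) ?_
      exact Nat.pow_le_pow_right (by omega) hk
    exact_mod_cast h2
  have h3 : (0 : ℚ) ≤ (((j + (p.1 : ℕ)).descFactorial (p.1 : ℕ) : ℕ) : ℚ) := by positivity
  have h4 := YSZ_.yc_le n (p.2 : ℕ) (j + (p.1 : ℕ))
  have h5 := YSZ_.yc_nonneg n (p.2 : ℕ) (j + (p.1 : ℕ))
  calc (((j + (p.1 : ℕ)).descFactorial (p.1 : ℕ) : ℕ) : ℚ) * yc n (p.2 : ℕ) (j + (p.1 : ℕ))
      ≤ (((j + (p.1 : ℕ)).descFactorial (p.1 : ℕ) : ℕ) : ℚ) * 1 :=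
        mul_le_mul_of_nonneg_left h4 h3
    _ ≤ ((j + n : ℕ) : ℚ) ^ n := by rw [mul_one]; exact h1

end Pool.Agent.CYD
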