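import Pool.Agent.CYD.Stmts
import Pool.Agent.CYP.ODED
import Pool.Agent.CYP.PSER

/-!
# CYD, module YVL: the periods in terms of the fundamental matrix
-/

set_option autoImplicit false

open scoped BigOperators Topology
open Metric Set

namespace Pool.Agent.CYD

open Pool.Agent.CYP
open Pool.Agent.DGP (GSys IsZ hd val Conv tens)

namespace YVL_

theorem yc_add (n l q : ℕ) : yc n l (l + (n + 1) * q) =
    ((∏ i ∈ Finset.range q, ((n + 1) * i + l + 1) : ℕ) : ℚ) ^ (n + 1) /
      ((l + (n + 1) * q).factorial : ℚ) := by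
  unfold yc
  have h1 : l + (n + 1) * q - l = (n + 1) * q := by omega
  rw [h1, if_pos ⟨Nat.le_add_right _ _, Dvd.intro q rfl⟩, Nat.mul_div_cancel_left q (by omega)]

theorem yc_ne (n l m : ℕ) (hl : l < n) (h : m % (n + 1) ≠ l) : yc n l m = 0 := by
  unfold yc
  rw [if_neg]
  rintro ⟨h1, q, h2⟩
  apply h
  have h3 : m = l + (n + 1) * q := by omega
  rw [h3, Nat.add_mul_mod_self_left, Nat.mod_eq_of_lt (by omega)]

theorem fac (m n : ℕ) : (m + 1 + n).factorial = (m + 1 + n).descFactorial n * ((m + 1) * m.factorial) := by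
  have h := Nat.factorial_mul_descFactorial (n := m + 1 + n) (k := n) (by omega)
  rw [← h, Nat.add_sub_cancel, Nat.factorial_succ]
  ring

theorem yc_rec (n l q : ℕ) : ((l + (n + 1) * q + 1 + n).descFactorial n : ℚ) *
    yc n l (l + (n + 1) * (q + 1)) = ((l + (n + 1) * q : ℕ) + 1 : ℚ) ^ n * yc n l (l + (n + 1) * q) := by
  rw [yc_add, yc_add, Finset.prod_range_succ]
  have e : l + (n + 1) * (q + 1) = l + (n + 1) * q + 1 + n := by ring
  rw [e, fac]
  have h1 : ((l + (n + 1) * q + 1 + n).descFactorial n : ℚ) ≠ 0 := by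
    have : (l + (n + 1) * q + 1 + n).descFactorial n ≠ 0 := by
      intro h
      rw [Nat.descFactorial_eq_zero_iff_lt] at h
      omega
    exact_mod_cast this
  have h2 : ((l + (n + 1) * q).factorial : ℚ) ≠ 0 := by
    exact_mod_cast Nat.factorial_ne_zero _
  have h3 : ((l : ℚ) + ((n : ℚ) + 1) * q + 1) ≠ 0 := by positivity
  push_cast
  rw [mul_pow, pow_succ ((((n : ℚ) + 1) * q + l + 1)) n]
  have e3 : ((n : ℚ) + 1) * q + l + 1 = (l : ℚ) + ((n : ℚ) + 1) * q + 1 := by ring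
  rw [e3]
  field_simp

theorem yc_nonneg (n l m : ℕ) : 0 ≤ yc n l m := by
  unfold yc
  split_ifs
  · positivity
  · exact le_rfl

theorem yc_zero (n l : ℕ) : yc n l l = 1 / (l.factorial : ℚ) := by
  have h := yc_add n l 0
  simpa using h

theorem yc_le (n l m : ℕ) (hl : l < n) : yc n l m ≤ 1 := by
  by_cases h : m % (n + 1) = l
  · have h1 : m = l + (n + 1) * (m / (n + 1)) := by
      conv_lhs => rw [← Nat.mod_add_div m (n + 1), h]
    rw [h1]
    generalize m / (n + 1) = q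
    induction q with
    | zero =>
      rw [mul_zero, add_zero, yc_zero]
      have : (1 : ℚ) ≤ (l.factorial : ℚ) := by exact_mod_cast Nat.factorial_pos l
      exact div_le_one_of_le₀ this (by positivity)
    | succ q ih =>
      have h2 := yc_rec n l q
      have h3 := yc_nonneg n l (l + (n + 1) * (q + 1))
      have h4 : ((l + (n + 1) * q : ℕ) + 1 : ℚ) ^ n ≤
          ((l + (n + 1) * q + 1 + n).descFactorial n : ℚ) := by
        have h5 := Nat.pow_sub_le_descFactorial (l + (n + 1) * q + 1 + n) n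
        have h6 : l + (n + 1) * q + 1 ≤ l + (n + 1) * q + 1 + n + 1 - n := by omega
        have h7 := le_trans (Nat.pow_le_pow_left h6 n) h5
        exact_mod_cast h7
      have h8 : (0 : ℚ) < ((l + (n + 1) * q : ℕ) + 1 : ℚ) ^ n := by positivity
      have h9 : ((l + (n + 1) * q : ℕ) + 1 : ℚ) ^ n * yc n l (l + (n + 1) * (q + 1)) ≤
          ((l + (n + 1) * q : ℕ) + 1 : ℚ) ^ n * 1 := by
        calc ((l + (n + 1) * q : ℕ) + 1 : ℚ) ^ n * yc n l (l + (n + 1) * (q + 1))
            ≤ ((l + (n + 1) * q + 1 + n).descFactorial n : ℚ) *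
              yc n l (l + (n + 1) * (q + 1)) := mul_le_mul_of_nonneg_right h4 h3
          _ = ((l + (n + 1) * q : ℕ) + 1 : ℚ) ^ n * yc n l (l + (n + 1) * q) := h2
          _ ≤ _ := mul_le_mul_of_nonneg_left ih h8.le
      exact le_of_mul_le_mul_left h9 h8
  · rw [yc_ne n l m hl h]
    norm_num

theorem pc_yc (h1 : CYP.Stmt_Rec) (n j l q : ℕ) : pc n j (l + (n + 1) * q) =
    ((yc n l (l + (n + 1) * q) : ℚ) : ℂ) * ((l.factorial : ℂ) * pc n j l) := by
  induction q with
  | zero =>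
    rw [mul_zero, add_zero, yc_zero]
    have : (l.factorial : ℂ) ≠ 0 := by exact_mod_cast Nat.factorial_ne_zero l
    push_cast
    field_simp
  | succ q ih =>
    have h2 := ODED_.pc_rec h1 n j (l + (n + 1) * q)
    have h3 := yc_rec n l q
    have e : l + (n + 1) * (q + 1) = l + (n + 1) * q + 1 + n := by ring
    have h4 : ((l + (n + 1) * q + 1 + n).descFactorial n : ℂ) ≠ 0 := by
      have : (l + (n + 1) * q + 1 + n).descFactorial n ≠ 0 := by
        intro h
        rw [Nat.descFactorial_eq_zero_iff_lt] at h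
        omega
      exact_mod_cast this
    apply mul_left_cancel₀ h4
    rw [← e] at h2
    have h5 : ((l + (n + 1) * q + 1 + n).descFactorial n : ℂ) *
        ((yc n l (l + (n + 1) * (q + 1)) : ℚ) : ℂ) =
        ((l + (n + 1) * q : ℕ) + 1 : ℂ) ^ n * ((yc n l (l + (n + 1) * q) : ℚ) : ℂ) := by
      exact_mod_cast congrArg (fun x : ℚ => (x : ℂ)) h3
    rw [e] at h2 h5 ⊢
    rw [h2, ih]
    linear_combination (-((l.factorial : ℂ) * pc n j l)) * h5

theorem pc_top (n j m : ℕ) (h : m % (n + 1) = n) : pc n j m = 0 := by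
  have h1 : m + 1 = (n + 1) * (m / (n + 1) + 1) := by
    have := Nat.mod_add_div m (n + 1)
    rw [h] at this
    nlinarith
  unfold pc
  rw [h1, pow_mul (zt n) (n + 1), ODED_.zt_pow, one_pow]
  simp

theorem pc_sum (h1 : CYP.Stmt_Rec) (n j m : ℕ) : pc n j m = ∑ l : Fin n,
    ((yc n (l : ℕ) m : ℚ) : ℂ) * (((l : ℕ).factorial : ℂ) * pc n j l) := by
  have hlt : m % (n + 1) < n + 1 := Nat.mod_lt _ (by omega)
  rcases Nat.lt_or_ge (m % (n + 1)) n with h | h
  · rw [Finset.sum_eq_single (⟨m % (n + 1), h⟩ : Fin n)]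
    · have h2 : m = m % (n + 1) + (n + 1) * (m / (n + 1)) := (Nat.mod_add_div m (n + 1)).symm
      have h3 := pc_yc h1 n j (m % (n + 1)) (m / (n + 1))
      rw [← h2] at h3
      exact h3
    · intro l _ hl
      rw [yc_ne n l m l.2]
      · simp
      · intro h3
        apply hl
        exact Fin.ext h3.symm
    · intro h2
      exact absurd (Finset.mem_univ _) h2
  · have h2 : m % (n + 1) = n := by omega
    rw [pc_top n j m h2]
    symm
    apply Finset.sum_eq_zero
    intro l _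
    rw [yc_ne n l m l.2]
    · simp
    · have := l.2
      omega

theorem conv (n : ℕ) (p : Fin n × Fin n) (x : ℝ) (hx : |x| < 1) : Conv (Ys n p) x := by
  unfold Conv
  set c : ℕ → ℂ := fun m => ((yc n (p.2 : ℕ) m : ℚ) : ℂ) with hc
  have hPB : PSER.PB c := by
    refine ⟨1, 0, fun m => ?_⟩
    rw [pow_zero, mul_one]
    have h1 : c m = (((yc n (p.2 : ℕ) m : ℚ) : ℝ) : ℂ) := by simp [hc]
    rw [h1, Complex.norm_real, Real.norm_eq_abs, abs_of_nonneg (by exact_mod_cast yc_nonneg _ _ _)]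
    exact_mod_cast yc_le n p.2 m p.2.2
  have h0 : 0 ≤ |x| := abs_nonneg x
  have h2 := PSER.summable_of_PB (PSER.PB_iter (p.1 : ℕ) hPB) (r := (|x| + 1) / 2)
    (by linarith) (by linarith)
  refine Summable.of_nonneg_of_le (fun m => by positivity) (fun m => ?_) h2
  have h3 : ‖(PSER.Dc^[(p.1 : ℕ)] c) m‖ = |((PowerSeries.coeff m (Ys n p) : ℚ) : ℝ)| := by
    rw [PSER.Dc_iter, Ys, PowerSeries.coeff_mk]
    have : ((m + (p.1 : ℕ)).descFactorial (p.1 : ℕ) : ℂ) * c (m + (p.1 : ℕ)) =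
      ((((m + (p.1 : ℕ)).descFactorial (p.1 : ℕ) : ℚ) * yc n (p.2 : ℕ) (m + (p.1 : ℕ)) : ℚ) : ℝ) := by
      simp [hc]
    rw [this, Complex.norm_real, Real.norm_eq_abs]
  rw [h3]
  refine mul_le_mul_of_nonneg_left ?_ (abs_nonneg _)
  exact pow_le_pow_left₀ h0 (by linarith) m

end YVL_

open YVL_

theorem yvl_proof (h1 : CYP.Stmt_Rec) (h2 : CYP.Stmt_Pser) (h3 : CYP.Stmt_Yx)
    (_h4 : CYP.Stmt_Geo) : Stmt_YVl := by
  intro n _ x hx
  have hconv : ∀ p, Conv (Ys n p) x := fun p => conv n p x hx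
  refine ⟨hconv, ?_⟩
  have hball : ∀ y : ℝ, |y| < 1 → (y : ℂ) ∈ ball (0 : ℂ) 1 := by
    intro y hy
    rw [mem_ball_zero_iff, Complex.norm_real, Real.norm_eq_abs]
    exact hy
  have hM : ∀ (y : ℝ), |y| < 1 → ∀ (k j : Fin n),
      HasSum (fun m : ℕ => ((m + (k : ℕ)).descFactorial (k : ℕ) : ℂ) * pc n j (m + k) * (y : ℂ) ^ m)
        (Mx n (y : ℂ) k j) := by
    intro y hy k j
    obtain ⟨C, hC⟩ := ODED_.pc_bdd h1 n j
    have h5 := (h2 (pc n j) C hC).2 k (y : ℂ) (hball y hy)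
    have h6 : Mx n (y : ℂ) k j = iteratedDeriv (k : ℕ) (fun z => ∑' m : ℕ, pc n j m * z ^ m) (y : ℂ) := by
      unfold Mx
      rw [Matrix.of_apply]
      have hev : Yx n j =ᶠ[𝓝 (y : ℂ)] prd n j := by
        filter_upwards [isOpen_ball.mem_nhds (hball y hy)] with w hw using (h3 n j).2 w hw
      exact hev.iteratedDeriv_eq k
    rw [h6]
    exact h5
  have hM0 : ∀ (l j : Fin n), Mx n 0 l j = ((l : ℕ).factorial : ℂ) * pc n j l := by
    intro l j
    have h5 := hM 0 (by simp) l j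
    have h6 : HasSum (fun m : ℕ => ((m + (l : ℕ)).descFactorial (l : ℕ) : ℂ) * pc n j (m + l) *
        ((0 : ℝ) : ℂ) ^ m) (((l : ℕ).factorial : ℂ) * pc n j l) := by
      have h7 := hasSum_single (f := fun m : ℕ => ((m + (l : ℕ)).descFactorial (l : ℕ) : ℂ) *
        pc n j (m + l) * ((0 : ℝ) : ℂ) ^ m) 0 (by
          intro m hm
          simp [hm])
      simpa [Nat.descFactorial_self] using h7
    have h8 := h5.unique h6
    simpa using h8
  ext k j
  rw [Matrix.mul_apply]
  have h5 := hM x hx k j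
  refine h5.unique ?_
  have h6 : ∀ l : Fin n, HasSum (fun m : ℕ => ((PowerSeries.coeff m (Ys n (k, l)) : ℚ) : ℂ) *
      (x : ℂ) ^ m * (((l : ℕ).factorial : ℂ) * pc n j l)) (Yv n x k l * Mx n 0 l j) := by
    intro l
    rw [hM0]
    apply HasSum.mul_right
    have h7 : Summable (fun m : ℕ => ((PowerSeries.coeff m (Ys n (k, l)) : ℚ) : ℝ) * x ^ m) := by
      apply Summable.of_abs
      refine (hconv (k, l)).congr fun m => ?_
      rw [abs_mul, abs_pow]
    have h8 := h7.hasSum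
    have h9 := (Complex.hasSum_ofReal.2 h8)
    have h10 : Yv n x k l = ((∑' m : ℕ, ((PowerSeries.coeff m (Ys n (k, l)) : ℚ) : ℝ) * x ^ m : ℝ) : ℂ) := rfl
    rw [h10]
    refine h9.congr_fun ?_ |> fun h => h
    intro m
    push_cast
    rfl
  have h7 := hasSum_sum (s := Finset.univ) fun l (_ : l ∈ Finset.univ) => h6 l
  refine h7.congr_fun ?_ |> fun h => h
  intro m
  rw [pc_sum h1 n j (m + k), Finset.mul_sum, Finset.sum_mul]
  refine Finset.sum_congr rfl fun l _ => ?_
  rw [Ys, PowerSeries.coeff_mk]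
  push_cast
  ring

end Pool.Agent.CYD
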