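import Pool.Agent.CYD.YODE
import Pool.Agent.CYD.HDY
import Pool.Agent.CYD.BSZ
import Pool.Agent.CYD.YSZ
import Pool.Agent.CYD.DEN
import Pool.Agent.CYD.DLC
import Pool.Agent.CYD.BIL
import Pool.Agent.CYD.BDN
import Pool.Agent.CYD.BAS
import Pool.Agent.CYD.FULY
import Pool.Agent.CYD.YVL
import Pool.Agent.CYD.JMPP
import Pool.Agent.CYD.TRVP
import Pool.Agent.CYD.FIBP
import Pool.Agent.CYD.SUBX
import Pool.Agent.CYD.JOIN
import Pool.Agent.CYD.FUNC
import Pool.Agent.CYD.TRFQ
import Pool.Agent.CYD.ZSY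
import Pool.Agent.CYD.REFY
import Pool.Agent.CYD.INDY
import Pool.Agent.CYD.EXCW
import Pool.Agent.CYD.NFW
import Pool.Agent.CYD.MAINY
import Pool.Agent.CYD.FINY
import Pool.Agent.CYP.Main
import Pool.Agent.DG2.ELC
import Pool.Agent.DG2.DSMJ
import Pool.Agent.DG2.HOMQ
import Pool.Agent.DGP.Assembly

set_option autoImplicit false

/-!
# CYD: assembly
-/

namespace Pool.Agent.CYD

open Pool.Agent.CYP

theorem yode : Stmt_YOde := yode_proof
theorem hdy : Stmt_HdY := hdy_proof yode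
theorem dlc : Stmt_Dlc := dlc_proof DGP.Lcm_proof
theorem bil : Stmt_Bil := bil_proof lagr_proof CYP.Main.pser
theorem bdn : Stmt_BDn := bdn_proof hdy bil den_proof dlc bsz_proof
theorem bas : Stmt_Bas := bas_proof hdy bsz_proof ysz_proof den_proof dlc bdn
theorem fuly : Stmt_FulY := fuly_proof bas DG2.dsmj_proof DGP.Tens_proof DGP.Mono_proof
theorem yvl : Stmt_YVl := yvl_proof CYP.Main.rec' CYP.Main.pser CYP.Main.yx CYP.Main.geo
theorem jmpP : Stmt_JmpP := jmpp_proof CYP.Main.solO CYP.Main.bilO sec_proof CYP.Main.geo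
  CYP.Main.nx CYP.Main.yx CYP.Main.cauc CYP.Main.qdet GPH.lode_proof GPH.uniq_proof
theorem trvP : Stmt_TrvP := trvp_proof jmpP (vc_proof CYP.Main.qdet) CYP.Main.rot CYP.Main.geo
  CYP.Main.bilO CYP.Main.qdet
theorem fibP : Stmt_FibP := fibp_proof trvP CYP.Main.grpQ CYP.Main.bilO CYP.Main.yx CYP.Main.geo
  CYP.Main.qdet
theorem join : Stmt_Join := join_proof fibP subx_proof psi_proof fmat_proof darb_proof
  CYP.Main.qdet CYP.Main.yx CYP.Main.geo
theorem func : Stmt_Func := func_proof join yvl DGP.Val_proof CYP.Main.bilO CYP.Main.qdet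
  CYP.Main.yx CYP.Main.geo
theorem trfq : Stmt_TrfQ := trfq_proof DG2.homq_proof
theorem zsy : Stmt_ZsY := zsy_proof yvl CYP.Main.bilO CYP.Main.qdet CYP.Main.geo
theorem refy : Stmt_RefY := refy_proof fmat_proof darb_proof CYP.Main.qdet CYP.Main.geo
  CYP.Main.bilO psi_proof
theorem indy : Stmt_IndY := indy_proof func trfq fuly zsy yvl DGP.aa DGP.Val_proof
  DGP.Word_proof HGP.cellb_proof
theorem excw : Stmt_ExcW := excw_proof DG2.homq_proof
theorem mainy : Stmt_MainY := mainy_proof indy excw zsy DG2.elc_proof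

/-- The main theorem. -/
theorem finy : Stmt_FinY := finy_proof mainy nfw_proof refy CYP.Main.link psi_proof

end Pool.Agent.CYD
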