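import Pool.Agent.CYD.Defs

set_option autoImplicit false

/-!
# CYD: exact statements of the modules, parts A and B
-/

open scoped BigOperators Topology
open Metric Set

namespace Pool.Agent.CYD

open Pool.Agent.CYP
open Pool.Agent.DGP (GSys IsZ hd val Conv tens)

noncomputable section

/-! ## Part A: arithmetic at the Fermat point -/

/-- YODE: the Picard-Fuchs system for the power series. -/
def Stmt_YOde : Prop := ∀ n : ℕ, 0 < n → ∀ i j : Fin n,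
  (Tq n : PowerSeries ℚ) * hd 1 (Ys n (i, j)) =
    ∑ m, (Aq n i m : PowerSeries ℚ) * Ys n (m, j) ∧
  PowerSeries.coeff 0 (Ys n (i, j)) = if i = j then 1 else 0

/-- HDY: the derivatives of the fundamental matrix. -/
def Stmt_HdY : Prop := ∀ n : ℕ, 0 < n → ∀ (k : ℕ) (i j : Fin n),
  (Tq n : PowerSeries ℚ) ^ k * hd k (Ys n (i, j)) =
    ∑ l, (Bt n k i l : PowerSeries ℚ) * Ys n (l, j)

/-- BSZ: degrees and sizes of the matrices `Bt`. -/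
def Stmt_BSz : Prop := ∀ n : ℕ, ∃ C : ℕ, ∀ (k : ℕ) (i j : Fin n),
  (Bt n k i j).natDegree ≤ (n + 1) * k ∧ ∀ l, |(Bt n k i j).coeff l| ≤ (C : ℚ) ^ k

/-- YSZ: size of the Taylor coefficients. -/
def Stmt_YSz : Prop := ∀ (n : ℕ) (p : Fin n × Fin n) (j : ℕ),
  |PowerSeries.coeff j (Ys n p)| ≤ ((j + n : ℕ) : ℚ) ^ n

/-- DEN: denominators of the Taylor coefficients. -/
def Stmt_Den : Prop := ∀ n l j : ℕ, l < n → IsZ ((Dj n j : ℚ) * yc n l j)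

/-- DLC: properties of the common denominators. -/
def Stmt_Dlc : Prop := ∀ n : ℕ, (∀ i j : ℕ, i ≤ j → Dj n i ∣ Dj n j) ∧ (∀ j, 1 ≤ Dj n j) ∧
  ∃ C : ℕ, ∀ j, Dj n j ≤ C ^ j

/-- BIL: the bilinear relation for the power series. -/
def Stmt_Bil : Prop := ∀ n : ℕ, 0 < n → Even n → ∀ i j : Fin n,
  ∑ a : Fin n, ∑ b : Fin n, Ys n (a, i) * (Rq n (a : ℕ) (b : ℕ) : PowerSeries ℚ) * Ys n (b, j) =
    PowerSeries.C ((Rq n (i : ℕ) (j : ℕ)).coeff 0)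

/-- BDN: denominators of the matrices `Bt`. -/
def Stmt_BDn : Prop := ∀ n : ℕ, 0 < n → Even n → ∀ (k : ℕ) (i j : Fin n) (l : ℕ),
  IsZ (((Dj n ((n + 2) * (k + 1)) : ℕ) : ℚ) ^ 2 * (Bt n k i j).coeff l)

/-- BAS: the base system. -/
def Stmt_Bas : Prop := ∀ n : ℕ, 0 < n → Even n → ∃ C : ℕ, ∀ d : ℕ, 1 ≤ d →
  ∃ (e₀ : ℕ) (c₀ : ℝ), GSys (fun p : Fin n × Fin n => PowerSeries.rescale (d : ℚ) (Ys n p))
    (Td n d) (n + 1) e₀ c₀ (C * d ^ (n + 2))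

/-- FUL: the full system. -/
def Stmt_FulY : Prop := ∀ (K : ℕ) (n : Fin K → ℕ), (∀ k, 0 < n k ∧ Even (n k)) → ∀ E : ℕ,
  ∃ C e τ : ℕ, ∀ (d : Fin K → ℕ) (b : ℕ), 1 ≤ b → (∀ k, 1 ≤ d k ∧ d k ≤ b) →
  ∃ (e₀ : ℕ) (c₀ : ℝ),
    GSys (tens (fullY (n := n) d) E) (∏ k, Td (n k) (d k)) τ e₀ c₀ (C * b ^ e)

/-- YVL: the periods. -/
def Stmt_YVl : Prop := ∀ n : ℕ, 0 < n → ∀ x : ℝ, |x| < 1 → (∀ p, Conv (Ys n p) x) ∧
  Mx n (x : ℂ) = Yv n x * Mx n 0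

/-! ## Part B: joint independence -/

/-- JMP: the connection matrix across the cut `(1, ∞)`, relations with parameters. -/
def Stmt_JmpP : Prop := ∀ (n : ℕ) (i0 : Fin n), Even n → (i0 : ℕ) = 0 →
  ∃ h : Matrix (Fin n) (Fin n) ℂ, h.transpose * Qm n ℂ * h = Qm n ℂ ∧ h ≠ 1 ∧
    (∀ u : Fin n → ℂ, ∑ j, Qm n ℂ j i0 * u j = 0 → h.mulVec u = u) ∧
    ∀ (σ : Type) [Fintype σ] (ρ : ℝ) (f : σ → ℂ → ℂ)
      (P : MvPolynomial (σ ⊕ (Fin n × Fin n)) ℂ), 1 < ρ → HolF ρ f →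
      RelP n ρ f P 1 → RelP n ρ f P h

/-- TRVP: invariance under the transvections. -/
def Stmt_TrvP : Prop := ∀ n : ℕ, 0 < n → Even n → ∀ (σ : Type) [Fintype σ] (ρ : ℝ)
  (f : σ → ℂ → ℂ) (P : MvPolynomial (σ ⊕ (Fin n × Fin n)) ℂ), 1 < ρ → HolF ρ f →
  RelP n ρ f P 1 → ∀ (k : Fin n) (c : ℂ), RelP n ρ f P (1 + c • rs n k)

/-- FIBP: relations hold on the whole fibre of the torsor. -/
def Stmt_FibP : Prop := ∀ g : ℕ, 0 < g → ∀ (σ : Type) [Fintype σ] (ρ : ℝ) (f : σ → ℂ → ℂ)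
  (P : MvPolynomial (σ ⊕ (Fin (2 * g) × Fin (2 * g))) ℂ), 1 < ρ → HolF ρ f →
  ∀ R : ℝ, 0 < R → (∀ ψ ∈ ball (0 : ℂ) R, MvPolynomial.eval
    (Sum.elim (fun i => f i ψ) (fun p => Mx (2 * g) ψ p.1 p.2)) P = 0) →
  ∀ ψ ∈ ball (0 : ℂ) 1, ∀ X : Matrix (Fin (2 * g)) (Fin (2 * g)) ℂ,
    Tors (2 * g) ψ (2 * Real.pi * Complex.I) X →
    MvPolynomial.eval (Sum.elim (fun i => f i ψ) (fun p => X p.1 p.2)) P = 0

/-- SUBX: substitution of `X = Pi' Y` in one block. -/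
def Stmt_SubX : Prop := ∀ (I : Type) [Fintype I] [DecidableEq I] (g : I → ℕ) (k₀ : I)
  (F' : Matrix (Fin (2 * g k₀)) (Ix (g k₀)) (Polynomial ℤ))
  (E : Matrix (Fin (2 * g k₀)) (Ix (g k₀)) ℚ) (c : ℂ) (Y : Matrix (Ix (g k₀)) (Ix (g k₀)) ℂ)
  (P : MvPolynomial (Option (Σ k, Fin (2 * g k) × Fin (2 * g k))) ℂ),
  ∃ (M : ℕ) (P' : MvPolynomial
    (Option (Σ k : {k // k ≠ k₀}, Fin (2 * g k) × Fin (2 * g k))) ℂ),
  ∀ (z : ℂ) (X : ∀ k, Matrix (Fin (2 * g k)) (Fin (2 * g k)) ℂ),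
    1 - (c * z) ^ (2 * g k₀ + 1) ≠ 0 → X k₀ = Pi' F' E (c * z) Y →
    MvPolynomial.eval (HGP.opt z (fun p => X p.1 p.2.1 p.2.2)) P' =
      (1 - (c * z) ^ (2 * g k₀ + 1)) ^ M *
        MvPolynomial.eval (HGP.opt z (fun p => X p.1 p.2.1 p.2.2)) P

/-- JOIN: several blocks with different scales. -/
def Stmt_Join : Prop := ∀ (I : Type) [Fintype I] [DecidableEq I] (g : I → ℕ) (d : I → ℝ),
  (∀ k, 0 < g k) → (∀ k, 0 < d k) → Function.Injective d →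
  ∀ P : MvPolynomial (Option (Σ k, Fin (2 * g k) × Fin (2 * g k))) ℂ, ∀ ε : ℝ, 0 < ε →
  (∀ z ∈ ball (0 : ℂ) ε, MvPolynomial.eval
    (HGP.opt z (fun p => Mx (2 * g p.1) (d p.1 * z) p.2.1 p.2.2)) P = 0) →
  ∀ z : ℂ, (∀ k, ‖(d k : ℂ) * z‖ < 1) → ∀ X : ∀ k, Matrix (Fin (2 * g k)) (Fin (2 * g k)) ℂ,
    (∀ k, Tors (2 * g k) (d k * z) (2 * Real.pi * Complex.I) (X k)) →
    MvPolynomial.eval (HGP.opt z (fun p => X p.1 p.2.1 p.2.2)) P = 0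

end

end Pool.Agent.CYD
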