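import Pool.Agent.CYD.Stmts
import Pool.Agent.CYP.ODED

/-!
# CYD, module YODE: the Picard-Fuchs system for the power series
-/

open scoped BigOperators Topology
open Metric Set

namespace Pool.Agent.CYD

open Pool.Agent.CYP
open Pool.Agent.DGP (GSys IsZ hd val Conv tens)

noncomputable section

namespace YODE_

/-- the recurrence -/
theorem yc_rec (n l x : ℕ) (hl : l < n) :
    ((x + 1 + n).descFactorial n : ℚ) * yc n l (x + 1 + n) = ((x : ℚ) + 1) ^ n * yc n l x := by
  unfold yc
  by_cases h : l ≤ x
  · obtain ⟨y, rfl⟩ := Nat.exists_eq_add_of_le h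
    have e1 : l + y + 1 + n - l = y + (n + 1) := by omega
    have e2 : l + y - l = y := by omega
    rw [e1, e2]
    by_cases hd : (n + 1) ∣ y
    · obtain ⟨q, rfl⟩ := hd
      have hd2 : (n + 1) ∣ (n + 1) * q + (n + 1) := ⟨q + 1, by ring⟩
      rw [if_pos ⟨by omega, hd2⟩, if_pos ⟨by omega, dvd_mul_right _ _⟩]
      have e3 : ((n + 1) * q + (n + 1)) / (n + 1) = q + 1 := by
        rw [show (n + 1) * q + (n + 1) = (n + 1) * (q + 1) by ring]
        exact Nat.mul_div_cancel_left _ (by omega)
      have e4 : (n + 1) * q / (n + 1) = q := Nat.mul_div_cancel_left _ (by omega)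
      rw [e3, e4, Finset.prod_range_succ]
      set P := ∏ i ∈ Finset.range q, ((n + 1) * i + l + 1) with hP
      set x := l + (n + 1) * q with hx
      have e5 : (n + 1) * q + l + 1 = x + 1 := by omega
      rw [e5]
      have e6 : (x + 1 + n).factorial = (x + 1).factorial * (x + 1 + n).descFactorial n := by
        have := Nat.factorial_mul_descFactorial (n := x + 1 + n) (k := n) (by omega)
        rw [show x + 1 + n - n = x + 1 by omega] at this
        exact this.symm
      rw [e6, Nat.factorial_succ]
      have h1 : ((x + 1 + n).descFactorial n : ℚ) ≠ 0 := by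
        have := Nat.descFactorial_eq_zero_iff_lt (n := x + 1 + n) (k := n)
        have h2 : (x + 1 + n).descFactorial n ≠ 0 := by
          intro h3
          have := this.1 h3
          omega
        exact_mod_cast h2
      have h2 : ((x.factorial : ℕ) : ℚ) ≠ 0 := by exact_mod_cast (Nat.factorial_pos x).ne'
      have h3 : ((x : ℚ) + 1) ≠ 0 := by positivity
      push_cast
      field_simp
      rw [mul_pow, pow_succ ((x : ℚ) + 1) n]
      ring
    · have hd2 : ¬ (n + 1) ∣ y + (n + 1) := by
        intro h2
        exact hd ((Nat.dvd_add_left (dvd_refl _)).1 h2)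
      rw [if_neg (fun h2 => hd2 h2.2), if_neg (fun h2 => hd h2.2)]
      ring
  · have h5 : ¬ (l ≤ x + 1 + n ∧ (n + 1) ∣ (x + 1 + n - l)) := by
      rintro ⟨h1, h2⟩
      have h3 := Nat.le_of_dvd (by omega) h2
      omega
    have h6 : ¬ (l ≤ x ∧ (n + 1) ∣ (x - l)) := fun h2 => h h2.1
    rw [if_neg h5, if_neg h6, mul_zero, mul_zero]

theorem yc_n (n l : ℕ) (hl : l < n) : yc n l n = 0 := by
  unfold yc
  rw [if_neg]
  rintro ⟨h1, h2⟩
  have h3 := Nat.le_of_dvd (by omega) h2
  omega

theorem coeff_hd_Ys (n : ℕ) (p : Fin n × Fin n) (k : ℕ) :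
    PowerSeries.coeff k (hd 1 (Ys n p)) =
      ((k + ((p.1 : ℕ) + 1)).descFactorial ((p.1 : ℕ) + 1) : ℚ) *
        yc n (p.2 : ℕ) (k + ((p.1 : ℕ) + 1)) := by
  unfold hd Ys
  rw [PowerSeries.coeff_mk, PowerSeries.coeff_mk]
  have e : k + 1 + (p.1 : ℕ) = k + ((p.1 : ℕ) + 1) := by omega
  have e2 : (k + ((p.1 : ℕ) + 1)).descFactorial ((p.1 : ℕ) + 1) =
      (k + 1) * (k + 1 + (p.1 : ℕ)).descFactorial (p.1 : ℕ) := by
    rw [Nat.descFactorial_succ, e]
    congr 1
    omega
  rw [e2, e]
  simp only [Nat.choose_one_right]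
  push_cast
  ring

end YODE_

open YODE_ in
theorem yode_proof : Stmt_YOde := by
  intro n hn i j
  constructor
  · by_cases hi : (i : ℕ) + 1 < n
    · -- the trivial rows
      have h1 : hd 1 (Ys n (i, j)) = Ys n (⟨(i : ℕ) + 1, hi⟩, j) := by
        ext k
        rw [coeff_hd_Ys]
        unfold Ys
        rw [PowerSeries.coeff_mk]
      rw [h1, Finset.sum_eq_single (⟨(i : ℕ) + 1, hi⟩ : Fin n)]
      · congr 1
        unfold Aq
        rw [Matrix.of_apply, if_pos rfl]
      · intro m _ hm
        have h2 : (i : ℕ) + 1 ≠ (m : ℕ) := fun h => hm (Fin.ext h.symm)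
        unfold Aq
        rw [Matrix.of_apply, if_neg h2, if_neg (by omega)]
        simp
      · intro h; exact absurd (Finset.mem_univ _) h
    · have hi' : (i : ℕ) + 1 = n := by have := i.2; omega
      have h1 : ∀ m : Fin n, (Aq n i m : PowerSeries ℚ) * Ys n (m, j) =
          PowerSeries.C (Nat.stirlingSecond (n + 1) ((m : ℕ) + 1) : ℚ) *
            (Ys n (m, j) * PowerSeries.X ^ ((m : ℕ) + 1)) := by
        intro m
        have h2 : (i : ℕ) + 1 ≠ (m : ℕ) := by have := m.2; omega
        unfold Aq
        rw [Matrix.of_apply, if_neg h2, if_pos hi', Polynomial.coe_mul, Polynomial.coe_C,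
          Polynomial.coe_pow, Polynomial.coe_X]
        ring
      rw [Finset.sum_congr rfl fun m _ => h1 m]
      have hT : ((Tq n : Polynomial ℚ) : PowerSeries ℚ) = 1 - PowerSeries.X ^ (n + 1) := by
        unfold Tq
        rw [Polynomial.coe_sub, Polynomial.coe_one, Polynomial.coe_pow, Polynomial.coe_X]
      rw [hT, sub_mul, one_mul, mul_comm (PowerSeries.X ^ (n + 1))]
      ext k
      rw [map_sub, map_sum]
      simp only [PowerSeries.coeff_C_mul, PowerSeries.coeff_mul_X_pow']
      rcases Nat.eq_zero_or_pos k with rfl | hk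
      · rw [if_neg (by omega), coeff_hd_Ys]
        simp only [hi', Nat.zero_add, yc_n n j j.2]
        rw [Finset.sum_eq_zero]
        · simp
        · intro m _
          rw [if_neg (by omega), mul_zero]
      · obtain ⟨x, rfl⟩ : ∃ x, k = x + 1 := ⟨k - 1, by omega⟩
        have h3 : ∀ m : Fin n, (if (m : ℕ) + 1 ≤ x + 1 then
            PowerSeries.coeff (x + 1 - ((m : ℕ) + 1)) (Ys n (m, j)) else 0) =
            (x.descFactorial (m : ℕ) : ℚ) * yc n (j : ℕ) x := by
          intro m
          split_ifs with h4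
          · unfold Ys
            rw [PowerSeries.coeff_mk]
            have e : x + 1 - ((m : ℕ) + 1) + (m : ℕ) = x := by omega
            simp only [e]
          · rw [Nat.descFactorial_eq_zero_iff_lt.2 (by omega)]
            simp
        have h5 : (if n + 1 ≤ x + 1 then
            PowerSeries.coeff (x + 1 - (n + 1)) (hd 1 (Ys n (i, j))) else 0) =
            (x.descFactorial n : ℚ) * yc n (j : ℕ) x := by
          split_ifs with h4
          · rw [coeff_hd_Ys]
            have e : x + 1 - (n + 1) + n = x := by omega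
            simp only [hi', e]
          · rw [Nat.descFactorial_eq_zero_iff_lt.2 (by omega)]
            simp
        rw [h5, Finset.sum_congr rfl fun m _ => by rw [h3 m], coeff_hd_Ys]
        simp only [hi']
        rw [yc_rec n j x j.2]
        have h7 : (∑ k ∈ Finset.range (n + 1), (Nat.stirlingSecond (n + 1) (k + 1) : ℚ) *
            (x.descFactorial k : ℚ)) = ((x : ℚ) + 1) ^ n := by exact_mod_cast ODED_.stir x n
        rw [Finset.sum_range_succ, Nat.stirlingSecond_self] at h7
        have h8 : ∑ m : Fin n, (Nat.stirlingSecond (n + 1) ((m : ℕ) + 1) : ℚ) *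
            ((x.descFactorial (m : ℕ) : ℚ) * yc n (j : ℕ) x) =
            (∑ k ∈ Finset.range n, (Nat.stirlingSecond (n + 1) (k + 1) : ℚ) *
            (x.descFactorial k : ℚ)) * yc n (j : ℕ) x := by
          rw [Finset.sum_mul, ← Fin.sum_univ_eq_sum_range (fun k =>
            (Nat.stirlingSecond (n + 1) (k + 1) : ℚ) * (x.descFactorial k : ℚ) *
              yc n (j : ℕ) x) n]
          exact Finset.sum_congr rfl fun m _ => by ring
        rw [h8, ← h7]
        push_cast
        ring
  · unfold Ys
    rw [PowerSeries.coeff_mk]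
    simp only [Nat.zero_add, Nat.descFactorial_self]
    unfold yc
    by_cases hij : i = j
    · subst hij
      rw [if_pos ⟨le_refl _, by simp⟩, if_pos rfl]
      simp only [Nat.sub_self, Nat.zero_div, Finset.range_zero, Finset.prod_empty]
      have h2 : (((i : ℕ).factorial : ℕ) : ℚ) ≠ 0 := by
        exact_mod_cast (Nat.factorial_pos _).ne'
      push_cast
      field_simp
      simp
    · rw [if_neg hij, if_neg, mul_zero]
      rintro ⟨h1, h2⟩
      have h3 : (i : ℕ) ≠ (j : ℕ) := fun h => hij (Fin.ext h)
      have h4 := Nat.le_of_dvd (by omega) h2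
      have := i.2
      omega

end

end Pool.Agent.CYD
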