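import Pool.Agent.CYD.CStmts

set_option autoImplicit false

/-!
# CYD: module ZSY (the matrices `Z` near `0`)
-/

open scoped BigOperators Topology
open Metric Set

namespace Pool.Agent.CYD

open Pool.Agent.CYP
open Pool.Agent.DGP (GSys IsZ hd val Conv tens)
open Pool.Agent.HGP (Simil)

noncomputable section

namespace ZSY_

theorem val_cont (f : PowerSeries ℚ) (h : Conv f (1 / 2)) : ContinuousAt (fun x : ℝ => val f x) 0 := by
  have hc : ContinuousOn (fun x : ℝ => ∑' j, ((PowerSeries.coeff j f : ℚ) : ℝ) * x ^ j)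
      (Set.Icc (-(1 / 2)) (1 / 2)) := by
    refine continuousOn_tsum (u := fun j => |((PowerSeries.coeff j f : ℚ) : ℝ)| * |(1 / 2 : ℝ)| ^ j)
      (fun j => ?_) h (fun j x hx => ?_)
    · fun_prop
    · rw [norm_mul, norm_pow, Real.norm_eq_abs, Real.norm_eq_abs]
      have h1 : |x| ≤ |(1 / 2 : ℝ)| := by
        rw [abs_of_pos (by norm_num : (0 : ℝ) < 1 / 2)]
        exact abs_le.2 ⟨hx.1, hx.2⟩
      exact mul_le_mul_of_nonneg_left (pow_le_pow_left₀ (abs_nonneg _) h1 _) (abs_nonneg _)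
  exact hc.continuousAt (Icc_mem_nhds (by norm_num) (by norm_num))

theorem Yv_cont (n : ℕ) (h : ∀ p, Conv (Ys n p) (1 / 2)) : ContinuousAt (fun x : ℝ => Yv n x) 0 := by
  refine continuousAt_pi.2 fun i => continuousAt_pi.2 fun j => ?_
  exact Complex.continuous_ofReal.continuousAt.comp (val_cont _ (h (i, j)))

theorem ev_cont {g : ℕ} (F : Matrix (Fin (2 * g)) (Ix g) (Polynomial ℤ)) :
    Continuous (fun x : ℝ => ev F (x : ℂ)) := by
  refine continuous_pi fun i => continuous_pi fun j => ?_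
  exact (Polynomial.continuous_aeval (F i j)).comp Complex.continuous_ofReal

theorem mul3_cont {m n p q : Type} [Fintype n] [Fintype p]
    (A : ℝ → Matrix m n ℂ) (B : ℝ → Matrix n p ℂ) (C : Matrix p q ℂ) (x0 : ℝ)
    (hA : ContinuousAt A x0) (hB : ContinuousAt B x0) :
    ContinuousAt (fun x => A x * B x * C) x0 := by
  have hA' : ∀ i j, ContinuousAt (fun x => A x i j) x0 := fun i j =>
    continuousAt_pi.1 (continuousAt_pi.1 hA i) j
  have hB' : ∀ i j, ContinuousAt (fun x => B x i j) x0 := fun i j =>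
    continuousAt_pi.1 (continuousAt_pi.1 hB i) j
  refine continuousAt_pi.2 fun i => continuousAt_pi.2 fun j => ?_
  simp only [Matrix.mul_apply]
  refine tendsto_finsetSum _ fun k _ => Filter.Tendsto.mul ?_ tendsto_const_nhds
  exact tendsto_finsetSum _ fun l _ => (hA' i l).mul (hB' l k)

end ZSY_

theorem zsy_proof (h1 : Stmt_YVl) (h2 : CYP.Stmt_BilO) (h3 : CYP.Stmt_Qdet) (h4 : CYP.Stmt_Geo) :
    Stmt_ZsY := by
  intro g F F' hg hF
  have hn : 0 < 2 * g := by omega
  have he : Even (2 * g) := even_two_mul g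
  obtain ⟨-, -, hball, -, -⟩ := h4 (2 * g)
  have hOm : ∀ x : ℝ, |x| < 1 → (x : ℂ) ∈ Om (2 * g) := by
    intro x hx
    apply hball
    rw [mem_ball_zero_iff]
    simpa using hx
  have h00 : (0 : ℂ) ∈ Om (2 * g) := by
    have := hOm 0 (by norm_num)
    simpa using this
  -- the matrix at 0 is invertible
  have hB0 : (Mx (2 * g) 0).transpose * Rm (2 * g) 0 * Mx (2 * g) 0 =
      (2 * Real.pi * Complex.I : ℂ) ^ (2 * g - 1) • Qm (2 * g) ℂ := h2 (2 * g) hn he 0 h00
  have hpi : (2 * Real.pi * Complex.I : ℂ) ≠ 0 := by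
    simp [Real.pi_ne_zero]
  have hdet0 : (Mx (2 * g) 0).det ≠ 0 := by
    intro h0
    have h5 := congrArg Matrix.det hB0
    rw [Matrix.det_mul, Matrix.det_mul, h0, mul_zero, Matrix.det_smul] at h5
    exact mul_ne_zero (pow_ne_zero _ (pow_ne_zero _ hpi)) (h3 (2 * g) he) h5.symm
  have hu : IsUnit (Mx (2 * g) 0) := (Matrix.isUnit_iff_isUnit_det _).2 (isUnit_iff_ne_zero.2 hdet0)
  have huT : IsUnit (Mx (2 * g) 0).transpose := by
    rw [Matrix.isUnit_iff_isUnit_det, Matrix.det_transpose]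
    exact isUnit_iff_ne_zero.2 hdet0
  -- relations at 0
  have ha : ev F 0 * (ev F' 0).transpose = 1 := by
    have := hF.inv1 0
    simpa using this
  have hb : (ev F' 0).transpose * ev F 0 = 1 := by
    have := hF.inv2 0
    simpa using this
  have haT : ev F' 0 * (ev F 0).transpose = 1 := by
    have := congrArg Matrix.transpose ha
    simpa [Matrix.transpose_mul] using this
  have hbT : (ev F 0).transpose * ev F' 0 = 1 := by
    have := congrArg Matrix.transpose hb
    simpa [Matrix.transpose_mul] using this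
  have hR0 : ev F 0 * Matrix.J (Fin g) ℂ * (ev F 0).transpose = Rm (2 * g) 0 := hF.rel 0
  refine ⟨fun x hx => ⟨?_, fun E' => ?_⟩, ?_⟩
  · -- Simil
    have hM : Mx (2 * g) (x : ℂ) = Yv (2 * g) x * Mx (2 * g) 0 := (h1 (2 * g) hn x hx).2
    have hBx : (Mx (2 * g) (x : ℂ)).transpose * Rm (2 * g) (x : ℂ) * Mx (2 * g) (x : ℂ) =
        (2 * Real.pi * Complex.I : ℂ) ^ (2 * g - 1) • Qm (2 * g) ℂ := h2 (2 * g) hn he _ (hOm x hx)
    have hY : (Yv (2 * g) x).transpose * Rm (2 * g) (x : ℂ) * Yv (2 * g) x = Rm (2 * g) 0 := by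
      rw [← hB0, hM, Matrix.transpose_mul] at hBx
      have h6 : (Mx (2 * g) 0).transpose *
          (((Yv (2 * g) x).transpose * Rm (2 * g) (x : ℂ) * Yv (2 * g) x) * Mx (2 * g) 0) =
          (Mx (2 * g) 0).transpose * (Rm (2 * g) 0 * Mx (2 * g) 0) := by
        simpa [Matrix.mul_assoc] using hBx
      exact hu.mul_right_cancel (huT.mul_left_cancel h6)
    show (Zm F F' x).transpose * Matrix.J (Fin g) ℂ * Zm F F' x = (1 : ℂ) • Matrix.J (Fin g) ℂ
    have h7 : (Zm F F' x).transpose * Matrix.J (Fin g) ℂ * Zm F F' x =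
        (ev F' 0).transpose * ((Yv (2 * g) x).transpose * (ev F (x : ℂ) * Matrix.J (Fin g) ℂ *
          (ev F (x : ℂ)).transpose) * Yv (2 * g) x) * ev F' 0 := by
      simp [Zm, Matrix.transpose_mul, Matrix.mul_assoc]
    rw [h7, hF.rel, hY, ← hR0, one_smul]
    calc (ev F' 0).transpose * (ev F 0 * Matrix.J (Fin g) ℂ * (ev F 0).transpose) * ev F' 0
        = ((ev F' 0).transpose * ev F 0) * Matrix.J (Fin g) ℂ *
          ((ev F 0).transpose * ev F' 0) := by simp [Matrix.mul_assoc]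
      _ = Matrix.J (Fin g) ℂ := by rw [hb, hbT]; simp
  · have hM : Mx (2 * g) (x : ℂ) = Yv (2 * g) x * Mx (2 * g) 0 := (h1 (2 * g) hn x hx).2
    have h8 : Zm F F' x * Ps F E' 0 (Mx (2 * g) 0) =
        (ev F (x : ℂ)).transpose * Yv (2 * g) x * (ev F' 0 * (ev F 0).transpose) *
          Mx (2 * g) 0 * cx E' := by
      simp [Zm, Ps, Matrix.mul_assoc]
    rw [h8, haT, Matrix.mul_one, Ps, hM]
    simp [Matrix.mul_assoc]
  · -- continuity
    have hconv : ∀ p, Conv (Ys (2 * g) p) (1 / 2) :=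
      (h1 (2 * g) hn (1 / 2) (by rw [abs_of_pos] <;> norm_num)).1
    have hY0 : Yv (2 * g) 0 = 1 := by
      have h9 := (h1 (2 * g) hn 0 (by norm_num)).2
      rw [Complex.ofReal_zero] at h9
      have h10 : Yv (2 * g) 0 * Mx (2 * g) 0 = 1 * Mx (2 * g) 0 := by rw [one_mul]; exact h9.symm
      exact hu.mul_right_cancel h10
    have hZ0 : Zm F F' 0 = 1 := by
      rw [Zm, hY0, Complex.ofReal_zero, Matrix.mul_one, hbT]
    have hZc : ContinuousAt (fun x : ℝ => Zm F F' x) 0 := by
      have hA : ContinuousAt (fun x : ℝ => (ev F (x : ℂ)).transpose) 0 :=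
        (ZSY_.ev_cont F).matrix_transpose.continuousAt
      have hY := ZSY_.Yv_cont (2 * g) hconv
      exact ZSY_.mul3_cont _ _ _ _ hA hY
    have hdc : ContinuousAt (fun x : ℝ => (Zm F F' x).toBlocks₁₁.det) 0 := by
      have hd : Continuous (fun M : Matrix (Ix g) (Ix g) ℂ => M.toBlocks₁₁.det) := by
        apply Continuous.matrix_det
        exact continuous_pi fun i => continuous_pi fun j =>
          (continuous_apply (Sum.inl j)).comp (continuous_apply (Sum.inl i))
      exact hd.continuousAt.comp hZc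
    have hne : (Zm F F' 0).toBlocks₁₁.det ≠ 0 := by
      rw [hZ0]
      have : (1 : Matrix (Ix g) (Ix g) ℂ).toBlocks₁₁ = 1 := by
        ext i j
        simp [Matrix.toBlocks₁₁, Matrix.one_apply]
      rw [this, Matrix.det_one]
      exact one_ne_zero
    obtain ⟨ε, hε, hball'⟩ := Metric.eventually_nhds_iff_ball.1 (hdc.eventually_ne hne)
    refine ⟨min ε 1, lt_min hε one_pos, min_le_right _ _, fun x hx => hball' x ?_⟩
    rw [mem_ball_zero_iff, Real.norm_eq_abs]
    exact lt_of_lt_of_le hx (min_le_left _ _)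

end

end Pool.Agent.CYD
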